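import Mathlib

set_option autoImplicit false

open MeasureTheory Set Filter Topology

namespace Pool.Agent.H97.DB

/-- log-concavity in the form used in the problem -/
def LC (f : ℝ → ℝ) : Prop :=
  ∀ x y t : ℝ, 0 ≤ t → t ≤ 1 → f x ^ t * f y ^ (1 - t) ≤ f (t * x + (1 - t) * y)

/-- four point inequality for log-concave functions -/
theorem LC.four {f : ℝ → ℝ} (hf0 : ∀ x, 0 ≤ f x) (h : LC f) {u x v y : ℝ} (hux : u ≤ x)
    (hxy : x ≤ y) (hs : u + y = x + v) : f u * f y ≤ f x * f v := by
  rcases eq_or_lt_of_le (hux.trans hxy) with huy | huy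
  · have h1 : x = u := by linarith
    have h2 : v = y := by linarith
    rw [h1, h2]
  · set t : ℝ := (y - x) / (y - u) with ht
    have hd : 0 < y - u := by linarith
    have ht0 : 0 ≤ t := div_nonneg (by linarith) hd.le
    have ht1 : t ≤ 1 := by rw [ht, div_le_one hd]; linarith
    have htd : t * (y - u) = y - x := by rw [ht]; field_simp
    have hx : t * u + (1 - t) * y = x := by linarith
    have hv : (1 - t) * u + (1 - (1 - t)) * y = v := by linarith
    have h1 := h u y t ht0 ht1
    have h2 := h u y (1 - t) (by linarith) (by linarith)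
    rw [hx] at h1
    rw [hv] at h2
    have e1 : f u ^ t * f u ^ (1 - t) = f u := by
      rw [← Real.rpow_add_of_nonneg (hf0 u) ht0 (by linarith)]
      simp
    have e2 : f y ^ (1 - t) * f y ^ (1 - (1 - t)) = f y := by
      rw [← Real.rpow_add_of_nonneg (hf0 y) (by linarith) (by linarith)]
      simp
    calc f u * f y = (f u ^ t * f u ^ (1 - t)) * (f y ^ (1 - t) * f y ^ (1 - (1 - t))) := by
          rw [e1, e2]
      _ = (f u ^ t * f y ^ (1 - t)) * (f u ^ (1 - t) * f y ^ (1 - (1 - t))) := by ring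
      _ ≤ f x * f v := by
          apply mul_le_mul h1 h2 _ (hf0 x)
          exact mul_nonneg (Real.rpow_nonneg (hf0 u) _) (Real.rpow_nonneg (hf0 y) _)

/-- positivity propagates -/
theorem LC.pos {f : ℝ → ℝ} (h : LC f) {u x y : ℝ} (hux : u ≤ x)
    (hxy : x ≤ y) (hu : 0 < f u) (hy : 0 < f y) : 0 < f x := by
  rcases eq_or_lt_of_le (hux.trans hxy) with huy | huy
  · have h1 : x = u := by linarith
    rw [h1]; exact hu
  · set t : ℝ := (y - x) / (y - u) with ht
    have hd : 0 < y - u := by linarith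
    have ht0 : 0 ≤ t := div_nonneg (by linarith) hd.le
    have ht1 : t ≤ 1 := by rw [ht, div_le_one hd]; linarith
    have htd : t * (y - u) = y - x := by rw [ht]; field_simp
    have hx : t * u + (1 - t) * y = x := by linarith
    have h1 := h u y t ht0 ht1
    rw [hx] at h1
    exact lt_of_lt_of_le (mul_pos (Real.rpow_pos_of_pos hu _) (Real.rpow_pos_of_pos hy _)) h1

theorem setIntegral_Iic_shift (f : ℝ → ℝ) (x c : ℝ) :
    ∫ u in Iic x, f (u + c) = ∫ u in Iic (x + c), f u := by
  have h := (measurePreserving_add_right (volume : Measure ℝ) c).setIntegral_preimage_emb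
    (measurableEmbedding_addRight c) f (Iic (x + c))
  rw [← h]
  congr 2
  ext z
  simp

theorem F_mul_le {f : ℝ → ℝ} (hf0 : ∀ x, 0 ≤ f x) (hint : Integrable f) (h : LC f) {x y : ℝ}
    (hxy : x ≤ y) : (∫ u in Iic x, f u) * f y ≤ f x * ∫ u in Iic y, f u := by
  have e : ∫ u in Iic y, f u = ∫ u in Iic x, f (u + (y - x)) := by
    rw [setIntegral_Iic_shift]; congr 2; ring_nf
  rw [e, ← integral_mul_const, ← integral_const_mul]
  apply setIntegral_mono_on
  · exact (hint.mul_const _).integrableOn
  · exact ((hint.comp_add_right (y - x)).const_mul _).integrableOn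
  · exact measurableSet_Iic
  · intro u hu
    exact h.four hf0 hu hxy (by ring)

theorem LC.neg {f : ℝ → ℝ} (h : LC f) : LC (fun x => f (-x)) := by
  intro x y t h0 h1
  have := h (-x) (-y) t h0 h1
  have e : t * -x + (1 - t) * -y = -(t * x + (1 - t) * y) := by ring
  rw [e] at this
  exact this

theorem setIntegral_neg_Iic (f : ℝ → ℝ) (x : ℝ) :
    ∫ u in Iic x, f (-u) = ∫ u in Ioi (-x), f u := by
  rw [integral_comp_neg_Iic]

theorem G_mul_le {f : ℝ → ℝ} (hf0 : ∀ x, 0 ≤ f x) (hint : Integrable f) (h : LC f) {x y : ℝ}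
    (hxy : x ≤ y) : f x * (∫ u in Ioi y, f u) ≤ f y * ∫ u in Ioi x, f u := by
  have := F_mul_le (f := fun x => f (-x)) (fun x => hf0 _) hint.comp_neg h.neg
    (x := -y) (y := -x) (by linarith)
  simp only [setIntegral_neg_Iic, neg_neg] at this
  linarith

end Pool.Agent.H97.DB
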