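import Mathlib
import Pool.Agent.H97.DB1

set_option autoImplicit false

open MeasureTheory Set Filter Topology

namespace Pool.Agent.H97.DB

/-- a log-concave probability density -/
structure Dens (f : ℝ → ℝ) : Prop where
  nn : ∀ x, 0 ≤ f x
  int : Integrable f
  one : ∫ x, f x = 1
  lc : LC f

/-- distribution function -/
noncomputable def F (f : ℝ → ℝ) (x : ℝ) : ℝ := ∫ u in Iic x, f u

variable {f : ℝ → ℝ}

theorem Dens.F_sub (h : Dens f) (x y : ℝ) : F f y - F f x = ∫ u in x..y, f u :=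
  intervalIntegral.integral_Iic_sub_Iic h.int.integrableOn h.int.integrableOn

theorem Dens.F_nonneg (h : Dens f) (x : ℝ) : 0 ≤ F f x :=
  setIntegral_nonneg measurableSet_Iic (fun u _ => h.nn u)

theorem Dens.F_compl (h : Dens f) (x : ℝ) : 1 - F f x = ∫ u in Ioi x, f u := by
  have := intervalIntegral.integral_Iic_add_Ioi (b := x) (f := f) (μ := volume)
    h.int.integrableOn h.int.integrableOn
  rw [h.one] at this
  unfold F
  linarith

theorem Dens.F_le_one (h : Dens f) (x : ℝ) : F f x ≤ 1 := by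
  have := h.F_compl x
  have h2 : 0 ≤ ∫ u in Ioi x, f u := setIntegral_nonneg measurableSet_Ioi (fun u _ => h.nn u)
  linarith

theorem Dens.F_mono (h : Dens f) : Monotone (F f) := by
  intro x y hxy
  have := h.F_sub x y
  have h2 : 0 ≤ ∫ u in x..y, f u := intervalIntegral.integral_nonneg hxy (fun u _ => h.nn u)
  linarith

theorem Dens.F_cont (h : Dens f) : Continuous (F f) := by
  have e : F f = fun x => F f 0 + ∫ u in (0:ℝ)..x, f u := by
    ext x
    have := h.F_sub 0 x
    linarith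
  rw [e]
  exact continuous_const.add (intervalIntegral.continuous_primitive
    (fun a b => h.int.intervalIntegrable) 0)

theorem Dens.F_bot (_h : Dens f) : Tendsto (F f) atBot (𝓝 0) :=
  tendsto_integral_Iic_zero tendsto_id

theorem Dens.F_top (h : Dens f) : Tendsto (F f) atTop (𝓝 1) := by
  have h1 : Tendsto (fun x => ∫ u in Ioi x, f u) atTop (𝓝 0) := tendsto_integral_Ioi_zero tendsto_id
  have e : F f = fun x => 1 - ∫ u in Ioi x, f u := by
    ext x
    have := h.F_compl x
    linarith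
  rw [e]
  simpa using h1.const_sub 1

theorem Dens.F_ivt (h : Dens f) {u : ℝ} (h0 : 0 < u) (h1 : u < 1) : ∃ x, F f x = u := by
  obtain ⟨a, ha⟩ := (h.F_bot.eventually (gt_mem_nhds h0)).exists
  obtain ⟨b, hb⟩ := (h.F_top.eventually (lt_mem_nhds h1)).exists
  have := mem_range_of_exists_le_of_exists_ge h.F_cont ⟨a, ha.le⟩ ⟨b, hb.le⟩
  exact this

theorem Dens.pos_left (h : Dens f) {x : ℝ} (hx : 0 < F f x) : ∃ u < x, 0 < f u := by
  by_contra hcon
  push Not at hcon
  have : F f x = 0 := by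
    unfold F
    rw [integral_Iic_eq_integral_Iio]
    have : ∀ u ∈ Iio x, f u = 0 := fun u hu => le_antisymm (hcon u hu) (h.nn u)
    rw [setIntegral_congr_fun measurableSet_Iio this]
    simp
  linarith

theorem Dens.pos_right (h : Dens f) {x : ℝ} (hx : F f x < 1) : ∃ u > x, 0 < f u := by
  by_contra hcon
  push Not at hcon
  have : (∫ u in Ioi x, f u) = 0 := by
    have : ∀ u ∈ Ioi x, f u = 0 := fun u hu => le_antisymm (hcon u hu) (h.nn u)
    rw [setIntegral_congr_fun measurableSet_Ioi this]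
    simp
  have := h.F_compl x
  linarith

theorem LC.concaveOn_log {f : ℝ → ℝ} (h : LC f) {u v : ℝ}
    (hpos : ∀ x ∈ Ioo u v, 0 < f x) : ConcaveOn ℝ (Ioo u v) (fun x => Real.log (f x)) := by
  refine ⟨convex_Ioo u v, ?_⟩
  intro x hx y hy a b ha hb hab
  have hb' : b = 1 - a := by linarith
  subst hb'
  have hxp := hpos x hx
  have hyp := hpos y hy
  have h1 := h x y a ha (by linarith)
  have hlog := Real.log_le_log (mul_pos (Real.rpow_pos_of_pos hxp _)
    (Real.rpow_pos_of_pos hyp _)) h1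
  rw [Real.log_mul (Real.rpow_pos_of_pos hxp _).ne' (Real.rpow_pos_of_pos hyp _).ne',
    Real.log_rpow hxp, Real.log_rpow hyp] at hlog
  simpa [smul_eq_mul] using hlog

theorem Dens.pos (h : Dens f) {x : ℝ} (h0 : 0 < F f x) (h1 : F f x < 1) : 0 < f x := by
  obtain ⟨u, hu, hfu⟩ := h.pos_left h0
  obtain ⟨v, hv, hfv⟩ := h.pos_right h1
  exact h.lc.pos hu.le hv.le hfu hfv

theorem Dens.contAt (h : Dens f) {x : ℝ} (h0 : 0 < F f x) (h1 : F f x < 1) :
    ContinuousAt f x := by
  obtain ⟨u, hu, hfu⟩ := h.pos_left h0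
  obtain ⟨v, hv, hfv⟩ := h.pos_right h1
  have hpos : ∀ y ∈ Ioo u v, 0 < f y := fun y hy => h.lc.pos hy.1.le hy.2.le hfu hfv
  have hc := (h.lc.concaveOn_log hpos).continuousOn isOpen_Ioo
  have hx : Ioo u v ∈ 𝓝 x := Ioo_mem_nhds hu hv
  have h2 : ContinuousAt (fun y => Real.exp (Real.log (f y))) x :=
    (hc.continuousAt hx).rexp
  refine h2.congr ?_
  filter_upwards [hx] with y hy
  exact Real.exp_log (hpos y hy)

theorem Dens.F_deriv (h : Dens f) {x : ℝ} (h0 : 0 < F f x) (h1 : F f x < 1) :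
    HasDerivAt (F f) (f x) x := by
  have e : F f = fun x => F f 0 + ∫ u in (0:ℝ)..x, f u := by
    ext x
    have := h.F_sub 0 x
    linarith
  rw [e]
  refine HasDerivAt.const_add _ ?_
  exact intervalIntegral.integral_hasDerivAt_right h.int.intervalIntegrable
    h.int.aestronglyMeasurable.stronglyMeasurableAtFilter (h.contAt h0 h1)

theorem Dens.mul1 (h : Dens f) {x y : ℝ} (hxy : x ≤ y) : F f x * f y ≤ f x * F f y :=
  F_mul_le h.nn h.int h.lc hxy

theorem Dens.mul2 (h : Dens f) {x y : ℝ} (hxy : x ≤ y) :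
    f x * (1 - F f y) ≤ f y * (1 - F f x) := by
  rw [h.F_compl, h.F_compl]
  exact G_mul_le h.nn h.int h.lc hxy

/-- median -/
theorem Dens.exists_median (h : Dens f) : ∃ x, F f x = 1 / 2 :=
  h.F_ivt (by norm_num) (by norm_num)

theorem Dens.exists_bound (h : Dens f) : ∃ M : ℝ, 0 < M ∧ ∀ x, f x ≤ M := by
  obtain ⟨m, hm⟩ := h.exists_median
  have hp : 0 < f m := h.pos (by rw [hm]; norm_num) (by rw [hm]; norm_num)
  refine ⟨2 * f m, by positivity, fun x => ?_⟩
  rcases le_total m x with hx | hx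
  · have := h.mul1 hx
    rw [hm] at this
    have h1 := h.F_le_one x
    nlinarith
  · have := h.mul2 hx
    rw [hm] at this
    have h1 := h.F_nonneg x
    nlinarith

theorem Dens.FG_le (h : Dens f) : ∃ C : ℝ, 0 < C ∧ ∀ x, F f x * (1 - F f x) ≤ C * f x := by
  obtain ⟨m, hm⟩ := h.exists_median
  have hp : 0 < f m := h.pos (by rw [hm]; norm_num) (by rw [hm]; norm_num)
  refine ⟨1 / (2 * f m), by positivity, fun x => ?_⟩
  have h0 := h.F_nonneg x
  have h1 := h.F_le_one x
  have hfx := h.nn x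
  rw [div_mul_eq_mul_div, le_div_iff₀ (by positivity)]
  rcases le_total m x with hx | hx
  · have := h.mul2 hx
    rw [hm] at this
    have h3 : F f x * (f m * (1 - F f x)) ≤ 1 * (f x * (1 - 1 / 2)) :=
      mul_le_mul h1 this (mul_nonneg hp.le (by linarith)) (by norm_num)
    nlinarith
  · have := h.mul1 hx
    rw [hm] at this
    have h3 : (1 - F f x) * (F f x * f m) ≤ 1 * (f x * (1 / 2)) :=
      mul_le_mul (by linarith) this (mul_nonneg h0 hp.le) (by norm_num)
    nlinarith

theorem Dens.FG_integrable (h : Dens f) : Integrable (fun x => F f x * (1 - F f x)) := by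
  obtain ⟨C, hC, hle⟩ := h.FG_le
  refine (h.int.const_mul C).mono' ?_ ?_
  · exact (h.F_cont.mul (continuous_const.sub h.F_cont)).aestronglyMeasurable
  · refine Eventually.of_forall (fun x => ?_)
    rw [Real.norm_eq_abs, abs_of_nonneg (mul_nonneg (h.F_nonneg x) (by linarith [h.F_le_one x]))]
    exact hle x

end Pool.Agent.H97.DB
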