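import Mathlib
import Pool.Agent.H97.DB2

set_option autoImplicit false

open MeasureTheory Set Filter Topology

namespace Pool.Agent.H97.DB

theorem tele (B : ℝ → ℝ) (a b K : ℝ) (hab : a ≤ b)
    (h : ∀ x y, a ≤ x → x ≤ y → y ≤ b → B y - B x ≤ K * (y - x) ^ 2) : B b ≤ B a := by
  have key : ∀ n : ℕ, B b - B a ≤ K * (b - a) ^ 2 / ((n : ℝ) + 1) := by
    intro n
    have hn : (0 : ℝ) < (n : ℝ) + 1 := by positivity
    set δ : ℝ := (b - a) / ((n : ℝ) + 1) with hδ
    have hδ0 : 0 ≤ δ := div_nonneg (by linarith) hn.le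
    have hδn : ((n : ℝ) + 1) * δ = b - a := by rw [hδ]; field_simp
    have step : ∀ i : ℕ, i ≤ n + 1 → B (a + i * δ) - B a ≤ i * (K * δ ^ 2) := by
      intro i
      induction i with
      | zero => intro _; simp
      | succ i ih =>
        intro hi
        have h1 := ih (by omega)
        have hi' : ((i : ℝ) + 1) ≤ (n : ℝ) + 1 := by exact_mod_cast hi
        have h2 := h (a + i * δ) (a + ((i + 1 : ℕ) : ℝ) * δ)
          (by have : 0 ≤ (i : ℝ) * δ := by positivity
              linarith)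
          (by push_cast; nlinarith)
          (by push_cast
              have : ((i : ℝ) + 1) * δ ≤ ((n : ℝ) + 1) * δ :=
                mul_le_mul_of_nonneg_right hi' hδ0
              linarith)
        have e : a + ((i + 1 : ℕ) : ℝ) * δ - (a + i * δ) = δ := by push_cast; ring
        rw [e] at h2
        push_cast at h2 ⊢
        nlinarith
    have h3 := step (n + 1) le_rfl
    have e2 : a + ((n + 1 : ℕ) : ℝ) * δ = b := by push_cast; linarith
    rw [e2] at h3
    have e3 : ((n + 1 : ℕ) : ℝ) * (K * δ ^ 2) = K * (b - a) ^ 2 / ((n : ℝ) + 1) := by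
      rw [hδ]; push_cast; field_simp
    linarith
  have h0 : Tendsto (fun n : ℕ => K * (b - a) ^ 2 / ((n : ℝ) + 1)) atTop (𝓝 0) :=
    (tendsto_const_div_atTop_nhds_zero_nat (K * (b - a) ^ 2)).comp (tendsto_add_atTop_nat 1) |>.congr
      (fun n => by simp)
  have := ge_of_tendsto' h0 key
  linarith

variable {f : ℝ → ℝ}

/-- the quotient F / f -/
noncomputable def m (f : ℝ → ℝ) (x : ℝ) : ℝ := F f x / f x

section
variable {a b : ℝ}

/-- context: compact interval inside the support -/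
structure Ctx (f : ℝ → ℝ) (a b : ℝ) : Prop where
  d : Dens f
  ha : 0 < F f a
  hb : F f b < 1

theorem Ctx.F0 (c : Ctx f a b) {x : ℝ} (hx : x ∈ Icc a b) : 0 < F f x :=
  lt_of_lt_of_le c.ha (c.d.F_mono hx.1)

theorem Ctx.F1 (c : Ctx f a b) {x : ℝ} (hx : x ∈ Icc a b) : F f x < 1 :=
  lt_of_le_of_lt (c.d.F_mono hx.2) c.hb

theorem Ctx.fpos (c : Ctx f a b) {x : ℝ} (hx : x ∈ Icc a b) : 0 < f x :=
  c.d.pos (c.F0 hx) (c.F1 hx)

theorem Ctx.fcont (c : Ctx f a b) : ContinuousOn f (Icc a b) := fun _ hx =>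
  (c.d.contAt (c.F0 hx) (c.F1 hx)).continuousWithinAt

theorem Ctx.mpos (c : Ctx f a b) {x : ℝ} (hx : x ∈ Icc a b) : 0 < m f x :=
  div_pos (c.F0 hx) (c.fpos hx)

theorem Ctx.mcont (c : Ctx f a b) : ContinuousOn (m f) (Icc a b) :=
  c.d.F_cont.continuousOn.div c.fcont (fun _ hx => (c.fpos hx).ne')

theorem Ctx.logmcont (c : Ctx f a b) : ContinuousOn (fun x => Real.log (m f x)) (Icc a b) :=
  c.mcont.log (fun _ hx => (c.mpos hx).ne')

theorem Ctx.mmono (c : Ctx f a b) {x y : ℝ} (hx : x ∈ Icc a b) (hy : y ∈ Icc a b)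
    (hxy : x ≤ y) : m f x ≤ m f y := by
  unfold m
  rw [div_le_div_iff₀ (c.fpos hx) (c.fpos hy)]
  have := c.d.mul1 hxy
  linarith

theorem Ctx.sub (c : Ctx f a b) {x y : ℝ} (hx : x ∈ Icc a b) (hy : y ∈ Icc a b) :
    Ctx f x y := ⟨c.d, c.F0 hx, c.F1 hy⟩

theorem Ctx.II {g : ℝ → ℝ} (hg : ContinuousOn g (Icc a b)) {x y : ℝ}
    (hx : x ∈ Icc a b) (hy : y ∈ Icc a b) : IntervalIntegrable g volume x y := by
  apply ContinuousOn.intervalIntegrable
  exact hg.mono (uIcc_subset_Icc hx hy)

theorem Ctx.int_Ff (c : Ctx f a b) (hab : a ≤ b) :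
    ∫ t in a..b, F f t * f t = (F f b ^ 2 - F f a ^ 2) / 2 := by
  have hd : ∀ x ∈ uIcc a b, HasDerivAt (fun x => F f x ^ 2 / 2) (F f x * f x) x := by
    intro x hx
    rw [uIcc_of_le hab] at hx
    have h1 := ((c.d.F_deriv (c.F0 hx) (c.F1 hx)).pow 2).div_const 2
    refine h1.congr_deriv ?_
    push_cast; ring
  rw [intervalIntegral.integral_eq_sub_of_hasDerivAt hd
    (Ctx.II (c.d.F_cont.continuousOn.mul c.fcont) (left_mem_Icc.2 hab) (right_mem_Icc.2 hab))]
  ring

theorem Ctx.int_f (c : Ctx f a b) : ∫ t in a..b, f t = F f b - F f a := (c.d.F_sub a b).symm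

theorem Ctx.int_Gf (c : Ctx f a b) (hab : a ≤ b) :
    ∫ t in a..b, (1 - F f t) * f t = ((1 - F f a) ^ 2 - (1 - F f b) ^ 2) / 2 := by
  have e : ∀ t, (1 - F f t) * f t = f t - F f t * f t := fun t => by ring
  have hI : IntervalIntegrable (fun t => F f t * f t) volume a b :=
    Ctx.II (c.d.F_cont.continuousOn.mul c.fcont) (left_mem_Icc.2 hab) (right_mem_Icc.2 hab)
  simp_rw [e]
  rw [intervalIntegral.integral_sub c.d.int.intervalIntegrable hI,
    c.int_f, c.int_Ff hab]
  ring

theorem Ctx.int_flogF (c : Ctx f a b) (hab : a ≤ b) :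
    ∫ t in a..b, f t * Real.log (F f t) =
      (F f b * Real.log (F f b) - F f b) - (F f a * Real.log (F f a) - F f a) := by
  have hd : ∀ x ∈ uIcc a b, HasDerivAt (fun x => F f x * Real.log (F f x) - F f x)
      (f x * Real.log (F f x)) x := by
    intro x hx
    rw [uIcc_of_le hab] at hx
    have h0 := c.d.F_deriv (c.F0 hx) (c.F1 hx)
    have h1 := (h0.mul (h0.log (c.F0 hx).ne')).sub h0
    refine h1.congr_deriv ?_
    have := (c.F0 hx).ne'
    field_simp
    ring
  rw [intervalIntegral.integral_eq_sub_of_hasDerivAt hd]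
  apply Ctx.II (a := a) (b := b) _ (left_mem_Icc.2 hab) (right_mem_Icc.2 hab)
  exact c.fcont.mul (c.d.F_cont.continuousOn.log (fun x hx => (c.F0 hx).ne'))

/-- the numerator functional -/
noncomputable def W (f : ℝ → ℝ) (a x : ℝ) : ℝ :=
  (1 - (1 - F f a) ^ 2) * m f a + 2 * (∫ t in a..x, F f t * (1 - F f t)) + (1 - F f x) ^ 2 * m f x

/-- the logarithmic functional -/
noncomputable def L (f : ℝ → ℝ) (a x : ℝ) : ℝ :=
  F f a * Real.log (m f a) + (∫ t in a..x, f t * Real.log (m f t)) + (1 - F f x) * Real.log (m f x)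

theorem Ctx.W_lower (c : Ctx f a b) {x : ℝ} (hx : x ∈ Icc a b) :
    (1 - F f x) * m f x ≤ W f a x := by
  have ha : a ∈ Icc a b := ⟨le_rfl, hx.1.trans hx.2⟩
  have cx : Ctx f a x := c.sub ha hx
  have hfa := c.fpos ha
  have hfx := c.fpos hx
  have hFa := c.F0 ha
  have hFx := c.F0 hx
  have hFa1 := c.F1 ha
  have hFx1 := c.F1 hx
  set κ : ℝ := (1 - F f x) / f x with hκ
  have hκ0 : 0 ≤ κ := div_nonneg (by linarith) hfx.le
  have hκt : ∀ t ∈ Icc a x, κ * f t ≤ 1 - F f t := by
    intro t ht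
    have := c.d.mul2 ht.2
    rw [hκ, div_mul_eq_mul_div, div_le_iff₀ hfx]
    linarith
  have h1 : κ * ((F f x ^ 2 - F f a ^ 2) / 2) ≤ ∫ t in a..x, F f t * (1 - F f t) := by
    rw [← cx.int_Ff hx.1, ← intervalIntegral.integral_const_mul]
    apply intervalIntegral.integral_mono_on hx.1
    · exact (Ctx.II (c.d.F_cont.continuousOn.mul c.fcont) ha hx).const_mul κ
    · exact (c.d.F_cont.mul (continuous_const.sub c.d.F_cont)).intervalIntegrable _ _
    · intro t ht
      have := mul_le_mul_of_nonneg_left (hκt t ht) (c.d.F_nonneg t)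
      linarith
  have h2 : κ * F f a ^ 2 ≤ (1 - (1 - F f a) ^ 2) * m f a := by
    have h3 := hκt a ⟨le_rfl, hx.1⟩
    unfold m
    rw [← mul_div_assoc, le_div_iff₀ hfa]
    have : κ * f a * F f a ^ 2 ≤ (1 - F f a) * F f a ^ 2 :=
      mul_le_mul_of_nonneg_right h3 (by positivity)
    nlinarith
  have h4 : (1 - F f x) * m f x = κ * F f x ^ 2 + (1 - F f x) ^ 2 * m f x := by
    rw [hκ]; unfold m
    field_simp
    ring
  unfold W
  nlinarith

theorem Ctx.W_inc (c : Ctx f a b) {x y : ℝ} (hx : x ∈ Icc a b) (hy : y ∈ Icc a b) (hxy : x ≤ y) :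
    W f a y - W f a x ≤ (1 - F f x) ^ 2 * (m f y - m f x) := by
  have cxy := c.sub hx hy
  have hcont : Continuous (fun t => F f t * (1 - F f t)) :=
    c.d.F_cont.mul (continuous_const.sub c.d.F_cont)
  have e : (∫ t in a..y, F f t * (1 - F f t)) - (∫ t in a..x, F f t * (1 - F f t)) =
      ∫ t in x..y, F f t * (1 - F f t) :=
    intervalIntegral.integral_interval_sub_left (hcont.intervalIntegrable _ _)
      (hcont.intervalIntegrable _ _)
  have h1 : ∫ t in x..y, F f t * (1 - F f t) ≤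
      m f y * (((1 - F f x) ^ 2 - (1 - F f y) ^ 2) / 2) := by
    rw [← cxy.int_Gf hxy, ← intervalIntegral.integral_const_mul]
    apply intervalIntegral.integral_mono_on hxy (hcont.intervalIntegrable _ _)
    · exact (Ctx.II ((continuous_const.sub c.d.F_cont).continuousOn.mul c.fcont) hx hy).const_mul _
    · intro t ht
      have ht' : t ∈ Icc a b := ⟨hx.1.trans ht.1, ht.2.trans hy.2⟩
      have h2 := c.mmono ht' hy ht.2
      have h3 : F f t = m f t * f t := by
        unfold m; have := (c.fpos ht').ne'; field_simp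
      have h4 : F f t ≤ m f y * f t := by
        rw [h3]; exact mul_le_mul_of_nonneg_right h2 (c.fpos ht').le
      have h5 := mul_le_mul_of_nonneg_right h4 (by linarith [c.F1 ht'] : 0 ≤ 1 - F f t)
      linarith
  unfold W
  nlinarith

theorem Ctx.L_inc (c : Ctx f a b) {x y : ℝ} (hx : x ∈ Icc a b) (hy : y ∈ Icc a b) (hxy : x ≤ y) :
    (1 - F f y) * (Real.log (m f y) - Real.log (m f x)) ≤ L f a y - L f a x := by
  have cxy := c.sub hx hy
  have ha : a ∈ Icc a b := ⟨le_rfl, hx.1.trans hx.2⟩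
  have hcont : ContinuousOn (fun t => f t * Real.log (m f t)) (Icc a b) := c.fcont.mul c.logmcont
  have e : (∫ t in a..y, f t * Real.log (m f t)) - (∫ t in a..x, f t * Real.log (m f t)) =
      ∫ t in x..y, f t * Real.log (m f t) :=
    intervalIntegral.integral_interval_sub_left (Ctx.II hcont ha hy) (Ctx.II hcont ha hx)
  have h1 : Real.log (m f x) * (F f y - F f x) ≤ ∫ t in x..y, f t * Real.log (m f t) := by
    rw [← cxy.int_f, ← intervalIntegral.integral_const_mul]
    apply intervalIntegral.integral_mono_on hxy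
    · exact c.d.int.intervalIntegrable.const_mul _
    · exact Ctx.II hcont hx hy
    · intro t ht
      have ht' : t ∈ Icc a b := ⟨hx.1.trans ht.1, ht.2.trans hy.2⟩
      have h2 := Real.log_le_log (c.mpos hx) (c.mmono hx ht' ht.1)
      have h3 := mul_le_mul_of_nonneg_left h2 (c.fpos ht').le
      linarith
  unfold L
  nlinarith

theorem Ctx.W_pos (c : Ctx f a b) {x : ℝ} (hx : x ∈ Icc a b) : 0 < W f a x :=
  lt_of_lt_of_le (mul_pos (by linarith [c.F1 hx]) (c.mpos hx)) (c.W_lower hx)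

theorem Ctx.ratio (c : Ctx f a b) {x y : ℝ} (hx : x ∈ Icc a b) (hy : y ∈ Icc a b) (hxy : x ≤ y) :
    m f y / m f x - 1 ≤ (F f y - F f x) / (F f a * (1 - F f b)) := by
  have hfx := c.fpos hx
  have hfy := c.fpos hy
  have hFx := c.F0 hx
  have hFy1 := c.F1 hy
  have hle : F f a * (1 - F f b) ≤ F f x * (1 - F f y) :=
    mul_le_mul (c.d.F_mono hx.1) (by linarith [c.d.F_mono hy.2]) (by linarith [c.hb]) hFx.le
  have hpos : 0 < F f a * (1 - F f b) := mul_pos c.ha (by linarith [c.hb])
  have hδ : 0 ≤ F f y - F f x := by linarith [c.d.F_mono hxy]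
  have h2 : (F f y - F f x) / (F f x * (1 - F f y)) ≤ (F f y - F f x) / (F f a * (1 - F f b)) :=
    div_le_div_of_nonneg_left hδ hpos hle
  refine le_trans ?_ h2
  have h3 := c.d.mul2 hxy
  unfold m
  rw [le_div_iff₀ (mul_pos hFx (by linarith))]
  have e : (F f y / f y / (F f x / f x) - 1) * (F f x * (1 - F f y)) =
      (F f y * (f x * (1 - F f y)) / f y) - F f x * (1 - F f y) := by
    field_simp
  rw [e]
  have h4 : F f y * (f x * (1 - F f y)) / f y ≤ F f y * (1 - F f x) := by
    rw [div_le_iff₀ hfy]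
    have := mul_le_mul_of_nonneg_left h3 (c.d.F_nonneg y)
    linarith
  nlinarith

theorem Ctx.B_inc (c : Ctx f a b) {x y : ℝ} (hx : x ∈ Icc a b) (hy : y ∈ Icc a b) (hxy : x ≤ y) :
    (Real.log (W f a y) - L f a y) - (Real.log (W f a x) - L f a x) ≤
      ((F f y - F f x) / (F f a * (1 - F f b))) ^ 2 +
        (F f y - F f x) * ((F f y - F f x) / (F f a * (1 - F f b))) := by
  have hWx := c.W_pos hx
  have hWy := c.W_pos hy
  have hmx := c.mpos hx
  have hmy := c.mpos hy
  have hFx1 := c.F1 hx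
  have hFy1 := c.F1 hy
  have hFy0 := c.F0 hy
  have hδ : 0 ≤ F f y - F f x := by linarith [c.d.F_mono hxy]
  set r : ℝ := m f y / m f x with hr
  have hr1 : 1 ≤ r := by rw [hr, le_div_iff₀ hmx]; linarith [c.mmono hx hy hxy]
  -- log W increments
  have h1 : Real.log (W f a y) - Real.log (W f a x) ≤ (1 - F f x) * (r - 1) := by
    rw [← Real.log_div hWy.ne' hWx.ne']
    have h2 := Real.log_le_sub_one_of_pos (div_pos hWy hWx)
    refine h2.trans ?_
    have h3 := c.W_inc hx hy hxy
    have h4 := c.W_lower hx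
    have e : W f a y / W f a x - 1 = (W f a y - W f a x) / W f a x := by field_simp
    rw [e, div_le_iff₀ hWx]
    have h5 : (1 - F f x) * (r - 1) * ((1 - F f x) * m f x) ≤ (1 - F f x) * (r - 1) * W f a x :=
      mul_le_mul_of_nonneg_left h4 (mul_nonneg (by linarith) (by linarith))
    have h6 : (1 - F f x) * (r - 1) * ((1 - F f x) * m f x) = (1 - F f x) ^ 2 * (m f y - m f x) := by
      rw [hr]; field_simp
    linarith
  have h2 := c.L_inc hx hy hxy
  have h3 : Real.log (m f y) - Real.log (m f x) = Real.log r := by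
    rw [hr, Real.log_div hmy.ne' hmx.ne']
  rw [h3] at h2
  have hlogr : r - 1 - Real.log r ≤ (r - 1) ^ 2 := by
    have h5 := Real.one_sub_inv_le_log_of_pos (show (0:ℝ) < r by linarith)
    have h6 : 1 - r⁻¹ = (r - 1) / r := by field_simp
    have h7 : r - 1 - (r - 1) / r = (r - 1) ^ 2 / r := by field_simp
    have h8 : (r - 1) ^ 2 / r ≤ (r - 1) ^ 2 := by
      apply div_le_self (by positivity) hr1
    linarith
  have hrat := c.ratio hx hy hxy
  rw [← hr] at hrat
  have h9 : (1 - F f y) * (r - 1 - Real.log r) ≤ 1 * (r - 1) ^ 2 := by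
    have h10 : 0 ≤ r - 1 - Real.log r := by
      have := Real.log_le_sub_one_of_pos (show (0:ℝ) < r by linarith)
      linarith
    exact mul_le_mul (by linarith) hlogr h10 (by norm_num)
  have h11 : (r - 1) ^ 2 ≤ ((F f y - F f x) / (F f a * (1 - F f b))) ^ 2 :=
    pow_le_pow_left₀ (by linarith) hrat 2
  have h12 : (F f y - F f x) * (r - 1) ≤
      (F f y - F f x) * ((F f y - F f x) / (F f a * (1 - F f b))) :=
    mul_le_mul_of_nonneg_left hrat hδ
  nlinarith

theorem Ctx.main (c : Ctx f a b) (hab : a ≤ b) : Real.log (W f a b) ≤ L f a b := by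
  obtain ⟨M, hM, hfM⟩ := c.d.exists_bound
  have hpos : 0 < F f a * (1 - F f b) := mul_pos c.ha (by linarith [c.hb])
  set q : ℝ := F f a * (1 - F f b) with hq
  have ha : a ∈ Icc a b := ⟨le_rfl, hab⟩
  have key := tele (fun x => Real.log (W f a x) - L f a x) a b ((M / q) ^ 2 + M * (M / q)) hab ?_
  · have e1 : W f a a = m f a := by
      unfold W; simp; ring
    have e2 : L f a a = Real.log (m f a) := by
      unfold L; simp; ring
    simp only [e1, e2] at key
    linarith
  · intro x y hax hxy hyb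
    have hx : x ∈ Icc a b := ⟨hax, hxy.trans hyb⟩
    have hy : y ∈ Icc a b := ⟨hax.trans hxy, hyb⟩
    have h1 := c.B_inc hx hy hxy
    rw [← hq] at h1
    have hδ : 0 ≤ F f y - F f x := by linarith [c.d.F_mono hxy]
    have hδ2 : F f y - F f x ≤ M * (y - x) := by
      rw [c.d.F_sub x y]
      have : ∫ u in x..y, f u ≤ ∫ _ in x..y, M :=
        intervalIntegral.integral_mono_on hxy c.d.int.intervalIntegrable
          (intervalIntegrable_const) (fun t _ => hfM t)
      rw [intervalIntegral.integral_const, smul_eq_mul] at this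
      linarith
    have h3 : (F f y - F f x) / q ≤ M * (y - x) / q := div_le_div_of_nonneg_right hδ2 hpos.le
    have h4 : ((F f y - F f x) / q) ^ 2 ≤ (M * (y - x) / q) ^ 2 :=
      pow_le_pow_left₀ (div_nonneg hδ hpos.le) h3 2
    have h5 : (F f y - F f x) * ((F f y - F f x) / q) ≤ (M * (y - x)) * (M * (y - x) / q) :=
      mul_le_mul hδ2 h3 (div_nonneg hδ hpos.le) (mul_nonneg hM.le (by linarith))
    have e : ((M / q) ^ 2 + M * (M / q)) * (y - x) ^ 2 =
      (M * (y - x) / q) ^ 2 + (M * (y - x)) * (M * (y - x) / q) := by field_simp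
    rw [e]
    linarith

/-- the compact inequality (2) -/
theorem Ctx.main2 (c : Ctx f a b) (hab : a < b) :
    Real.log (2 * ∫ t in a..b, F f t * (1 - F f t)) + F f b - F f a - Real.log (F f b) ≤
      - (F f a * Real.log (f a)) - (1 - F f b) * Real.log (f b)
        + ∫ t in a..b, Real.negMulLog (f t) := by
  have ha : a ∈ Icc a b := ⟨le_rfl, hab.le⟩
  have hb : b ∈ Icc a b := ⟨hab.le, le_rfl⟩
  have hmain := c.main hab.le
  have hcont : Continuous (fun t => F f t * (1 - F f t)) :=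
    c.d.F_cont.mul (continuous_const.sub c.d.F_cont)
  have hPpos : 0 < ∫ t in a..b, F f t * (1 - F f t) := by
    apply intervalIntegral.intervalIntegral_pos_of_pos_on (hcont.intervalIntegrable _ _) _ hab
    intro t ht
    have ht' : t ∈ Icc a b := ⟨ht.1.le, ht.2.le⟩
    exact mul_pos (c.F0 ht') (by linarith [c.F1 ht'])
  have h1 : 2 * (∫ t in a..b, F f t * (1 - F f t)) ≤ W f a b := by
    unfold W
    have h2 : 0 ≤ (1 - (1 - F f a) ^ 2) * m f a := by
      apply mul_nonneg _ (c.mpos ha).le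
      nlinarith [c.F0 ha, c.F1 ha]
    have h3 : 0 ≤ (1 - F f b) ^ 2 * m f b := mul_nonneg (by positivity) (c.mpos hb).le
    linarith
  have h2 := Real.log_le_log (by linarith) h1
  have e1 : ∫ t in a..b, f t * Real.log (m f t) =
      (∫ t in a..b, f t * Real.log (F f t)) + ∫ t in a..b, Real.negMulLog (f t) := by
    rw [← intervalIntegral.integral_add]
    · apply intervalIntegral.integral_congr
      intro t ht
      rw [uIcc_of_le hab.le] at ht
      simp only [m, Real.negMulLog]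
      rw [Real.log_div (c.F0 ht).ne' (c.fpos ht).ne']
      ring
    · exact Ctx.II (c.fcont.mul (c.d.F_cont.continuousOn.log (fun x hx => (c.F0 hx).ne'))) ha hb
    · exact Ctx.II (Real.continuous_negMulLog.comp_continuousOn c.fcont) ha hb
  have e2 := c.int_flogF hab.le
  have e3 : Real.log (m f a) = Real.log (F f a) - Real.log (f a) :=
    Real.log_div (c.F0 ha).ne' (c.fpos ha).ne'
  have e4 : Real.log (m f b) = Real.log (F f b) - Real.log (f b) :=
    Real.log_div (c.F0 hb).ne' (c.fpos hb).ne'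
  unfold L at hmain
  rw [e1, e2, e3, e4] at hmain
  nlinarith

end

end Pool.Agent.H97.DB
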