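import Mathlib
import Pool.Agent.H97.DB3

set_option autoImplicit false

open MeasureTheory Set Filter Topology
open scoped ENNReal

namespace Pool.Agent.H97.DB

/-! ### Laplace density -/

theorem integral_exp_abs {s : ℝ} (hs : 0 < s) : ∫ x : ℝ, Real.exp (-(|x| / s)) = 2 * s := by
  have h := integral_comp_abs (f := fun x => Real.exp (-(x / s)))
  rw [h]
  have h2 := integral_exp_mul_Ioi (a := -(1 / s)) (by simpa using hs) 0
  have e : ∀ x : ℝ, Real.exp (-(x / s)) = Real.exp (-(1 / s) * x) := by
    intro x; congr 1; ring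
  simp_rw [e, h2]
  simp

theorem integrable_exp_abs {s : ℝ} (hs : 0 < s) :
    Integrable (fun x : ℝ => Real.exp (-(|x| / s))) := by
  by_contra hcon
  have := integral_undef hcon
  rw [integral_exp_abs hs] at this
  linarith

/-! ### elementary bounds for negMulLog -/

theorem negMulLog_le {p : ℝ} (hp : 0 ≤ p) (c : ℝ) :
    Real.negMulLog p ≤ c * p + Real.exp (-1 - c) := by
  rcases hp.eq_or_lt with rfl | hp
  · simp; positivity
  · have h := Real.log_le_sub_one_of_pos (div_pos (Real.exp_pos (-1 - c)) hp)
    rw [Real.log_div (Real.exp_pos _).ne' hp.ne', Real.log_exp] at h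
    have h2 := mul_le_mul_of_nonneg_left h hp.le
    have e : p * (Real.exp (-1 - c) / p - 1) = Real.exp (-1 - c) - p := by field_simp
    rw [e] at h2
    unfold Real.negMulLog
    nlinarith

theorem le_negMulLog {p M : ℝ} (hp : 0 ≤ p) (hM : p ≤ M) :
    -(|Real.log M| * p) ≤ Real.negMulLog p := by
  rcases hp.eq_or_lt with rfl | hp
  · simp
  · have h := Real.log_le_log hp hM
    have h2 : Real.log p ≤ |Real.log M| := h.trans (le_abs_self _)
    unfold Real.negMulLog
    nlinarith

theorem integrable_negMulLog {p : ℝ → ℝ} {M y0 : ℝ} (hp : ∀ x, 0 ≤ p x) (hM : ∀ x, p x ≤ M)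
    (hint : Integrable p) (hmom : Integrable (fun x => |x - y0| * p x)) :
    Integrable (fun x => Real.negMulLog (p x)) := by
  have hE : Integrable (fun x : ℝ => Real.exp (-1 - |x - y0|)) := by
    have h1 := (integrable_exp_abs one_pos).comp_sub_right y0
    have h2 := h1.const_mul (Real.exp (-1))
    refine h2.congr (Eventually.of_forall fun x => ?_)
    simp only [div_one]
    rw [← Real.exp_add]; congr 1
  refine ((hmom.add hE).add (hint.const_mul |Real.log M|)).mono' ?_ ?_
  · exact Real.continuous_negMulLog.comp_aestronglyMeasurable hint.aestronglyMeasurable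
  · refine Eventually.of_forall fun x => ?_
    have h1 := negMulLog_le (hp x) |x - y0|
    have h2 := le_negMulLog (hp x) (hM x)
    have h3 : 0 ≤ |x - y0| * p x := mul_nonneg (abs_nonneg _) (hp x)
    have h4 : 0 ≤ |Real.log M| * p x := mul_nonneg (abs_nonneg _) (hp x)
    have h5 := Real.exp_pos (-1 - |x - y0|)
    simp only [Pi.add_apply]
    rw [Real.norm_eq_abs, abs_le]
    constructor <;> linarith

/-- maximum entropy (Gibbs) inequality for densities with `∫ |z| p ≤ s` -/
theorem gibbs {p : ℝ → ℝ} {M s : ℝ} (hp : ∀ x, 0 ≤ p x) (hM : ∀ x, p x ≤ M)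
    (hint : Integrable p) (hone : ∫ x, p x = 1) (hmom : Integrable (fun x => |x| * p x))
    (hs : 0 < s) (hle : ∫ x, |x| * p x ≤ s) :
    ∫ x, Real.negMulLog (p x) ≤ 1 + Real.log (2 * s) := by
  have hN : Integrable (fun x => Real.negMulLog (p x)) :=
    integrable_negMulLog (y0 := 0) hp hM hint (by simpa using hmom)
  have hpt : ∀ x, Real.negMulLog (p x) ≤
      (Real.log (2 * s) - 1) * p x + (1 / s) * (|x| * p x) +
        (1 / (2 * s)) * Real.exp (-(|x| / s)) := by
    intro x
    have h := negMulLog_le (hp x) (Real.log (2 * s) + |x| / s - 1)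
    have e : Real.exp (-1 - (Real.log (2 * s) + |x| / s - 1)) =
        (1 / (2 * s)) * Real.exp (-(|x| / s)) := by
      have : -1 - (Real.log (2 * s) + |x| / s - 1) = -Real.log (2 * s) + -(|x| / s) := by ring
      rw [this, Real.exp_add, Real.exp_neg, Real.exp_log (by positivity)]
      simp
    rw [e] at h
    have e2 : (Real.log (2 * s) + |x| / s - 1) * p x =
        (Real.log (2 * s) - 1) * p x + (1 / s) * (|x| * p x) := by ring
    rw [e2] at h
    exact h
  have hI1 := hint.const_mul (Real.log (2 * s) - 1)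
  have hI2 := hmom.const_mul (1 / s)
  have hI3 := (integrable_exp_abs hs).const_mul (1 / (2 * s))
  have hI12 : Integrable (fun x => (Real.log (2 * s) - 1) * p x + (1 / s) * (|x| * p x)) :=
    hI1.add hI2
  have hI123 : Integrable (fun x => (Real.log (2 * s) - 1) * p x + (1 / s) * (|x| * p x) +
        (1 / (2 * s)) * Real.exp (-(|x| / s))) := hI12.add hI3
  have h1 := integral_mono hN hI123 (fun x => hpt x)
  have h2 : ∫ x, ((Real.log (2 * s) - 1) * p x + (1 / s) * (|x| * p x) +
        (1 / (2 * s)) * Real.exp (-(|x| / s))) =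
      (Real.log (2 * s) - 1) * 1 + (1 / s) * (∫ x, |x| * p x) + (1 / (2 * s)) * (2 * s) := by
    rw [integral_add hI12 hI3, integral_add hI1 hI2, integral_const_mul,
      integral_const_mul, integral_const_mul, integral_exp_abs hs, hone]
  have h3 : (1 / s) * (∫ x, |x| * p x) ≤ 1 := by
    rw [div_mul_eq_mul_div, div_le_one hs]; linarith
  have h4 : (1 / (2 * s)) * (2 * s) = 1 := by field_simp
  calc ∫ x, Real.negMulLog (p x) ≤ _ := h1
    _ = _ := h2
    _ ≤ 1 + Real.log (2 * s) := by rw [h4]; linarith

variable {f : ℝ → ℝ}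

/-! ### measurability -/

theorem LC.ordConnected (h : LC f) (c : ℝ) (hc : 0 < c) : OrdConnected {x | c ≤ f x} := by
  constructor
  intro u hu y hy x hx
  change c ≤ f u at hu
  change c ≤ f y at hy
  change c ≤ f x
  rcases eq_or_lt_of_le (hx.1.trans hx.2) with huy | huy
  · have h1 : x = u := by linarith [hx.1, hx.2]
    rw [h1]; exact hu
  · set t : ℝ := (y - x) / (y - u) with ht
    have hd : 0 < y - u := by linarith
    have ht0 : 0 ≤ t := div_nonneg (by linarith [hx.2]) hd.le
    have ht1 : t ≤ 1 := by rw [ht, div_le_one hd]; linarith [hx.1]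
    have htd : t * (y - u) = y - x := by rw [ht]; field_simp
    have hx' : t * u + (1 - t) * y = x := by linarith
    have h1 := h u y t ht0 ht1
    rw [hx'] at h1
    refine le_trans ?_ h1
    calc c = c ^ t * c ^ (1 - t) := by
          rw [← Real.rpow_add hc]; simp
      _ ≤ f u ^ t * f y ^ (1 - t) := by
          apply mul_le_mul (Real.rpow_le_rpow hc.le hu ht0)
            (Real.rpow_le_rpow hc.le hy (by linarith)) (by positivity)
          exact Real.rpow_nonneg (hc.le.trans hu) _

theorem Dens.meas (h : Dens f) : Measurable f := by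
  apply measurable_of_Ici
  intro c
  rcases le_or_gt c 0 with hc | hc
  · have : f ⁻¹' Ici c = univ := by
      ext x; simp; exact hc.trans (h.nn x)
    rw [this]; exact MeasurableSet.univ
  · exact (h.lc.ordConnected c hc).measurableSet

/-! ### extended-valued versions -/

/-- extended valued density -/
noncomputable def fE (f : ℝ → ℝ) (x : ℝ) : ℝ≥0∞ := ENNReal.ofReal (f x)

theorem Dens.measE (h : Dens f) : Measurable (fE f) := h.meas.ennreal_ofReal

theorem Dens.lint_Iio (h : Dens f) (t : ℝ) :
    ∫⁻ x, (Iio t).indicator (fE f) x = ENNReal.ofReal (F f t) := by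
  rw [lintegral_indicator measurableSet_Iio]
  unfold fE F
  rw [← ofReal_integral_eq_lintegral_ofReal h.int.integrableOn
    (Eventually.of_forall fun x => h.nn x), integral_Iic_eq_integral_Iio]

theorem Dens.lint_Ici (h : Dens f) (t : ℝ) :
    ∫⁻ x, (Ici t).indicator (fE f) x = ENNReal.ofReal (1 - F f t) := by
  rw [lintegral_indicator measurableSet_Ici, h.F_compl]
  unfold fE
  rw [← ofReal_integral_eq_lintegral_ofReal h.int.integrableOn
    (Eventually.of_forall fun x => h.nn x), integral_Ici_eq_integral_Ioi]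

theorem Dens.lint_one (h : Dens f) : ∫⁻ x, fE f x = 1 := by
  unfold fE
  rw [← ofReal_integral_eq_lintegral_ofReal h.int (Eventually.of_forall fun x => h.nn x), h.one]
  simp

/-- the total of `(y - x)^+` -/
theorem Dens.A_eq (h : Dens f) :
    ∫⁻ y, ∫⁻ x, ENNReal.ofReal (y - x) * fE f x * fE f y =
      ENNReal.ofReal (∫ t, F f t * (1 - F f t)) := by
  have hm := h.measE
  have e1 : ∀ y x : ℝ, ENNReal.ofReal (y - x) * fE f x * fE f y =
      ∫⁻ t, (Iio t).indicator (fE f) x * (Ici t).indicator (fE f) y := by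
    intro y x
    have e2 : ∀ t, (Iio t).indicator (fE f) x * (Ici t).indicator (fE f) y =
        (Ioc x y).indicator (fun _ => fE f x * fE f y) t := by
      intro t
      by_cases h1 : x < t <;> by_cases h2 : t ≤ y <;> simp [indicator, h1, h2]
    simp_rw [e2]
    rw [lintegral_indicator measurableSet_Ioc, setLIntegral_const, Real.volume_Ioc]
    ring
  simp_rw [e1]
  -- joint measurability
  have mI : Measurable (fun p : ℝ × ℝ => (Iio p.2).indicator (fE f) p.1) := by
    have : (fun p : ℝ × ℝ => (Iio p.2).indicator (fE f) p.1) =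
        {p : ℝ × ℝ | p.1 < p.2}.indicator (fun p => fE f p.1) := by
      ext p; simp [indicator]
    rw [this]
    exact (hm.comp measurable_fst).indicator (measurableSet_lt measurable_fst measurable_snd)
  have mJ : Measurable (fun p : ℝ × ℝ => (Ici p.2).indicator (fE f) p.1) := by
    have : (fun p : ℝ × ℝ => (Ici p.2).indicator (fE f) p.1) =
        {p : ℝ × ℝ | p.2 ≤ p.1}.indicator (fun p => fE f p.1) := by
      ext p; simp [indicator]
    rw [this]
    exact (hm.comp measurable_fst).indicator (measurableSet_le measurable_snd measurable_fst)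
  have s1 : ∀ y : ℝ, ∫⁻ x, ∫⁻ t, (Iio t).indicator (fE f) x * (Ici t).indicator (fE f) y =
      ∫⁻ t, ∫⁻ x, (Iio t).indicator (fE f) x * (Ici t).indicator (fE f) y := by
    intro y
    apply lintegral_lintegral_swap
    apply Measurable.aemeasurable
    have : Measurable (fun p : ℝ × ℝ => (Ici p.2).indicator (fE f) y) :=
      mJ.comp (measurable_const.prodMk measurable_snd)
    exact mI.mul this
  simp_rw [s1]
  have s2 : ∀ y t : ℝ, ∫⁻ x, (Iio t).indicator (fE f) x * (Ici t).indicator (fE f) y =
      ENNReal.ofReal (F f t) * (Ici t).indicator (fE f) y := by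
    intro y t
    rw [lintegral_mul_const _ (hm.indicator measurableSet_Iio), h.lint_Iio]
  simp_rw [s2]
  rw [lintegral_lintegral_swap]
  · have s3 : ∀ t : ℝ, ∫⁻ y, ENNReal.ofReal (F f t) * (Ici t).indicator (fE f) y =
        ENNReal.ofReal (F f t * (1 - F f t)) := by
      intro t
      rw [lintegral_const_mul _ (hm.indicator measurableSet_Ici), h.lint_Ici,
        ← ENNReal.ofReal_mul (h.F_nonneg t)]
    simp_rw [s3]
    rw [ofReal_integral_eq_lintegral_ofReal h.FG_integrable]
    exact Eventually.of_forall fun t => mul_nonneg (h.F_nonneg t) (by linarith [h.F_le_one t])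
  · apply Measurable.aemeasurable
    have : Measurable (fun p : ℝ × ℝ => ENNReal.ofReal (F f p.2)) :=
      (h.F_cont.measurable.comp measurable_snd).ennreal_ofReal
    exact this.mul mJ

theorem ofReal_abs_sub (x y : ℝ) :
    ENNReal.ofReal |x - y| = ENNReal.ofReal (y - x) + ENNReal.ofReal (x - y) := by
  rcases le_total x y with hxy | hxy
  · rw [abs_of_nonpos (by linarith), ENNReal.ofReal_of_nonpos (show x - y ≤ 0 by linarith)]
    simp
  · rw [abs_of_nonneg (by linarith), ENNReal.ofReal_of_nonpos (show y - x ≤ 0 by linarith)]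
    simp

theorem Dens.abs_eq (h : Dens f) :
    ∫⁻ y, ∫⁻ x, ENNReal.ofReal |x - y| * fE f x * fE f y =
      ENNReal.ofReal (2 * ∫ t, F f t * (1 - F f t)) := by
  have hm := h.measE
  have hA := h.A_eq
  have m1 : Measurable (fun p : ℝ × ℝ => ENNReal.ofReal (p.1 - p.2) * fE f p.2 * fE f p.1) :=
    ((measurable_fst.sub measurable_snd).ennreal_ofReal.mul (hm.comp measurable_snd)).mul
      (hm.comp measurable_fst)
  have m2 : Measurable (fun p : ℝ × ℝ => ENNReal.ofReal (p.2 - p.1) * fE f p.2 * fE f p.1) :=
    ((measurable_snd.sub measurable_fst).ennreal_ofReal.mul (hm.comp measurable_snd)).mul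
      (hm.comp measurable_fst)
  have hA' : ∫⁻ y, ∫⁻ x, ENNReal.ofReal (x - y) * fE f x * fE f y =
      ENNReal.ofReal (∫ t, F f t * (1 - F f t)) := by
    rw [← hA, lintegral_lintegral_swap m2.aemeasurable]
    congr 1; ext y; congr 1; ext x; ring
  have e : ∀ y x : ℝ, ENNReal.ofReal |x - y| * fE f x * fE f y =
      ENNReal.ofReal (y - x) * fE f x * fE f y + ENNReal.ofReal (x - y) * fE f x * fE f y := by
    intro y x; rw [ofReal_abs_sub]; ring
  have e3 : ∀ y : ℝ, ∫⁻ x, ENNReal.ofReal |x - y| * fE f x * fE f y =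
      (∫⁻ x, ENNReal.ofReal (y - x) * fE f x * fE f y) +
        ∫⁻ x, ENNReal.ofReal (x - y) * fE f x * fE f y := by
    intro y
    simp_rw [e]
    rw [lintegral_add_left]
    exact m1.comp (measurable_const.prodMk measurable_id)
  simp_rw [e3]
  rw [lintegral_add_left, hA, hA', ← ENNReal.ofReal_add, two_mul]
  · exact integral_nonneg fun t => mul_nonneg (h.F_nonneg t) (by linarith [h.F_le_one t])
  · exact integral_nonneg fun t => mul_nonneg (h.F_nonneg t) (by linarith [h.F_le_one t])
  · exact m1.lintegral_prod_right'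

/-- finite first moment about some point -/
theorem Dens.moment (h : Dens f) : ∃ y0 : ℝ, Integrable (fun x => |x - y0| * f x) := by
  have hm := h.measE
  have hA := h.abs_eq
  have hne : ∫⁻ y, ∫⁻ x, ENNReal.ofReal |x - y| * fE f x * fE f y ≠ ∞ := by
    rw [hA]; exact ENNReal.ofReal_ne_top
  have m2 : Measurable (fun p : ℝ × ℝ => ENNReal.ofReal |p.2 - p.1| * fE f p.2 * fE f p.1) :=
    ((measurable_snd.sub measurable_fst).abs.ennreal_ofReal.mul (hm.comp measurable_snd)).mul
      (hm.comp measurable_fst)
  have hae := ae_lt_top (m2.lintegral_prod_right') hne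
  -- there is a point with positive density
  have hex : ∃ y0, 0 < f y0 ∧ ∫⁻ x, ENNReal.ofReal |x - y0| * fE f x * fE f y0 < ∞ := by
    by_contra hcon
    push Not at hcon
    have hz : f =ᵐ[volume] 0 := by
      filter_upwards [hae] with y hy
      by_contra hne
      have hpos : 0 < f y := lt_of_le_of_ne (h.nn y) (Ne.symm hne)
      exact absurd hy (not_lt.2 (hcon y hpos))
    have h1 := integral_congr_ae hz
    rw [h.one] at h1
    simp at h1
  obtain ⟨y0, hpos, hlt⟩ := hex
  refine ⟨y0, ?_⟩
  have mx : Measurable (fun x => ENNReal.ofReal |x - y0| * fE f x) :=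
    ((measurable_id.sub measurable_const).abs.ennreal_ofReal).mul hm
  rw [lintegral_mul_const _ mx] at hlt
  have hfin : ∫⁻ x, ENNReal.ofReal |x - y0| * fE f x < ∞ := by
    by_contra hcon
    have : ∫⁻ x, ENNReal.ofReal |x - y0| * fE f x = ∞ := by
      simpa using hcon
    rw [this, ENNReal.top_mul] at hlt
    · exact absurd hlt (lt_irrefl _)
    · unfold fE; simpa using hpos
  refine ⟨((measurable_id.sub measurable_const).abs.mul h.meas).aestronglyMeasurable, ?_⟩
  rw [hasFiniteIntegral_iff_ofReal (Eventually.of_forall fun x =>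
    mul_nonneg (abs_nonneg _) (h.nn x))]
  refine lt_of_le_of_lt (le_of_eq ?_) hfin
  congr 1; ext x
  rw [ENNReal.ofReal_mul (abs_nonneg _)]; rfl

theorem Dens.negMulLog_integrable (h : Dens f) : Integrable (fun x => Real.negMulLog (f x)) := by
  obtain ⟨y0, hy⟩ := h.moment
  obtain ⟨M, _, hM⟩ := h.exists_bound
  exact integrable_negMulLog h.nn hM h.int hy

/-! ### the difference density -/

/-- density of the difference -/
noncomputable def g (f : ℝ → ℝ) (z : ℝ) : ℝ := ∫ y, f (z + y) * f y

theorem g_nonneg (h : Dens f) (z : ℝ) : 0 ≤ g f z :=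
  integral_nonneg fun y => mul_nonneg (h.nn _) (h.nn _)

theorem g_int (h : Dens f) (z : ℝ) : Integrable (fun y => f (z + y) * f y) := by
  obtain ⟨M, hM0, hM⟩ := h.exists_bound
  refine (h.int.const_mul M).mono' ?_ ?_
  · exact ((h.meas.comp (measurable_const_add z)).mul h.meas).aestronglyMeasurable
  · refine Eventually.of_forall fun y => ?_
    rw [Real.norm_eq_abs, abs_of_nonneg (mul_nonneg (h.nn _) (h.nn _))]
    exact mul_le_mul_of_nonneg_right (hM _) (h.nn _)

theorem g_le (h : Dens f) : ∃ M : ℝ, ∀ z, g f z ≤ M := by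
  obtain ⟨M, hM0, hM⟩ := h.exists_bound
  refine ⟨M, fun z => ?_⟩
  have : g f z ≤ ∫ y, M * f y :=
    integral_mono (g_int h z) (h.int.const_mul M)
      (fun y => mul_le_mul_of_nonneg_right (hM _) (h.nn _))
  rwa [integral_const_mul, h.one, mul_one] at this

theorem g_ofReal (h : Dens f) (z : ℝ) :
    ENNReal.ofReal (g f z) = ∫⁻ y, fE f (z + y) * fE f y := by
  unfold g
  rw [ofReal_integral_eq_lintegral_ofReal (g_int h z)
    (Eventually.of_forall fun y => mul_nonneg (h.nn _) (h.nn _))]
  congr 1; ext y
  rw [ENNReal.ofReal_mul (h.nn _)]; rfl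

theorem g_meas (h : Dens f) : Measurable (g f) := by
  have hm := h.measE
  have m : Measurable (fun p : ℝ × ℝ => fE f (p.1 + p.2) * fE f p.2) :=
    (hm.comp (measurable_fst.add measurable_snd)).mul (hm.comp measurable_snd)
  have e : g f = fun z => (∫⁻ y, fE f (z + y) * fE f y).toReal := by
    ext z
    rw [← g_ofReal h, ENNReal.toReal_ofReal (g_nonneg h z)]
  rw [e]
  exact (m.lintegral_prod_right').ennreal_toReal

/-- transport formula -/
theorem g_transport (h : Dens f) (φ : ℝ → ℝ≥0∞) (hφ : Measurable φ) :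
    ∫⁻ z, φ z * ENNReal.ofReal (g f z) = ∫⁻ y, ∫⁻ x, φ (x - y) * fE f x * fE f y := by
  have hm := h.measE
  simp_rw [g_ofReal h]
  have e1 : ∀ z, φ z * ∫⁻ y, fE f (z + y) * fE f y = ∫⁻ y, φ z * fE f (z + y) * fE f y := by
    intro z
    rw [← lintegral_const_mul]
    · congr 1; ext y; ring
    · exact (hm.comp (measurable_const_add z)).mul hm
  simp_rw [e1]
  rw [lintegral_lintegral_swap]
  · congr 1; ext y
    have := lintegral_add_right_eq_self (μ := (volume : Measure ℝ))
      (fun x => φ (x - y) * fE f x * fE f y) y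
    rw [← this]
    congr 1; ext z; simp
  · apply Measurable.aemeasurable
    exact ((hφ.comp measurable_fst).mul (hm.comp (measurable_fst.add measurable_snd))).mul
      (hm.comp measurable_snd)

theorem g_lint (h : Dens f) : ∫⁻ z, ENNReal.ofReal (g f z) = 1 := by
  have := g_transport h (fun _ => 1) measurable_const
  simp only [one_mul] at this
  rw [this]
  have e : ∀ y, ∫⁻ x, fE f x * fE f y = fE f y := by
    intro y; rw [lintegral_mul_const _ h.measE, h.lint_one, one_mul]
  simp_rw [e]
  exact h.lint_one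

theorem g_integrable (h : Dens f) : Integrable (g f) := by
  refine ⟨(g_meas h).aestronglyMeasurable, ?_⟩
  rw [hasFiniteIntegral_iff_ofReal (Eventually.of_forall fun z => g_nonneg h z), g_lint h]
  exact ENNReal.one_lt_top

theorem g_one (h : Dens f) : ∫ z, g f z = 1 := by
  rw [integral_eq_lintegral_of_nonneg_ae (Eventually.of_forall fun z => g_nonneg h z)
    (g_meas h).aestronglyMeasurable, g_lint h]
  simp

theorem g_abs_lint (h : Dens f) :
    ∫⁻ z, ENNReal.ofReal (|z| * g f z) = ENNReal.ofReal (2 * ∫ t, F f t * (1 - F f t)) := by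
  have := g_transport h (fun z => ENNReal.ofReal |z|) (measurable_id.abs.ennreal_ofReal)
  rw [h.abs_eq] at this
  rw [← this]
  congr 1; ext z
  rw [ENNReal.ofReal_mul (abs_nonneg _)]

theorem g_abs_integrable (h : Dens f) : Integrable (fun z => |z| * g f z) := by
  refine ⟨(measurable_id.abs.mul (g_meas h)).aestronglyMeasurable, ?_⟩
  rw [hasFiniteIntegral_iff_ofReal (Eventually.of_forall fun z =>
    mul_nonneg (abs_nonneg z) (g_nonneg h z)), g_abs_lint h]
  exact ENNReal.ofReal_lt_top

theorem g_abs (h : Dens f) : ∫ z, |z| * g f z = 2 * ∫ t, F f t * (1 - F f t) := by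
  rw [integral_eq_lintegral_of_nonneg_ae (Eventually.of_forall fun z =>
    mul_nonneg (abs_nonneg z) (g_nonneg h z))
    (measurable_id.abs.mul (g_meas h)).aestronglyMeasurable, g_abs_lint h,
    ENNReal.toReal_ofReal]
  apply mul_nonneg (by norm_num)
  exact integral_nonneg fun t => mul_nonneg (h.F_nonneg t) (by linarith [h.F_le_one t])

end Pool.Agent.H97.DB
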