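import Mathlib
import Pool.Agent.H97.DB4

set_option autoImplicit false

open MeasureTheory Set Filter Topology
open scoped ENNReal

namespace Pool.Agent.H97.DB

variable {f : ℝ → ℝ}

theorem Dens.F_lt_of_pos (h : Dens f) {x y : ℝ} (hxy : x < y) (hx : 0 < f x) (hy : 0 < f y) :
    F f x < F f y := by
  have h1 := h.F_sub x y
  have h2 : 0 < ∫ u in x..y, f u := by
    apply intervalIntegral.intervalIntegral_pos_of_pos_on h.int.intervalIntegrable _ hxy
    intro t ht
    exact h.lc.pos ht.1.le ht.2.le hx hy
  linarith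

theorem Dens.ae_zero (h : Dens f) : ∀ᵐ x, ¬ (0 < F f x ∧ F f x < 1) → f x = 0 := by
  have s0 : {x : ℝ | F f x ≤ 0 ∧ 0 < f x}.Subsingleton := by
    intro x hx y hy
    by_contra hne
    rcases lt_or_gt_of_ne hne with hlt | hlt
    · have := h.F_lt_of_pos hlt hx.2 hy.2
      linarith [h.F_nonneg x, hy.1]
    · have := h.F_lt_of_pos hlt hy.2 hx.2
      linarith [h.F_nonneg y, hx.1]
  have s1 : {x : ℝ | 1 ≤ F f x ∧ 0 < f x}.Subsingleton := by
    intro x hx y hy
    by_contra hne
    rcases lt_or_gt_of_ne hne with hlt | hlt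
    · have := h.F_lt_of_pos hlt hx.2 hy.2
      linarith [h.F_le_one y, hx.1]
    · have := h.F_lt_of_pos hlt hy.2 hx.2
      linarith [h.F_le_one x, hy.1]
  have a0 := s0.countable.ae_notMem (volume : Measure ℝ)
  have a1 := s1.countable.ae_notMem (volume : Measure ℝ)
  filter_upwards [a0, a1] with x h0 h1 hx
  by_contra hne
  have hpos : 0 < f x := lt_of_le_of_ne (h.nn x) (Ne.symm hne)
  apply hx
  constructor
  · by_contra hc
    exact h0 ⟨not_lt.1 hc, hpos⟩
  · by_contra hc
    exact h1 ⟨not_lt.1 hc, hpos⟩

theorem Dens.limit (h : Dens f) {φ : ℝ → ℝ} (hφ : Integrable φ)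
    (hz : ∀ᵐ x, ¬ (0 < F f x ∧ F f x < 1) → φ x = 0) {a b u : ℕ → ℝ}
    (hu : Tendsto u atTop (𝓝 0)) (ha : ∀ n, F f (a n) = u n) (hb : ∀ n, F f (b n) = 1 - u n)
    (hab : ∀ n, a n ≤ b n) :
    Tendsto (fun n => ∫ x in (a n)..(b n), φ x) atTop (𝓝 (∫ x, φ x)) := by
  have e : ∀ n, ∫ x in (a n)..(b n), φ x = ∫ x, (Ioc (a n) (b n)).indicator φ x := by
    intro n
    rw [intervalIntegral.integral_of_le (hab n), integral_indicator measurableSet_Ioc]
  simp_rw [e]
  apply tendsto_integral_of_dominated_convergence (fun x => |φ x|)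
  · intro n
    exact (hφ.indicator measurableSet_Ioc).aestronglyMeasurable
  · exact hφ.abs
  · intro n
    refine Eventually.of_forall fun x => ?_
    rw [Real.norm_eq_abs]
    by_cases hx : x ∈ Ioc (a n) (b n)
    · rw [indicator_of_mem hx]
    · rw [indicator_of_notMem hx]; simp
  · filter_upwards [hz] with x hx
    by_cases hF : 0 < F f x ∧ F f x < 1
    · apply tendsto_const_nhds.congr'
      have h1 : ∀ᶠ n in atTop, u n < F f x := hu.eventually (gt_mem_nhds hF.1)
      have h2 : ∀ᶠ n in atTop, u n < 1 - F f x :=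
        hu.eventually (gt_mem_nhds (by linarith [hF.2]))
      filter_upwards [h1, h2] with n hn1 hn2
      rw [indicator_of_mem]
      constructor
      · by_contra hc
        have := h.F_mono (not_lt.1 hc)
        rw [ha n] at this
        linarith
      · by_contra hc
        have := h.F_mono (not_le.1 hc).le
        rw [hb n] at this
        linarith
    · rw [hx hF]
      apply tendsto_const_nhds.congr
      intro n
      by_cases hx' : x ∈ Ioc (a n) (b n)
      · rw [indicator_of_mem hx', hx hF]
      · rw [indicator_of_notMem hx']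

theorem Dens.FG_pos (h : Dens f) : 0 < ∫ t, F f t * (1 - F f t) := by
  obtain ⟨x, hx⟩ := h.exists_median
  obtain ⟨y, hy⟩ := h.F_ivt (u := 3 / 4) (by norm_num) (by norm_num)
  have hxy : x < y := by
    by_contra hc
    have := h.F_mono (not_lt.1 hc)
    rw [hx, hy] at this
    norm_num at this
  have hcont : Continuous (fun t => F f t * (1 - F f t)) :=
    h.F_cont.mul (continuous_const.sub h.F_cont)
  have h1 : 0 < ∫ t in x..y, F f t * (1 - F f t) := by
    apply intervalIntegral.intervalIntegral_pos_of_pos_on (hcont.intervalIntegrable _ _) _ hxy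
    intro t ht
    have h2 := h.F_mono ht.1.le
    have h3 := h.F_mono ht.2.le
    rw [hx] at h2
    rw [hy] at h3
    exact mul_pos (by linarith) (by linarith)
  rw [intervalIntegral.integral_of_le hxy.le] at h1
  refine lt_of_lt_of_le h1 ?_
  exact setIntegral_le_integral h.FG_integrable
    (Eventually.of_forall fun t => mul_nonneg (h.F_nonneg t) (by linarith [h.F_le_one t]))

/-- **Main inequality**: entropy bounds the mean absolute difference. -/
theorem Dens.entropy_ge (h : Dens f) :
    1 + Real.log (2 * ∫ t, F f t * (1 - F f t)) ≤ ∫ x, Real.negMulLog (f x) := by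
  obtain ⟨x0, hx0⟩ := h.exists_median
  have hf0 : 0 < f x0 := h.pos (by rw [hx0]; norm_num) (by rw [hx0]; norm_num)
  set u : ℕ → ℝ := fun n => 1 / ((n : ℝ) + 3) with hu
  have hu0 : ∀ n, 0 < u n := fun n => by simp only [hu]; positivity
  have hu1 : ∀ n, u n ≤ 1 / 3 := fun n => by
    simp only [hu]
    apply one_div_le_one_div_of_le (by norm_num)
    have : (0 : ℝ) ≤ (n : ℝ) := Nat.cast_nonneg n
    linarith
  have hut : Tendsto u atTop (𝓝 0) := by
    have h1 : Tendsto (fun n : ℕ => (n : ℝ) + 3) atTop atTop :=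
      tendsto_atTop_add_const_right _ _ tendsto_natCast_atTop_atTop
    refine h1.inv_tendsto_atTop.congr (fun n => ?_)
    simp [hu]
  choose a ha using fun n => h.F_ivt (hu0 n) (by linarith [hu1 n] : u n < 1)
  choose b hb using fun n => h.F_ivt (u := 1 - u n) (by linarith [hu1 n]) (by linarith [hu0 n])
  have hab : ∀ n, a n < b n := by
    intro n
    by_contra hc
    have := h.F_mono (not_lt.1 hc)
    rw [ha, hb] at this
    linarith [hu1 n]
  have hax : ∀ n, a n ≤ x0 := by
    intro n
    by_contra hc
    have := h.F_mono (not_le.1 hc).le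
    rw [ha, hx0] at this
    linarith [hu1 n]
  have hbx : ∀ n, x0 ≤ b n := by
    intro n
    by_contra hc
    have := h.F_mono (not_le.1 hc).le
    rw [hb, hx0] at this
    linarith [hu1 n]
  have hctx : ∀ n, Ctx f (a n) (b n) := fun n =>
    ⟨h, by rw [ha]; exact hu0 n, by rw [hb]; linarith [hu0 n]⟩
  set c : ℝ := Real.log (2 * f x0) with hc
  -- the inequality for each n
  have key : ∀ n, Real.log (2 * ∫ t in (a n)..(b n), F f t * (1 - F f t)) + (1 - u n) - u n -
      Real.log (1 - u n) ≤ 2 * (Real.negMulLog (u n) - u n * c) +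
        ∫ t in (a n)..(b n), Real.negMulLog (f t) := by
    intro n
    have h1 := (hctx n).main2 (hab n)
    rw [ha, hb] at h1
    have hfa : 0 < f (a n) := (hctx n).fpos ⟨le_rfl, (hab n).le⟩
    have hfb : 0 < f (b n) := (hctx n).fpos ⟨(hab n).le, le_rfl⟩
    have h2 : Real.log (u n) + c ≤ Real.log (f (a n)) := by
      rw [hc, ← Real.log_mul (hu0 n).ne' (by positivity)]
      apply Real.log_le_log (mul_pos (hu0 n) (by positivity))
      have := h.mul1 (hax n)
      rw [ha, hx0] at this
      linarith
    have h3 : Real.log (u n) + c ≤ Real.log (f (b n)) := by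
      rw [hc, ← Real.log_mul (hu0 n).ne' (by positivity)]
      apply Real.log_le_log (mul_pos (hu0 n) (by positivity))
      have := h.mul2 (hbx n)
      rw [hb, hx0] at this
      linarith
    have h4 := mul_le_mul_of_nonneg_left h2 (hu0 n).le
    have h5 := mul_le_mul_of_nonneg_left h3 (hu0 n).le
    have e : Real.negMulLog (u n) = - (u n * Real.log (u n)) := by
      unfold Real.negMulLog; ring
    rw [e]
    have e2 : 1 - (1 - u n) = u n := by ring
    rw [e2] at h1
    linarith
  -- limits
  have hP := h.limit (φ := fun t => F f t * (1 - F f t)) h.FG_integrable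
    (Eventually.of_forall fun x hx => by
      by_contra hne
      apply hx
      have h0 := h.F_nonneg x
      have h1 := h.F_le_one x
      constructor
      · exact lt_of_le_of_ne h0 (fun e => hne (by rw [← e]; ring))
      · exact lt_of_le_of_ne h1 (fun e => hne (by rw [e]; ring)))
    hut ha hb (fun n => (hab n).le)
  have hN := h.limit (φ := fun t => Real.negMulLog (f t)) h.negMulLog_integrable
    (by
      filter_upwards [h.ae_zero] with x hx hF
      rw [hx hF]; simp)
    hut ha hb (fun n => (hab n).le)
  have hL : Tendsto (fun n => Real.log (2 * ∫ t in (a n)..(b n), F f t * (1 - F f t)) + (1 - u n) -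
      u n - Real.log (1 - u n)) atTop
      (𝓝 (Real.log (2 * ∫ t, F f t * (1 - F f t)) + (1 - 0) - 0 - Real.log (1 - 0))) := by
    refine Tendsto.sub (Tendsto.sub (Tendsto.add ?_ (hut.const_sub 1)) hut) ?_
    · refine (Real.continuousAt_log ?_).tendsto.comp (hP.const_mul 2)
      have := h.FG_pos
      positivity
    · refine (Real.continuousAt_log ?_).tendsto.comp (hut.const_sub 1)
      norm_num
  have hR : Tendsto (fun n => 2 * (Real.negMulLog (u n) - u n * c) +
        ∫ t in (a n)..(b n), Real.negMulLog (f t)) atTop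
      (𝓝 (2 * (Real.negMulLog 0 - 0 * c) + ∫ t, Real.negMulLog (f t))) := by
    refine Tendsto.add (Tendsto.const_mul 2 (Tendsto.sub ?_ (hut.mul_const c))) hN
    exact (Real.continuous_negMulLog.tendsto 0).comp hut
  have := le_of_tendsto_of_tendsto' hL hR key
  simp only [sub_zero, Real.log_one, Real.negMulLog_zero, zero_mul, mul_zero, zero_add] at this
  linarith

/-- the difference-body inequality for Shannon entropy -/
theorem Dens.diff_body (h : Dens f) :
    ∫ z, Real.negMulLog (g f z) ≤ Real.log 2 + ∫ x, Real.negMulLog (f x) := by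
  obtain ⟨M, hM⟩ := g_le h
  have hpos := h.FG_pos
  have h1 := gibbs (g_nonneg h) hM (g_integrable h) (g_one h) (g_abs_integrable h)
    (s := 2 * ∫ t, F f t * (1 - F f t)) (by positivity) (g_abs h).le
  have h2 := h.entropy_ge
  rw [Real.log_mul (by norm_num) (by positivity)] at h1
  linarith

end Pool.Agent.H97.DB
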