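import Mathlib

set_option autoImplicit false

open MeasureTheory ProbabilityTheory Set Filter Topology
open scoped ENNReal NNReal Matrix

namespace Pool.Agent.H97.GP

variable {E : Type*} [Fintype E]

/-- standard Gaussian measure on `E → ℝ` -/
noncomputable def gam (E : Type*) [Fintype E] : Measure (E → ℝ) :=
  Measure.pi (fun _ => gaussianReal 0 1)

instance : IsProbabilityMeasure (gam E) := by unfold gam; infer_instance

theorem cexp_dot (t : E → ℝ) :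
    ∫ ω, Complex.exp (((t ⬝ᵥ ω : ℝ) : ℂ) * Complex.I) ∂(gam E) =
      Complex.exp (-((t ⬝ᵥ t : ℝ) : ℂ) / 2) := by
  have h1 : ∀ ω : E → ℝ, Complex.exp (((t ⬝ᵥ ω : ℝ) : ℂ) * Complex.I) =
      ∏ e, Complex.exp (((t e * ω e : ℝ) : ℂ) * Complex.I) := by
    intro ω
    rw [← Complex.exp_sum, dotProduct, ← Finset.sum_mul]
    congr 2
    push_cast
    rfl
  simp_rw [h1]
  unfold gam
  rw [integral_fintype_prod_eq_prod (f := fun e x => Complex.exp (((t e * x : ℝ) : ℂ) * Complex.I))]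
  have h2 : ∀ e, ∫ x, Complex.exp (((t e * x : ℝ) : ℂ) * Complex.I) ∂(gaussianReal 0 1) =
      Complex.exp (-((t e * t e : ℝ) : ℂ) / 2) := by
    intro e
    have h3 := charFun_gaussianReal (μ := 0) (v := 1) (t e)
    rw [charFun_apply_real] at h3
    push_cast at h3 ⊢
    rw [h3]
    congr 1
    simp
    ring
  simp_rw [h2]
  rw [← Complex.exp_sum]
  congr 1
  rw [dotProduct]
  push_cast
  rw [← Finset.sum_div, ← Finset.sum_neg_distrib]

/-- uniqueness through dot products -/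
theorem ext_dot {μ ν : Measure (E → ℝ)} [IsFiniteMeasure μ] [IsFiniteMeasure ν]
    (h : ∀ t : E → ℝ, ∫ ω, Complex.exp (((t ⬝ᵥ ω : ℝ) : ℂ) * Complex.I) ∂μ =
      ∫ ω, Complex.exp (((t ⬝ᵥ ω : ℝ) : ℂ) * Complex.I) ∂ν) : μ = ν := by
  classical
  apply Measure.ext_of_charFunDual
  ext L
  rw [charFunDual_apply, charFunDual_apply]
  have hL : ∀ ω : E → ℝ, L ω = (fun e => L (Pi.single e 1)) ⬝ᵥ ω := by
    intro ω
    have : ω = ∑ e, ω e • (Pi.single e (1 : ℝ) : E → ℝ) := by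
      ext e'
      simp [Finset.sum_apply, Pi.single_apply]
    conv_lhs => rw [this]
    rw [map_sum, dotProduct]
    refine Finset.sum_congr rfl fun e _ => ?_
    rw [map_smul, smul_eq_mul, mul_comm]
  have e1 : ∀ ρ : Measure (E → ℝ), ∫ v, Complex.exp (((L v : ℝ) : ℂ) * Complex.I) ∂ρ =
      ∫ ω, Complex.exp ((((fun e => L (Pi.single e 1)) ⬝ᵥ ω : ℝ) : ℂ) * Complex.I) ∂ρ := by
    intro ρ
    apply integral_congr_ae
    refine Eventually.of_forall fun v => ?_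
    change Complex.exp (((L v : ℝ) : ℂ) * Complex.I) = _
    rw [hL v]
  rw [e1 μ, e1 ν]
  exact h _

theorem measurable_dot (t : E → ℝ) : Measurable (fun ω : E → ℝ => t ⬝ᵥ ω) := by
  unfold dotProduct
  fun_prop

theorem dot_self_nonneg (t : E → ℝ) : 0 ≤ t ⬝ᵥ t :=
  Finset.sum_nonneg fun _ _ => mul_self_nonneg _

/-- law of a linear functional -/
theorem map_dot (t : E → ℝ) :
    (gam E).map (fun ω => t ⬝ᵥ ω) = gaussianReal 0 (Real.toNNReal (t ⬝ᵥ t)) := by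
  have : IsProbabilityMeasure ((gam E).map (fun ω => t ⬝ᵥ ω)) :=
    Measure.isProbabilityMeasure_map (measurable_dot t).aemeasurable
  apply Measure.ext_of_charFun
  ext s
  rw [charFun_gaussianReal, charFun_apply_real, integral_map (measurable_dot t).aemeasurable
    (by fun_prop)]
  have h := cexp_dot (s • t)
  simp only [smul_dotProduct, dotProduct_smul, smul_eq_mul] at h
  have e1 : ∀ ω : E → ℝ, Complex.exp ((s : ℂ) * ((t ⬝ᵥ ω : ℝ) : ℂ) * Complex.I) =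
      Complex.exp (((s * (t ⬝ᵥ ω) : ℝ) : ℂ) * Complex.I) := by
    intro ω; push_cast; rfl
  simp_rw [e1, h]
  congr 1
  rw [Real.coe_toNNReal _ (dot_self_nonneg t)]
  push_cast
  ring

theorem integrable_exp_dot (t : E → ℝ) (b : ℝ) :
    Integrable (fun ω => Real.exp (b * (t ⬝ᵥ ω))) (gam E) := by
  have h := integrable_exp_mul_gaussianReal (μ := 0) (v := Real.toNNReal (t ⬝ᵥ t)) b
  rw [← map_dot t] at h
  exact (integrable_map_measure (by fun_prop) (measurable_dot t).aemeasurable).1 h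

theorem integral_exp_dot (t : E → ℝ) (b : ℝ) :
    ∫ ω, Real.exp (b * (t ⬝ᵥ ω)) ∂(gam E) = Real.exp (b ^ 2 * (t ⬝ᵥ t) / 2) := by
  have h := mgf_gaussianReal (map_dot t) b
  unfold mgf at h
  rw [h, Real.coe_toNNReal _ (dot_self_nonneg t)]
  congr 1
  ring

theorem integrable_dot (t : E → ℝ) : Integrable (fun ω => t ⬝ᵥ ω) (gam E) := by
  have h : Integrable (fun x : ℝ => x) (gaussianReal 0 (Real.toNNReal (t ⬝ᵥ t))) :=
    (memLp_id_gaussianReal 1).integrable (by simp)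
  rw [← map_dot t] at h
  exact (integrable_map_measure (by fun_prop) (measurable_dot t).aemeasurable).1 h

theorem integral_dot (t : E → ℝ) : ∫ ω, t ⬝ᵥ ω ∂(gam E) = 0 := by
  have h : ∫ x : ℝ, x ∂(gaussianReal 0 (Real.toNNReal (t ⬝ᵥ t))) = 0 := integral_id_gaussianReal
  rw [← map_dot t, integral_map (measurable_dot t).aemeasurable (by fun_prop)] at h
  exact h

/-- Chernoff bound -/
theorem tail_dot (t : E → ℝ) {σ c : ℝ} (hσ : 0 < σ) (ht : t ⬝ᵥ t ≤ σ ^ 2) (hc : 0 ≤ c) :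
    (gam E).real {ω | c ≤ t ⬝ᵥ ω} ≤ Real.exp (-(c ^ 2 / (2 * σ ^ 2))) := by
  have h := measure_ge_le_exp_mul_mgf (μ := gam E) (X := fun ω => t ⬝ᵥ ω) c
    (t := c / σ ^ 2) (by positivity) (integrable_exp_dot t _)
  refine h.trans ?_
  unfold mgf
  rw [integral_exp_dot, ← Real.exp_add]
  apply Real.exp_le_exp.2
  have h2 : (c / σ ^ 2) ^ 2 * (t ⬝ᵥ t) / 2 ≤ (c / σ ^ 2) ^ 2 * σ ^ 2 / 2 := by
    have := mul_le_mul_of_nonneg_left ht (sq_nonneg (c / σ ^ 2))
    linarith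
  have h3 : -(c / σ ^ 2) * c + (c / σ ^ 2) ^ 2 * σ ^ 2 / 2 = -(c ^ 2 / (2 * σ ^ 2)) := by
    field_simp
    ring
  linarith

theorem tail_abs_dot (t : E → ℝ) {σ c : ℝ} (hσ : 0 < σ) (ht : t ⬝ᵥ t ≤ σ ^ 2) (hc : 0 ≤ c) :
    (gam E).real {ω | c ≤ |t ⬝ᵥ ω|} ≤ 2 * Real.exp (-(c ^ 2 / (2 * σ ^ 2))) := by
  have h1 := tail_dot t hσ ht hc
  have h2 := tail_dot (-t) hσ (by simpa using ht) hc
  have hsub : {ω : E → ℝ | c ≤ |t ⬝ᵥ ω|} ⊆ {ω | c ≤ t ⬝ᵥ ω} ∪ {ω | c ≤ (-t) ⬝ᵥ ω} := by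
    intro ω hω
    change c ≤ |t ⬝ᵥ ω| at hω
    rcases le_abs'.1 hω with h | h
    · right
      change c ≤ (-t) ⬝ᵥ ω
      rw [neg_dotProduct]; linarith
    · left; exact h
  calc (gam E).real {ω | c ≤ |t ⬝ᵥ ω|}
      ≤ (gam E).real ({ω | c ≤ t ⬝ᵥ ω} ∪ {ω | c ≤ (-t) ⬝ᵥ ω}) :=
        measureReal_mono hsub (measure_ne_top _ _)
    _ ≤ _ := measureReal_union_le _ _
    _ ≤ _ := by linarith

/-- scaling law for the sum of two independent copies -/
theorem map_add_smul (s : ℝ) :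
    ((gam E).prod (gam E)).map (fun p => p.1 + s • p.2) =
      (gam E).map (fun ω => Real.sqrt (1 + s ^ 2) • ω) := by
  have m1 : Measurable (fun p : (E → ℝ) × (E → ℝ) => p.1 + s • p.2) := by fun_prop
  have m2 : Measurable (fun ω : E → ℝ => Real.sqrt (1 + s ^ 2) • ω) := by fun_prop
  have : IsProbabilityMeasure (((gam E).prod (gam E)).map (fun p => p.1 + s • p.2)) :=
    Measure.isProbabilityMeasure_map m1.aemeasurable
  have : IsProbabilityMeasure ((gam E).map (fun ω => Real.sqrt (1 + s ^ 2) • ω)) :=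
    Measure.isProbabilityMeasure_map m2.aemeasurable
  apply ext_dot
  intro t
  have mt : Measurable (fun ω : E → ℝ => Complex.exp (((t ⬝ᵥ ω : ℝ) : ℂ) * Complex.I)) := by
    unfold dotProduct
    fun_prop
  rw [integral_map m1.aemeasurable mt.aestronglyMeasurable,
    integral_map m2.aemeasurable mt.aestronglyMeasurable]
  have e1 : ∀ p : (E → ℝ) × (E → ℝ),
      Complex.exp (((t ⬝ᵥ (p.1 + s • p.2) : ℝ) : ℂ) * Complex.I) =
      Complex.exp (((t ⬝ᵥ p.1 : ℝ) : ℂ) * Complex.I) *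
        Complex.exp ((((s • t) ⬝ᵥ p.2 : ℝ) : ℂ) * Complex.I) := by
    intro p
    rw [← Complex.exp_add, dotProduct_add, dotProduct_smul, smul_dotProduct]
    congr 1
    push_cast
    ring
  simp_rw [e1]
  rw [integral_prod_mul (fun ω => Complex.exp (((t ⬝ᵥ ω : ℝ) : ℂ) * Complex.I))
    (fun ω => Complex.exp ((((s • t) ⬝ᵥ ω : ℝ) : ℂ) * Complex.I)), cexp_dot, cexp_dot]
  have e2 : ∀ ω : E → ℝ, Complex.exp (((t ⬝ᵥ (Real.sqrt (1 + s ^ 2) • ω) : ℝ) : ℂ) * Complex.I) =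
      Complex.exp ((((Real.sqrt (1 + s ^ 2) • t) ⬝ᵥ ω : ℝ) : ℂ) * Complex.I) := by
    intro ω
    rw [dotProduct_smul, smul_dotProduct]
  simp_rw [e2]
  rw [cexp_dot, ← Complex.exp_add]
  congr 1
  simp only [smul_dotProduct, dotProduct_smul, smul_eq_mul]
  have h3 : Real.sqrt (1 + s ^ 2) * (Real.sqrt (1 + s ^ 2) * (t ⬝ᵥ t)) = (1 + s ^ 2) * (t ⬝ᵥ t) := by
    rw [← mul_assoc, Real.mul_self_sqrt (by positivity)]
  rw [h3]
  push_cast
  ring

end Pool.Agent.H97.GP
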