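import Mathlib
import Pool.Agent.H97.G1

set_option autoImplicit false

open MeasureTheory ProbabilityTheory Set Filter Topology
open scoped ENNReal NNReal Matrix

namespace Pool.Agent.H97.GP

variable {E : Type*} [Fintype E]

/-- upper bound for the expected maximum -/
theorem emax_le {κ : Type*} [Fintype κ] [Nonempty κ] (t : κ → E → ℝ) {σ b : ℝ} (hb : 0 < b)
    (ht : ∀ k, t k ⬝ᵥ t k ≤ σ ^ 2) {X : (E → ℝ) → ℝ} (hXint : Integrable X (gam E))
    (hX : ∀ ω, ∃ k, X ω ≤ t k ⬝ᵥ ω) :
    ∫ ω, X ω ∂(gam E) ≤ (Real.log (Fintype.card κ) + b ^ 2 * σ ^ 2 / 2) / b := by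
  set c : ℝ := Real.log (Fintype.card κ) + b ^ 2 * σ ^ 2 / 2 with hc
  have hcard : (0 : ℝ) < Fintype.card κ := by exact_mod_cast Fintype.card_pos
  have hI : ∀ k, Integrable (fun ω => Real.exp (b * (t k ⬝ᵥ ω) - c)) (gam E) := by
    intro k
    have := (integrable_exp_dot (t k) b).mul_const (Real.exp (-c))
    refine this.congr (Eventually.of_forall fun ω => ?_)
    change Real.exp (b * (t k ⬝ᵥ ω)) * Real.exp (-c) = _
    rw [← Real.exp_add]; rfl
  have hpt : ∀ ω, b * X ω ≤ (c - 1) + ∑ k, Real.exp (b * (t k ⬝ᵥ ω) - c) := by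
    intro ω
    obtain ⟨k, hk⟩ := hX ω
    have h1 : b * X ω ≤ b * (t k ⬝ᵥ ω) := mul_le_mul_of_nonneg_left hk hb.le
    have h2 := Real.add_one_le_exp (b * (t k ⬝ᵥ ω) - c)
    have h3 : Real.exp (b * (t k ⬝ᵥ ω) - c) ≤ ∑ k, Real.exp (b * (t k ⬝ᵥ ω) - c) :=
      Finset.single_le_sum (f := fun k => Real.exp (b * (t k ⬝ᵥ ω) - c))
        (fun _ _ => (Real.exp_pos _).le) (Finset.mem_univ k)
    linarith
  have hIs : Integrable (fun ω => (c - 1) + ∑ k, Real.exp (b * (t k ⬝ᵥ ω) - c)) (gam E) :=
    (integrable_const _).add (integrable_finsetSum _ fun k _ => hI k)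
  have h1 := integral_mono (hXint.const_mul b) hIs hpt
  rw [integral_const_mul, integral_add (integrable_const _) (integrable_finsetSum _ fun k _ => hI k),
    integral_finsetSum _ (fun k _ => hI k)] at h1
  have h2 : ∀ k, ∫ ω, Real.exp (b * (t k ⬝ᵥ ω) - c) ∂(gam E) ≤ 1 / Fintype.card κ := by
    intro k
    have e1 : ∀ ω, Real.exp (b * (t k ⬝ᵥ ω) - c) =
        Real.exp (b * (t k ⬝ᵥ ω)) * Real.exp (-c) := by
      intro ω; rw [← Real.exp_add]; rfl
    simp_rw [e1]
    rw [integral_mul_const, integral_exp_dot, ← Real.exp_add]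
    have h3 : b ^ 2 * (t k ⬝ᵥ t k) / 2 + -c ≤ -Real.log (Fintype.card κ) := by
      have := mul_le_mul_of_nonneg_left (ht k) (sq_nonneg b)
      rw [hc]; linarith
    calc Real.exp (b ^ 2 * (t k ⬝ᵥ t k) / 2 + -c) ≤ Real.exp (-Real.log (Fintype.card κ)) :=
          Real.exp_le_exp.2 h3
      _ = 1 / Fintype.card κ := by rw [Real.exp_neg, Real.exp_log hcard, one_div]
  have h3 : ∑ k, ∫ ω, Real.exp (b * (t k ⬝ᵥ ω) - c) ∂(gam E) ≤ 1 := by
    calc _ ≤ ∑ _k : κ, (1 : ℝ) / Fintype.card κ := Finset.sum_le_sum fun k _ => h2 k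
      _ = 1 := by
        rw [Finset.sum_const, Finset.card_univ, nsmul_eq_mul]; field_simp
  have h4 : ∫ _ω : E → ℝ, (c - 1) ∂(gam E) = c - 1 := by simp
  rw [h4] at h1
  rw [le_div_iff₀ hb]
  linarith

/-- one dimensional Stein identity -/
theorem stein_one {f f' : ℝ → ℝ} {C : ℝ} (hf : ∀ x, HasDerivAt f (f' x) x)
    (hC : ∀ x, |f x| ≤ C) (hC' : ∀ x, |f' x| ≤ C) (hm : Measurable f') :
    ∫ x, x * f x ∂(gaussianReal 0 1) = ∫ x, f' x ∂(gaussianReal 0 1) := by
  have hcont : Continuous f := continuous_iff_continuousAt.2 fun x => (hf x).continuousAt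
  have hpdf : ∀ x, HasDerivAt (gaussianPDFReal 0 1) (-(x * gaussianPDFReal 0 1 x)) x := by
    intro x
    have h1 : HasDerivAt (fun x : ℝ => -(x - 0) ^ 2 / (2 * ((1 : ℝ≥0) : ℝ))) (-x) x := by
      have := (((hasDerivAt_id x).sub_const 0).pow 2).neg.div_const (2 * ((1 : ℝ≥0) : ℝ))
      refine this.congr_deriv ?_
      simp
      ring
    have h2 := (h1.exp).const_mul ((Real.sqrt (2 * Real.pi * ((1 : ℝ≥0) : ℝ)))⁻¹)
    refine h2.congr_deriv ?_
    unfold gaussianPDFReal
    ring
  have hI1 : Integrable (fun x : ℝ => x) (gaussianReal 0 1) :=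
    (memLp_id_gaussianReal 1).integrable (by simp)
  have hpI : Integrable (gaussianPDFReal 0 1) := integrable_gaussianPDFReal 0 1
  have hxpI : Integrable (fun x : ℝ => gaussianPDFReal 0 1 x * x) := by
    have h := hI1
    rw [gaussianReal_of_var_ne_zero 0 (by norm_num : (1 : ℝ≥0) ≠ 0)] at h
    have h2 := (integrable_withDensity_iff (measurable_gaussianPDF 0 1)
      (Eventually.of_forall fun x => gaussianPDF_lt_top)).1 h
    refine h2.congr (Eventually.of_forall fun x => ?_)
    change x * (gaussianPDF 0 1 x).toReal = _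
    rw [toReal_gaussianPDF, mul_comm]
  rw [integral_gaussianReal_eq_integral_smul (by norm_num),
    integral_gaussianReal_eq_integral_smul (by norm_num)]
  have key := integral_mul_deriv_eq_deriv_mul_of_integrable (u := f) (v := gaussianPDFReal 0 1)
    (u' := f') (v' := fun x => -(x * gaussianPDFReal 0 1 x)) (fun x _ => hf x) (fun x _ => hpdf x)
    ?_ ?_ ?_
  · have e1 : ∀ x, gaussianPDFReal 0 1 x • (x * f x) = -(f x * -(x * gaussianPDFReal 0 1 x)) := by
      intro x; rw [smul_eq_mul]; ring
    have e2 : ∀ x, gaussianPDFReal 0 1 x • (f' x) = f' x * gaussianPDFReal 0 1 x := by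
      intro x; rw [smul_eq_mul]; ring
    simp_rw [e1, e2]
    rw [integral_neg, key, neg_neg]
  · have : Integrable (fun x => f x * (gaussianPDFReal 0 1 x * x)) :=
      hxpI.bdd_mul hcont.aestronglyMeasurable (Eventually.of_forall hC)
    refine this.neg.congr (Eventually.of_forall fun x => ?_)
    simp only [Pi.neg_apply, Pi.mul_apply]; ring
  · exact hpI.bdd_mul hm.aestronglyMeasurable (Eventually.of_forall hC')
  · exact hpI.bdd_mul hcont.aestronglyMeasurable (Eventually.of_forall hC)

/-- resampling one coordinate -/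
theorem mp_update [DecidableEq E] (e : E) :
    MeasurePreserving (fun p : ℝ × (E → ℝ) => Function.update p.2 e p.1)
      ((gaussianReal 0 1).prod (gam E)) (gam E) := by
  have hm : Measurable (fun p : ℝ × (E → ℝ) => Function.update p.2 e p.1) := by
    apply measurable_pi_lambda
    intro i
    by_cases h : i = e
    · subst h; simpa using measurable_fst
    · have h2 : (fun c : ℝ × (E → ℝ) => Function.update c.2 e c.1 i) = fun c => c.2 i := by
        funext c; simp [h]
      rw [h2]
      exact (measurable_pi_apply i).comp measurable_snd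
  refine ⟨hm, ?_⟩
  unfold gam
  refine (Measure.pi_eq (fun s hs => ?_)).symm
  rw [Measure.map_apply hm (MeasurableSet.univ_pi hs)]
  have e1 : (fun p : ℝ × (E → ℝ) => Function.update p.2 e p.1) ⁻¹' (univ.pi s) =
      (s e) ×ˢ (univ.pi (Function.update s e univ)) := by
    ext p
    simp only [mem_preimage, mem_univ_pi, mem_prod]
    constructor
    · intro h
      refine ⟨by simpa using h e, fun i => ?_⟩
      by_cases hi : i = e
      · subst hi; simp
      · have := h i
        rw [Function.update_of_ne hi] at this ⊢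
        exact this
    · rintro ⟨h1, h2⟩ i
      by_cases hi : i = e
      · subst hi; simpa using h1
      · have := h2 i
        rw [Function.update_of_ne hi] at this ⊢
        exact this
  rw [e1, Measure.prod_prod, Measure.pi_pi]
  rw [← Finset.mul_prod_erase Finset.univ _ (Finset.mem_univ e),
    ← Finset.mul_prod_erase Finset.univ (fun i => (gaussianReal 0 1) (s i)) (Finset.mem_univ e)]
  simp only [Function.update_self, measure_univ, one_mul]
  congr 1
  refine Finset.prod_congr rfl fun i hi => ?_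
  rw [Function.update_of_ne (Finset.ne_of_mem_erase hi)]

theorem integral_update [DecidableEq E] (e : E) {F : (E → ℝ) → ℝ} (hF : Integrable F (gam E)) :
    ∫ ω, F ω ∂(gam E) = ∫ ω, ∫ x, F (Function.update ω e x) ∂(gaussianReal 0 1) ∂(gam E) := by
  have hmp := mp_update (E := E) e
  have h1 : ∫ ω, F ω ∂(gam E) = ∫ p : ℝ × (E → ℝ), F (Function.update p.2 e p.1)
      ∂((gaussianReal 0 1).prod (gam E)) := by
    conv_lhs => rw [← hmp.map_eq]
    rw [integral_map hmp.measurable.aemeasurable]
    rw [hmp.map_eq]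
    exact hF.aestronglyMeasurable
  rw [h1, integral_prod_symm]
  exact hmp.integrable_comp_of_integrable hF

/-- Stein identity in one coordinate -/
theorem stein_coord [DecidableEq E] (e : E) {F F' : (E → ℝ) → ℝ} {C : ℝ}
    (hF : ∀ ω, HasDerivAt (fun x => F (Function.update ω e x)) (F' ω) (ω e))
    (hC : ∀ ω, |F ω| ≤ C) (hC' : ∀ ω, |F' ω| ≤ C) (hm : Measurable F) (hm' : Measurable F') :
    ∫ ω, ω e * F ω ∂(gam E) = ∫ ω, F' ω ∂(gam E) := by
  have hIe : Integrable (fun ω : E → ℝ => ω e) (gam E) := by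
    have := integrable_dot (E := E) (Pi.single e 1)
    simpa using this
  have hI : Integrable (fun ω : E → ℝ => ω e * F ω) (gam E) :=
    hIe.mul_bdd hm.aestronglyMeasurable (Eventually.of_forall hC)
  have hI' : Integrable F' (gam E) :=
    Integrable.of_bound hm'.aestronglyMeasurable C (Eventually.of_forall hC')
  rw [integral_update e hI, integral_update e hI']
  refine integral_congr_ae (Eventually.of_forall fun ω => ?_)
  simp only [Function.update_self]
  refine stein_one (f := fun x => F (Function.update ω e x))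
    (f' := fun x => F' (Function.update ω e x)) (C := C) (fun x => ?_) (fun x => hC _)
    (fun x => hC' _) (hm'.comp (measurable_update ω))
  have := hF (Function.update ω e x)
  simpa using this

end Pool.Agent.H97.GP
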