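import Mathlib
import Pool.Agent.H97.G2

set_option autoImplicit false

open MeasureTheory ProbabilityTheory Set Filter Topology
open scoped ENNReal NNReal Matrix

namespace Pool.Agent.H97.GP

variable {E : Type*} [Fintype E] {κ : Type*} [Fintype κ]

/-- Gibbs weights -/
noncomputable def gw (t : κ → E → ℝ) (β : ℝ) (k : κ) (ω : E → ℝ) : ℝ :=
  Real.exp (β * (t k ⬝ᵥ ω)) / ∑ l, Real.exp (β * (t l ⬝ᵥ ω))

theorem gz_pos (t : κ → E → ℝ) (β : ℝ) (k : κ) (ω : E → ℝ) :
    0 < ∑ l, Real.exp (β * (t l ⬝ᵥ ω)) :=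
  Finset.sum_pos (fun _ _ => Real.exp_pos _) ⟨k, Finset.mem_univ k⟩

theorem gw_nonneg (t : κ → E → ℝ) (β : ℝ) (k : κ) (ω : E → ℝ) : 0 ≤ gw t β k ω :=
  div_nonneg (Real.exp_pos _).le (gz_pos t β k ω).le

theorem gw_le_one (t : κ → E → ℝ) (β : ℝ) (k : κ) (ω : E → ℝ) : gw t β k ω ≤ 1 := by
  unfold gw
  rw [div_le_one (gz_pos t β k ω)]
  exact Finset.single_le_sum (f := fun l => Real.exp (β * (t l ⬝ᵥ ω)))
    (fun _ _ => (Real.exp_pos _).le) (Finset.mem_univ k)

theorem gw_sum [Nonempty κ] (t : κ → E → ℝ) (β : ℝ) (ω : E → ℝ) : ∑ k, gw t β k ω = 1 := by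
  unfold gw
  rw [← Finset.sum_div]
  obtain ⟨k⟩ := ‹Nonempty κ›
  exact div_self (gz_pos t β k ω).ne'

theorem measurable_gw (t : κ → E → ℝ) (β : ℝ) (k : κ) : Measurable (gw t β k) := by
  unfold gw dotProduct
  fun_prop

theorem dot_update [DecidableEq E] (v ω : E → ℝ) (e : E) (x : ℝ) :
    v ⬝ᵥ Function.update ω e x = v ⬝ᵥ ω + v e * (x - ω e) := by
  have h : Function.update ω e x = ω + Pi.single e (x - ω e) := by
    ext i
    by_cases hi : i = e
    · subst hi; simp
    · simp [hi]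
  rw [h, dotProduct_add, dotProduct_single]

theorem gw_deriv [DecidableEq E] (t : κ → E → ℝ) (β : ℝ) (k : κ) (e : E) (ω : E → ℝ) :
    HasDerivAt (fun x => gw t β k (Function.update ω e x))
      (β * (gw t β k ω * (t k e - ∑ l, gw t β l ω * t l e))) (ω e) := by
  have h1 : ∀ l, HasDerivAt (fun x => Real.exp (β * (t l ⬝ᵥ Function.update ω e x)))
      (Real.exp (β * (t l ⬝ᵥ ω)) * (β * t l e)) (ω e) := by
    intro l
    have h2 : HasDerivAt (fun x => β * (t l ⬝ᵥ Function.update ω e x)) (β * t l e) (ω e) := by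
      have h3 : (fun x => β * (t l ⬝ᵥ Function.update ω e x)) =
          fun x => β * (t l ⬝ᵥ ω + t l e * (x - ω e)) := by
        funext x; rw [dot_update]
      rw [h3]
      have := ((((hasDerivAt_id (ω e)).sub_const (ω e)).const_mul (t l e)).const_add
        (t l ⬝ᵥ ω)).const_mul β
      refine this.congr_deriv ?_
      ring
    have := h2.exp
    rw [Function.update_eq_self] at this
    exact this
  have h4 : HasDerivAt (fun x => ∑ l, Real.exp (β * (t l ⬝ᵥ Function.update ω e x)))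
      (∑ l, Real.exp (β * (t l ⬝ᵥ ω)) * (β * t l e)) (ω e) := by
    have := HasDerivAt.fun_sum (u := Finset.univ) (fun l _ => h1 l)
    exact this
  have h5 := (h1 k).div h4 (by rw [Function.update_eq_self]; exact (gz_pos t β k ω).ne')
  rw [Function.update_eq_self] at h5
  refine h5.congr_deriv ?_
  have hz := (gz_pos t β k ω).ne'
  unfold gw
  have h6 : ∑ l, Real.exp (β * (t l ⬝ᵥ ω)) / (∑ l, Real.exp (β * (t l ⬝ᵥ ω))) * t l e =
      (∑ l, Real.exp (β * (t l ⬝ᵥ ω)) * t l e) / (∑ l, Real.exp (β * (t l ⬝ᵥ ω))) := by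
    rw [Finset.sum_div]
    refine Finset.sum_congr rfl fun l _ => ?_
    ring
  have h7 : ∑ l, Real.exp (β * (t l ⬝ᵥ ω)) * (β * t l e) =
      β * ∑ l, Real.exp (β * (t l ⬝ᵥ ω)) * t l e := by
    rw [Finset.mul_sum]
    refine Finset.sum_congr rfl fun l _ => ?_
    ring
  rw [h6, h7]
  field_simp

theorem gw_bound (t : κ → E → ℝ) (β : ℝ) (k : κ) (e : E) (ω : E → ℝ) :
    |β * (gw t β k ω * (t k e - ∑ l, gw t β l ω * t l e))| ≤
      1 + |β| * (|t k e| + ∑ l, |t l e|) := by
  have h1 : |∑ l, gw t β l ω * t l e| ≤ ∑ l, |t l e| := by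
    refine (Finset.abs_sum_le_sum_abs _ _).trans (Finset.sum_le_sum fun l _ => ?_)
    rw [abs_mul, abs_of_nonneg (gw_nonneg t β l ω)]
    exact mul_le_of_le_one_left (abs_nonneg _) (gw_le_one t β l ω)
  have h2 : |t k e - ∑ l, gw t β l ω * t l e| ≤ |t k e| + ∑ l, |t l e| := by
    refine (abs_sub _ _).trans (by linarith)
  rw [abs_mul, abs_mul, abs_of_nonneg (gw_nonneg t β k ω)]
  have h3 : gw t β k ω * |t k e - ∑ l, gw t β l ω * t l e| ≤ |t k e| + ∑ l, |t l e| :=
    (mul_le_of_le_one_left (abs_nonneg _) (gw_le_one t β k ω)).trans h2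
  have := mul_le_mul_of_nonneg_left h3 (abs_nonneg β)
  linarith

theorem integrable_coord (e : E) : Integrable (fun ω : E → ℝ => ω e) (gam E) := by
  classical
  have := integrable_dot (E := E) (Pi.single e 1)
  simpa using this

theorem integrable_gw_mul (t : κ → E → ℝ) (β : ℝ) (k : κ) {f : (E → ℝ) → ℝ}
    (hf : Integrable f (gam E)) : Integrable (fun ω => gw t β k ω * f ω) (gam E) := by
  refine hf.bdd_mul (c := 1) (measurable_gw t β k).aestronglyMeasurable
    (Eventually.of_forall fun ω => ?_)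
  rw [Real.norm_eq_abs, abs_of_nonneg (gw_nonneg t β k ω)]
  exact gw_le_one t β k ω

theorem gw_stein (t : κ → E → ℝ) (β : ℝ) (k : κ) (e : E) :
    ∫ ω, gw t β k ω * ω e ∂(gam E) =
      ∫ ω, β * (gw t β k ω * (t k e - ∑ l, gw t β l ω * t l e)) ∂(gam E) := by
  classical
  have hm' : Measurable (fun ω => β * (gw t β k ω * (t k e - ∑ l, gw t β l ω * t l e))) := by
    have := measurable_gw t β
    fun_prop
  have hB : 0 ≤ |β| * (|t k e| + ∑ l, |t l e|) :=
    mul_nonneg (abs_nonneg _) (add_nonneg (abs_nonneg _) (Finset.sum_nonneg fun _ _ => abs_nonneg _))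
  have h := stein_coord (E := E) e (F := gw t β k)
    (F' := fun ω => β * (gw t β k ω * (t k e - ∑ l, gw t β l ω * t l e)))
    (C := 1 + |β| * (|t k e| + ∑ l, |t l e|)) (fun ω => gw_deriv t β k e ω)
    (fun ω => by
      rw [abs_of_nonneg (gw_nonneg t β k ω)]
      have := gw_le_one t β k ω
      linarith)
    (fun ω => gw_bound t β k e ω) (measurable_gw t β k) hm'
  rw [← h]
  refine integral_congr_ae (Eventually.of_forall fun ω => ?_)
  exact mul_comm _ _

/-- expected Gibbs average -/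
theorem gw_stein_dot (t : κ → E → ℝ) (β : ℝ) (k : κ) :
    ∫ ω, gw t β k ω * (t k ⬝ᵥ ω) ∂(gam E) =
      ∫ ω, β * (gw t β k ω * (t k ⬝ᵥ t k - ∑ l, gw t β l ω * (t l ⬝ᵥ t k))) ∂(gam E) := by
  have hI1 : ∀ e, Integrable (fun ω : E → ℝ => t k e * (gw t β k ω * ω e)) (gam E) :=
    fun e => (integrable_gw_mul t β k (integrable_coord e)).const_mul _
  have hI2 : ∀ e, Integrable (fun ω : E → ℝ =>
      t k e * (β * (gw t β k ω * (t k e - ∑ l, gw t β l ω * t l e)))) (gam E) := by
    intro e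
    refine Integrable.const_mul ?_ _
    refine Integrable.of_bound (C := 1 + |β| * (|t k e| + ∑ l, |t l e|)) ?_
      (Eventually.of_forall fun ω => gw_bound t β k e ω)
    have := measurable_gw t β
    exact Measurable.aestronglyMeasurable (by fun_prop)
  have e1 : ∀ ω : E → ℝ, gw t β k ω * (t k ⬝ᵥ ω) = ∑ e, t k e * (gw t β k ω * ω e) := by
    intro ω
    rw [dotProduct, Finset.mul_sum]
    exact Finset.sum_congr rfl fun e _ => by ring
  have e2 : ∀ ω : E → ℝ, β * (gw t β k ω * (t k ⬝ᵥ t k - ∑ l, gw t β l ω * (t l ⬝ᵥ t k))) =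
      ∑ e, t k e * (β * (gw t β k ω * (t k e - ∑ l, gw t β l ω * t l e))) := by
    intro ω
    have h3 : ∑ l, gw t β l ω * (t l ⬝ᵥ t k) = ∑ e, t k e * ∑ l, gw t β l ω * t l e := by
      simp_rw [dotProduct, Finset.mul_sum]
      rw [Finset.sum_comm]
      exact Finset.sum_congr rfl fun e _ => Finset.sum_congr rfl fun l _ => by ring
    rw [h3, dotProduct, ← Finset.sum_sub_distrib, Finset.mul_sum, Finset.mul_sum]
    exact Finset.sum_congr rfl fun e _ => by ring
  simp_rw [e1, e2]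
  rw [integral_finsetSum _ (fun e _ => hI1 e), integral_finsetSum _ (fun e _ => hI2 e)]
  refine Finset.sum_congr rfl fun e _ => ?_
  rw [integral_const_mul, integral_const_mul, gw_stein]

/-- Sudakov type lower bound -/
theorem sudakov (t : κ → E → ℝ) {a : ℝ} {X : (E → ℝ) → ℝ} (hXint : Integrable X (gam E))
    (hX : ∀ ω k, t k ⬝ᵥ ω ≤ X ω)
    (hsep : ∀ k l, k ≠ l → a ^ 2 ≤ (t k - t l) ⬝ᵥ (t k - t l)) :
    a ^ 2 * Real.log (Fintype.card κ / 2) ≤ 16 * (∫ ω, X ω ∂(gam E)) ^ 2 := by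
  classical
  by_cases hm : (Fintype.card κ : ℝ) ≤ 2
  · have : Real.log (Fintype.card κ / 2) ≤ 0 :=
      Real.log_nonpos (by positivity) (by linarith)
    have h2 := mul_nonpos_of_nonneg_of_nonpos (sq_nonneg a) this
    have h3 := sq_nonneg (∫ ω, X ω ∂(gam E))
    linarith
  push Not at hm
  have hne : Nonempty κ := by
    rw [← Fintype.card_pos_iff]
    have : (0 : ℝ) < Fintype.card κ := by linarith
    exact_mod_cast this
  set m : ℝ := (Fintype.card κ : ℝ) with hmdef
  set Λ : ℝ := Real.log (m / 2) with hΛ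
  have hΛpos : 0 < Λ := Real.log_pos (by linarith)
  set S : ℝ := ∫ ω, X ω ∂(gam E) with hS
  -- mean
  have hmean : ∀ ω, (1 / m) * ∑ k, t k ⬝ᵥ ω ≤ X ω := by
    intro ω
    have : ∑ k, t k ⬝ᵥ ω ≤ ∑ _k : κ, X ω := Finset.sum_le_sum fun k _ => hX ω k
    rw [Finset.sum_const, Finset.card_univ, nsmul_eq_mul, ← hmdef] at this
    rw [one_div, inv_mul_le_iff₀ (by linarith)]
    exact this
  have hIm : Integrable (fun ω => (1 / m) * ∑ k, t k ⬝ᵥ ω) (gam E) :=
    (integrable_finsetSum _ fun k _ => integrable_dot (t k)).const_mul _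
  have hEm : ∫ ω, (1 / m) * ∑ k, t k ⬝ᵥ ω ∂(gam E) = 0 := by
    rw [integral_const_mul, integral_finsetSum _ (fun k _ => integrable_dot (t k))]
    simp [integral_dot]
  have hSnn : 0 ≤ S := by
    rw [← hEm]
    exact integral_mono hIm hXint hmean
  -- main inequality for each β
  have key : ∀ β : ℝ, 0 < β → β * a ^ 2 / 2 * (1 / 2 - β * S / (2 * Λ)) ≤ S := by
    intro β hβ
    have hpt : ∀ ω, 1 / 2 - β * (X ω - (1 / m) * ∑ k, t k ⬝ᵥ ω) / (2 * Λ) ≤
        1 - ∑ k, gw t β k ω ^ 2 := by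
      intro ω
      set D := X ω - (1 / m) * ∑ k, t k ⬝ᵥ ω with hD
      have hDnn : 0 ≤ D := by have := hmean ω; linarith
      by_cases hc : β * D ≤ Λ
      · have hz : m * Real.exp (β * ((1 / m) * ∑ k, t k ⬝ᵥ ω)) ≤
            ∑ l, Real.exp (β * (t l ⬝ᵥ ω)) := by
          have h1 : ∀ l, Real.exp (β * ((1 / m) * ∑ k, t k ⬝ᵥ ω)) *
              (1 + (β * (t l ⬝ᵥ ω) - β * ((1 / m) * ∑ k, t k ⬝ᵥ ω))) ≤
              Real.exp (β * (t l ⬝ᵥ ω)) := by
            intro l
            have h2 := Real.add_one_le_exp (β * (t l ⬝ᵥ ω) - β * ((1 / m) * ∑ k, t k ⬝ᵥ ω))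
            have h3 : Real.exp (β * (t l ⬝ᵥ ω)) =
                Real.exp (β * ((1 / m) * ∑ k, t k ⬝ᵥ ω)) *
                Real.exp (β * (t l ⬝ᵥ ω) - β * ((1 / m) * ∑ k, t k ⬝ᵥ ω)) := by
              rw [← Real.exp_add]; congr 1; ring
            rw [h3]
            exact mul_le_mul_of_nonneg_left (by linarith) (Real.exp_pos _).le
          have h4 := Finset.sum_le_sum (s := (Finset.univ : Finset κ)) (fun l _ => h1 l)
          rw [← Finset.mul_sum, Finset.sum_add_distrib, Finset.sum_sub_distrib, Finset.sum_const,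
            Finset.sum_const, Finset.card_univ, nsmul_eq_mul, nsmul_eq_mul, ← hmdef,
            ← Finset.mul_sum] at h4
          have hm0 : m ≠ 0 := by linarith
          have h5 : m * (β * ((1 / m) * ∑ k, t k ⬝ᵥ ω)) = β * ∑ k, t k ⬝ᵥ ω := by
            field_simp
          rw [h5] at h4
          linarith
        have hw : ∀ k, gw t β k ω ≤ 1 / 2 := by
          intro k
          have hp := gz_pos t β k ω
          unfold gw
          rw [div_le_iff₀ hp]
          have h6 : Real.exp (β * (t k ⬝ᵥ ω)) ≤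
              Real.exp (β * ((1 / m) * ∑ k, t k ⬝ᵥ ω)) * (m / 2) := by
            rw [← Real.exp_log (show (0 : ℝ) < m / 2 by linarith), ← Real.exp_add]
            apply Real.exp_le_exp.2
            have h7 := mul_le_mul_of_nonneg_left (hX ω k) hβ.le
            have h8 : β * D = β * X ω - β * ((1 / m) * ∑ k, t k ⬝ᵥ ω) := by
              rw [hD]; ring
            linarith
          linarith
        have h9 : ∑ k, gw t β k ω ^ 2 ≤ 1 / 2 := by
          calc ∑ k, gw t β k ω ^ 2 ≤ ∑ k, (1 / 2) * gw t β k ω := by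
                refine Finset.sum_le_sum fun k _ => ?_
                rw [sq]
                exact mul_le_mul_of_nonneg_right (hw k) (gw_nonneg t β k ω)
            _ = 1 / 2 := by rw [← Finset.mul_sum, gw_sum]; ring
        have : 0 ≤ β * D / (2 * Λ) := by positivity
        linarith
      · push Not at hc
        have h9 : ∑ k, gw t β k ω ^ 2 ≤ 1 := by
          calc ∑ k, gw t β k ω ^ 2 ≤ ∑ k, gw t β k ω := by
                refine Finset.sum_le_sum fun k _ => ?_
                rw [sq]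
                exact mul_le_of_le_one_left (gw_nonneg t β k ω) (gw_le_one t β k ω)
            _ = 1 := gw_sum t β ω
        have : 1 / 2 ≤ β * D / (2 * Λ) := by
          rw [le_div_iff₀ (by positivity)]
          linarith
        linarith
    have hIsq : ∀ k, Integrable (fun ω => gw t β k ω ^ 2) (gam E) := by
      intro k
      refine Integrable.of_bound (C := 1) ((measurable_gw t β k).pow_const 2).aestronglyMeasurable
        (Eventually.of_forall fun ω => ?_)
      rw [Real.norm_eq_abs, abs_of_nonneg (sq_nonneg _)]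
      exact pow_le_one₀ (gw_nonneg t β k ω) (gw_le_one t β k ω)
    have hIG : Integrable (fun ω => 1 - ∑ k, gw t β k ω ^ 2) (gam E) :=
      (integrable_const _).sub (integrable_finsetSum _ fun k _ => hIsq k)
    have hIL : Integrable (fun ω => 1 / 2 - β * (X ω - (1 / m) * ∑ k, t k ⬝ᵥ ω) / (2 * Λ))
        (gam E) :=
      (integrable_const _).sub (((hXint.sub hIm).const_mul β).div_const _)
    have h10 : 1 / 2 - β * S / (2 * Λ) ≤ ∫ ω, (1 - ∑ k, gw t β k ω ^ 2) ∂(gam E) := by
      have h11 := integral_mono hIL hIG hpt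
      have h12 : ∫ ω, (1 / 2 - β * (X ω - (1 / m) * ∑ k, t k ⬝ᵥ ω) / (2 * Λ)) ∂(gam E) =
          1 / 2 - β * S / (2 * Λ) := by
        have hI3 : Integrable (fun ω => X ω - (1 / m) * ∑ k, t k ⬝ᵥ ω) (gam E) := hXint.sub hIm
        rw [integral_sub (integrable_const _) ((hI3.const_mul β).div_const _),
          integral_div (2 * Λ) (fun ω => β * (X ω - (1 / m) * ∑ k, t k ⬝ᵥ ω)),
          integral_const_mul, integral_sub hXint hIm, hEm]
        simp [hS]
      rw [← h12]; exact h11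
    -- Gibbs average
    have h13 : ∫ ω, ∑ k, gw t β k ω * (t k ⬝ᵥ ω) ∂(gam E) ≤ S := by
      refine integral_mono (integrable_finsetSum _ fun k _ =>
        integrable_gw_mul t β k (integrable_dot (t k))) hXint (fun ω => ?_)
      change ∑ k, gw t β k ω * (t k ⬝ᵥ ω) ≤ X ω
      calc ∑ k, gw t β k ω * (t k ⬝ᵥ ω) ≤ ∑ k, gw t β k ω * X ω :=
            Finset.sum_le_sum fun k _ => mul_le_mul_of_nonneg_left (hX ω k) (gw_nonneg t β k ω)
        _ = X ω := by rw [← Finset.sum_mul, gw_sum, one_mul]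
    have hIk : ∀ k, Integrable (fun ω =>
        β * (gw t β k ω * (t k ⬝ᵥ t k - ∑ l, gw t β l ω * (t l ⬝ᵥ t k)))) (gam E) := by
      intro k
      refine Integrable.const_mul (integrable_gw_mul t β k ?_) _
      refine (integrable_const _).sub (integrable_finsetSum _ fun l _ => ?_)
      exact integrable_gw_mul t β l (integrable_const _)
    have h14 : ∫ ω, ∑ k, gw t β k ω * (t k ⬝ᵥ ω) ∂(gam E) =
        ∫ ω, ∑ k, β * (gw t β k ω * (t k ⬝ᵥ t k - ∑ l, gw t β l ω * (t l ⬝ᵥ t k))) ∂(gam E) := by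
      rw [integral_finsetSum _ (fun k _ => integrable_gw_mul t β k (integrable_dot (t k))),
        integral_finsetSum _ (fun k _ => hIk k)]
      exact Finset.sum_congr rfl fun k _ => gw_stein_dot t β k
    have h15 : β * a ^ 2 / 2 * ∫ ω, (1 - ∑ k, gw t β k ω ^ 2) ∂(gam E) ≤
        ∫ ω, ∑ k, β * (gw t β k ω * (t k ⬝ᵥ t k - ∑ l, gw t β l ω * (t l ⬝ᵥ t k))) ∂(gam E) := by
      rw [← integral_const_mul]
      refine integral_mono (hIG.const_mul _) (integrable_finsetSum _ fun k _ => hIk k)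
        (fun ω => ?_)
      change β * a ^ 2 / 2 * (1 - ∑ k, gw t β k ω ^ 2) ≤
        ∑ k, β * (gw t β k ω * (t k ⬝ᵥ t k - ∑ l, gw t β l ω * (t l ⬝ᵥ t k)))
      -- abbreviations
      set w : κ → ℝ := fun k => gw t β k ω with hw
      have hw1 : ∑ k, w k = 1 := gw_sum t β ω
      have hwnn : ∀ k, 0 ≤ w k := fun k => gw_nonneg t β k ω
      have e1 : ∑ k, ∑ l, w k * w l * ((t k - t l) ⬝ᵥ (t k - t l)) =
          2 * ∑ k, (w k * (t k ⬝ᵥ t k - ∑ l, w l * (t l ⬝ᵥ t k))) := by
        have e2 : ∀ k l, w k * w l * ((t k - t l) ⬝ᵥ (t k - t l)) =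
            w l * (w k * (t k ⬝ᵥ t k)) + w k * (w l * (t l ⬝ᵥ t l)) -
              2 * (w k * (w l * (t l ⬝ᵥ t k))) := by
          intro k l
          rw [sub_dotProduct, dotProduct_sub, dotProduct_sub, dotProduct_comm (t k) (t l)]
          ring
        simp_rw [e2, Finset.sum_sub_distrib, Finset.sum_add_distrib]
        have e3 : ∑ k, ∑ l, w l * (w k * (t k ⬝ᵥ t k)) = ∑ k, w k * (t k ⬝ᵥ t k) := by
          refine Finset.sum_congr rfl fun k _ => ?_
          rw [← Finset.sum_mul, hw1, one_mul]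
        have e4 : ∑ k, ∑ l, w k * (w l * (t l ⬝ᵥ t l)) = ∑ k, w k * (t k ⬝ᵥ t k) := by
          rw [Finset.sum_comm]
          refine Finset.sum_congr rfl fun k _ => ?_
          rw [← Finset.sum_mul, hw1, one_mul]
        rw [e3, e4]
        simp_rw [mul_sub, Finset.sum_sub_distrib, ← Finset.mul_sum]
        ring
      have e5 : a ^ 2 * (1 - ∑ k, w k ^ 2) ≤
          ∑ k, ∑ l, w k * w l * ((t k - t l) ⬝ᵥ (t k - t l)) := by
        have e6 : ∑ k, ∑ l, w k * w l * (if k = l then 0 else a ^ 2) ≤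
            ∑ k, ∑ l, w k * w l * ((t k - t l) ⬝ᵥ (t k - t l)) := by
          refine Finset.sum_le_sum fun k _ => Finset.sum_le_sum fun l _ => ?_
          refine mul_le_mul_of_nonneg_left ?_ (mul_nonneg (hwnn k) (hwnn l))
          split_ifs with h
          · exact dot_self_nonneg _
          · exact hsep k l h
        refine le_trans (le_of_eq ?_) e6
        have e7 : ∀ k l, w k * w l * (if k = l then 0 else a ^ 2) =
            a ^ 2 * (w k * w l) - (if k = l then a ^ 2 * (w k * w l) else 0) := by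
          intro k l
          split_ifs <;> ring
        simp_rw [e7, Finset.sum_sub_distrib, Finset.sum_ite_eq, Finset.mem_univ, if_true,
          ← Finset.mul_sum, hw1]
        have e9 : ∑ k, w k ^ 2 = ∑ k, w k * w k := Finset.sum_congr rfl fun k _ => by ring
        rw [e9, mul_sub, mul_one]
        simp only [mul_one, hw1]
      rw [← Finset.mul_sum]
      have e8 : ∑ k, (w k * (t k ⬝ᵥ t k - ∑ l, w l * (t l ⬝ᵥ t k))) ≥
          a ^ 2 * (1 - ∑ k, w k ^ 2) / 2 := by
        rw [e1] at e5; linarith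
      have := mul_le_mul_of_nonneg_left e8 hβ.le
      calc β * a ^ 2 / 2 * (1 - ∑ k, w k ^ 2) = β * (a ^ 2 * (1 - ∑ k, w k ^ 2) / 2) := by ring
        _ ≤ _ := this
    have h16 := mul_le_mul_of_nonneg_left h10 (show 0 ≤ β * a ^ 2 / 2 by positivity)
    linarith
  rcases hSnn.lt_or_eq with hpos | hzero
  · have h := key (Λ / (2 * S)) (by positivity)
    have h2 : Λ / (2 * S) * S / (2 * Λ) = 1 / 4 := by field_simp; norm_num
    rw [h2] at h
    have h3 : Λ / (2 * S) * a ^ 2 / 2 * (1 / 2 - 1 / 4) = a ^ 2 * Λ / (16 * S) := by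
      field_simp; ring
    rw [h3, div_le_iff₀ (by positivity)] at h
    calc a ^ 2 * Λ ≤ S * (16 * S) := h
      _ = 16 * S ^ 2 := by ring
  · have h := key 1 one_pos
    rw [← hzero] at h
    have h2 : a ^ 2 ≤ 0 := by
      have h5 : 1 * a ^ 2 / 2 * (1 / 2 - 1 * 0 / (2 * Λ)) = a ^ 2 / 4 := by ring
      rw [h5] at h; linarith
    have h3 : a ^ 2 = 0 := le_antisymm h2 (sq_nonneg a)
    rw [h3, ← hzero]
    simp

end Pool.Agent.H97.GP
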