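import Mathlib
import Pool.Agent.H97.G3

set_option autoImplicit false

open MeasureTheory ProbabilityTheory Set Filter Topology
open scoped ENNReal NNReal Matrix

namespace Pool.Agent.H97.GP

variable {E : Type*} [Fintype E]

open Classical in
/-- coordinates in `A` from the second point, the others from the first point -/
noncomputable def mix (A : Set E) (ω ω' : E → ℝ) : E → ℝ := fun e => if e ∈ A then ω' e else ω e

theorem mix_mem {A : Set E} {e : E} (h : e ∈ A) (ω ω' : E → ℝ) : mix A ω ω' e = ω' e := by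
  unfold mix; simp [h]

theorem mix_notMem {A : Set E} {e : E} (h : e ∉ A) (ω ω' : E → ℝ) : mix A ω ω' e = ω e := by
  unfold mix; simp [h]

theorem measurable_mix (A : Set E) :
    Measurable (fun p : (E → ℝ) × (E → ℝ) => mix A p.1 p.2) := by
  apply measurable_pi_lambda
  intro e
  by_cases h : e ∈ A
  · simp only [mix, h, if_true]
    exact (measurable_pi_apply e).comp measurable_snd
  · simp only [mix, h, if_false]
    exact (measurable_pi_apply e).comp measurable_fst

theorem mp_mix (A : Set E) : MeasurePreserving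
    (fun p : (E → ℝ) × (E → ℝ) => mix A p.1 p.2) ((gam E).prod (gam E)) (gam E) := by
  classical
  refine ⟨measurable_mix A, ?_⟩
  have : IsProbabilityMeasure (((gam E).prod (gam E)).map
      (fun p : (E → ℝ) × (E → ℝ) => mix A p.1 p.2)) :=
    Measure.isProbabilityMeasure_map (measurable_mix A).aemeasurable
  apply ext_dot
  intro t
  have mt : Measurable (fun ω : E → ℝ => Complex.exp (((t ⬝ᵥ ω : ℝ) : ℂ) * Complex.I)) := by
    unfold dotProduct
    fun_prop
  rw [integral_map (measurable_mix A).aemeasurable mt.aestronglyMeasurable]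
  set t1 : E → ℝ := fun e => if e ∈ A then 0 else t e with ht1
  set t2 : E → ℝ := fun e => if e ∈ A then t e else 0 with ht2
  have e1 : ∀ p : (E → ℝ) × (E → ℝ),
      Complex.exp (((t ⬝ᵥ (mix A p.1 p.2) : ℝ) : ℂ) * Complex.I) =
      Complex.exp (((t1 ⬝ᵥ p.1 : ℝ) : ℂ) * Complex.I) *
        Complex.exp (((t2 ⬝ᵥ p.2 : ℝ) : ℂ) * Complex.I) := by
    intro p
    have h1 : t ⬝ᵥ (mix A p.1 p.2) = t1 ⬝ᵥ p.1 + t2 ⬝ᵥ p.2 := by
      unfold dotProduct
      rw [← Finset.sum_add_distrib]
      refine Finset.sum_congr rfl fun e _ => ?_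
      by_cases h : e ∈ A <;> simp [mix, t1, t2, h]
    rw [h1, ← Complex.exp_add]
    congr 1
    push_cast
    ring
  simp_rw [e1]
  rw [integral_prod_mul (fun ω => Complex.exp (((t1 ⬝ᵥ ω : ℝ) : ℂ) * Complex.I))
    (fun ω => Complex.exp (((t2 ⬝ᵥ ω : ℝ) : ℂ) * Complex.I)), cexp_dot, cexp_dot, cexp_dot,
    ← Complex.exp_add]
  congr 1
  have h2 : t ⬝ᵥ t = t1 ⬝ᵥ t1 + t2 ⬝ᵥ t2 := by
    unfold dotProduct
    rw [← Finset.sum_add_distrib]
    refine Finset.sum_congr rfl fun e _ => ?_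
    by_cases h : e ∈ A <;> simp [t1, t2, h]
  rw [h2]
  push_cast
  ring

/-- bound through conditioning -/
theorem gam_le_of_mix (A : Set E) {S : Set (E → ℝ)} (hS : MeasurableSet S) {c : ℝ≥0∞}
    (h : ∀ ω, (gam E) {ω' | mix A ω ω' ∈ S} ≤ c) : (gam E) S ≤ c := by
  have h1 := (mp_mix A).measure_preimage hS.nullMeasurableSet
  rw [← h1, Measure.prod_apply ((measurable_mix A) hS)]
  calc ∫⁻ x, (gam E) (Prod.mk x ⁻¹' ((fun p : (E → ℝ) × (E → ℝ) => mix A p.1 p.2) ⁻¹' S)) ∂(gam E)
      ≤ ∫⁻ _x : E → ℝ, c ∂(gam E) := lintegral_mono fun x => h x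
    _ = c := by simp

/-! bilinear forms -/

variable {n : ℕ}

/-- outer product -/
def outer (x y : Fin n → ℝ) : Fin n × Fin n → ℝ := fun e => x e.1 * y e.2

/-- bilinear form -/
def bil (Z : Fin n × Fin n → ℝ) (x y : Fin n → ℝ) : ℝ := outer x y ⬝ᵥ Z

/-- quadratic form -/
def qf (Z : Fin n × Fin n → ℝ) (x : Fin n → ℝ) : ℝ := bil Z x x

/-- linear form attached to row and column `i` -/
def ell (i : Fin n) (Z : Fin n × Fin n → ℝ) (y : Fin n → ℝ) : ℝ :=
  bil Z (Pi.single i 1) y + bil Z y (Pi.single i 1)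

theorem bil_eq (Z : Fin n × Fin n → ℝ) (x y : Fin n → ℝ) :
    bil Z x y = ∑ i, ∑ j, x i * y j * Z (i, j) := by
  unfold bil dotProduct outer
  rw [Fintype.sum_prod_type]

theorem bil_add_left (Z : Fin n × Fin n → ℝ) (x x' y : Fin n → ℝ) :
    bil Z (x + x') y = bil Z x y + bil Z x' y := by
  simp only [bil_eq, Pi.add_apply, add_mul, Finset.sum_add_distrib]

theorem bil_add_right (Z : Fin n × Fin n → ℝ) (x y y' : Fin n → ℝ) :
    bil Z x (y + y') = bil Z x y + bil Z x y' := by
  simp only [bil_eq, Pi.add_apply, add_mul, mul_add, Finset.sum_add_distrib]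

theorem bil_smul_left (Z : Fin n × Fin n → ℝ) (c : ℝ) (x y : Fin n → ℝ) :
    bil Z (c • x) y = c * bil Z x y := by
  simp only [bil_eq, Pi.smul_apply, smul_eq_mul, Finset.mul_sum]
  exact Finset.sum_congr rfl fun i _ => Finset.sum_congr rfl fun j _ => by ring

theorem bil_smul_right (Z : Fin n × Fin n → ℝ) (c : ℝ) (x y : Fin n → ℝ) :
    bil Z x (c • y) = c * bil Z x y := by
  simp only [bil_eq, Pi.smul_apply, smul_eq_mul, Finset.mul_sum]
  exact Finset.sum_congr rfl fun i _ => Finset.sum_congr rfl fun j _ => by ring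

theorem bil_sub_left (Z : Fin n × Fin n → ℝ) (x x' y : Fin n → ℝ) :
    bil Z (x - x') y = bil Z x y - bil Z x' y := by
  simp only [bil_eq, Pi.sub_apply, sub_mul, Finset.sum_sub_distrib]

theorem bil_sub_right (Z : Fin n × Fin n → ℝ) (x y y' : Fin n → ℝ) :
    bil Z x (y - y') = bil Z x y - bil Z x y' := by
  simp only [bil_eq, Pi.sub_apply, sub_mul, mul_sub, Finset.sum_sub_distrib]

theorem bil_neg_left (Z : Fin n × Fin n → ℝ) (x y : Fin n → ℝ) :
    bil Z (-x) y = - bil Z x y := by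
  simp only [bil_eq, Pi.neg_apply, neg_mul, Finset.sum_neg_distrib]

theorem bil_neg_right (Z : Fin n × Fin n → ℝ) (x y : Fin n → ℝ) :
    bil Z x (-y) = - bil Z x y := by
  simp only [bil_eq, Pi.neg_apply, neg_mul, mul_neg, Finset.sum_neg_distrib]

theorem bil_add_mat (Z Z' : Fin n × Fin n → ℝ) (x y : Fin n → ℝ) :
    bil (Z + Z') x y = bil Z x y + bil Z' x y := by
  unfold bil; rw [dotProduct_add]

theorem bil_smul_mat (c : ℝ) (Z : Fin n × Fin n → ℝ) (x y : Fin n → ℝ) :
    bil (c • Z) x y = c * bil Z x y := by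
  unfold bil; rw [dotProduct_smul, smul_eq_mul]

theorem outer_dot (x y x' y' : Fin n → ℝ) :
    outer x y ⬝ᵥ outer x' y' = (x ⬝ᵥ x') * (y ⬝ᵥ y') := by
  unfold outer dotProduct
  rw [Fintype.sum_prod_type, Finset.sum_mul_sum]
  exact Finset.sum_congr rfl fun i _ => Finset.sum_congr rfl fun j _ => by ring

theorem ell_smul (i : Fin n) (Z : Fin n × Fin n → ℝ) (c : ℝ) (y : Fin n → ℝ) :
    ell i Z (c • y) = c * ell i Z y := by
  unfold ell; rw [bil_smul_left, bil_smul_right]; ring

theorem ell_add (i : Fin n) (Z : Fin n × Fin n → ℝ) (y y' : Fin n → ℝ) :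
    ell i Z (y + y') = ell i Z y + ell i Z y' := by
  unfold ell; rw [bil_add_left, bil_add_right]; ring

theorem ell_sub (i : Fin n) (Z : Fin n × Fin n → ℝ) (y y' : Fin n → ℝ) :
    ell i Z (y - y') = ell i Z y - ell i Z y' := by
  unfold ell; rw [bil_sub_left, bil_sub_right]; ring

theorem ell_dot (i : Fin n) (Z : Fin n × Fin n → ℝ) (y : Fin n → ℝ) :
    ell i Z y = (outer (Pi.single i 1) y + outer y (Pi.single i 1)) ⬝ᵥ Z := by
  unfold ell bil; rw [add_dotProduct]

theorem ell_var (i : Fin n) (y : Fin n → ℝ) :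
    (outer (Pi.single i 1) y + outer y (Pi.single i 1)) ⬝ᵥ
      (outer (Pi.single i 1) y + outer y (Pi.single i 1)) = 2 * (y ⬝ᵥ y) + 2 * y i ^ 2 := by
  simp only [add_dotProduct, dotProduct_add, outer_dot]
  simp only [single_dotProduct, dotProduct_single, Pi.single_eq_same]
  ring

/-- expansion of the quadratic form in one coordinate direction -/
theorem qf_add_single (Z : Fin n × Fin n → ℝ) (y : Fin n → ℝ) (i : Fin n) (s : ℝ) :
    qf Z (y + s • Pi.single i 1) = qf Z y + s * ell i Z y + s ^ 2 * Z (i, i) := by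
  unfold qf ell
  rw [bil_add_left, bil_add_right, bil_add_right, bil_smul_left, bil_smul_right, bil_smul_left,
    bil_smul_right]
  have h : bil Z (Pi.single i 1) (Pi.single i 1) = Z (i, i) := by
    rw [bil_eq]
    simp [Pi.single_apply]
  rw [h]
  ring

end Pool.Agent.H97.GP
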