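import Mathlib
import Pool.Agent.H97.G4

set_option autoImplicit false

open MeasureTheory ProbabilityTheory Set Filter Topology
open scoped ENNReal NNReal Matrix

namespace Pool.Agent.H97.GP

/-- maximum of finitely many linear functionals -/
noncomputable def mx {E κ : Type*} [Fintype E] [Fintype κ] [Nonempty κ] (t : κ → E → ℝ)
    (ω : E → ℝ) : ℝ :=
  Finset.univ.sup' Finset.univ_nonempty (fun k => t k ⬝ᵥ ω)

section
variable {E κ : Type*} [Fintype E] [Fintype κ] [Nonempty κ] (t : κ → E → ℝ)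

theorem le_mx (k : κ) (ω : E → ℝ) : t k ⬝ᵥ ω ≤ mx t ω :=
  Finset.le_sup' (fun k => t k ⬝ᵥ ω) (Finset.mem_univ k)

theorem exists_mx (ω : E → ℝ) : ∃ k, mx t ω = t k ⬝ᵥ ω := by
  obtain ⟨k, -, hk⟩ := Finset.exists_mem_eq_sup' Finset.univ_nonempty (fun k => t k ⬝ᵥ ω)
  exact ⟨k, hk⟩

theorem measurable_mx : Measurable (mx t) := by
  unfold mx
  have h : (fun ω => Finset.univ.sup' Finset.univ_nonempty (fun k => t k ⬝ᵥ ω)) =
      Finset.univ.sup' Finset.univ_nonempty (fun k => fun ω => t k ⬝ᵥ ω) := by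
    funext ω
    rw [Finset.sup'_apply]
  rw [h]
  exact Finset.measurable_sup' _ fun k _ => measurable_dot (t k)

theorem integrable_mx : Integrable (mx t) (gam E) := by
  have h : Integrable (fun ω => ∑ k, |t k ⬝ᵥ ω|) (gam E) :=
    integrable_finsetSum _ fun k _ => (integrable_dot (t k)).abs
  refine h.mono' (measurable_mx t).aestronglyMeasurable (Eventually.of_forall fun ω => ?_)
  obtain ⟨k, hk⟩ := exists_mx t ω
  rw [hk, Real.norm_eq_abs]
  exact Finset.single_le_sum (f := fun k => |t k ⬝ᵥ ω|) (fun _ _ => abs_nonneg _)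
    (Finset.mem_univ k)

end

/-- rounding towards zero -/
noncomputable def rd (a : ℝ) : ℤ := if 0 ≤ a then ⌊a⌋ else ⌈a⌉

theorem rd_abs_le (a : ℝ) : |(rd a : ℝ)| ≤ |a| := by
  unfold rd
  split_ifs with h
  · rw [abs_of_nonneg h, abs_of_nonneg (by exact_mod_cast Int.floor_nonneg.2 h)]
    exact Int.floor_le a
  · push Not at h
    have h1 : (⌈a⌉ : ℝ) ≤ 0 := by
      have : ⌈a⌉ ≤ 0 := Int.ceil_le.2 (by simpa using h.le)
      exact_mod_cast this
    rw [abs_of_neg h, abs_of_nonpos h1]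
    have := Int.le_ceil a
    linarith

theorem rd_sub_le (a : ℝ) : |a - rd a| ≤ 1 := by
  unfold rd
  split_ifs with h
  · have h1 := Int.floor_le a
    have h2 := Int.lt_floor_add_one a
    rw [abs_le]; constructor <;> linarith
  · have h1 := Int.le_ceil a
    have h2 := Int.ceil_lt_add_one a
    rw [abs_le]; constructor <;> linarith

variable {n : ℕ}

/-- raw grid point -/
noncomputable def gp0 (g : Fin n → Fin (8 * n + 1)) : Fin n → ℝ :=
  fun i => (((g i : ℕ) : ℝ) - 4 * n) / (4 * Real.sqrt n)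

open Classical in
/-- grid point, replaced by zero outside of the unit ball -/
noncomputable def gp (g : Fin n → Fin (8 * n + 1)) : Fin n → ℝ :=
  if gp0 g ⬝ᵥ gp0 g ≤ 1 then gp0 g else 0

theorem gp_le (g : Fin n → Fin (8 * n + 1)) : gp g ⬝ᵥ gp g ≤ 1 := by
  unfold gp
  split_ifs with h
  · exact h
  · simp

theorem exists_gp (hn : 0 < n) {x : Fin n → ℝ} (hx : x ⬝ᵥ x ≤ 1) :
    ∃ g : Fin n → Fin (8 * n + 1), (x - gp g) ⬝ᵥ (x - gp g) ≤ 1 / 16 := by
  have hn' : (0 : ℝ) < n := by exact_mod_cast hn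
  have hn1 : (1 : ℝ) ≤ n := by exact_mod_cast hn
  set s := Real.sqrt n with hs
  have hspos : 0 < s := Real.sqrt_pos.2 hn'
  have hss : s * s = n := Real.mul_self_sqrt hn'.le
  have hsle : s ≤ n := by nlinarith
  have hxi : ∀ i, |x i| ≤ 1 := by
    intro i
    have h1 : x i * x i ≤ x ⬝ᵥ x :=
      Finset.single_le_sum (f := fun i => x i * x i) (fun _ _ => mul_self_nonneg _)
        (Finset.mem_univ i)
    rw [abs_le]
    constructor <;> nlinarith
  have hb : ∀ i, |(rd (4 * s * x i) : ℝ)| ≤ 4 * n := by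
    intro i
    refine (rd_abs_le _).trans ?_
    rw [abs_mul, abs_of_pos (by positivity)]
    have := hxi i
    have h2 : 4 * s * |x i| ≤ 4 * s * 1 := mul_le_mul_of_nonneg_left this (by positivity)
    linarith
  have hb1 : ∀ i, (-(4 * (n : ℤ)) ≤ rd (4 * s * x i)) ∧ rd (4 * s * x i) ≤ 4 * (n : ℤ) := by
    intro i
    have h1 := abs_le.1 (hb i)
    constructor
    · have := h1.1
      exact_mod_cast this
    · have := h1.2
      exact_mod_cast this
  have hlt : ∀ i, (rd (4 * s * x i) + 4 * (n : ℤ)).toNat < 8 * n + 1 := by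
    intro i
    have := hb1 i
    omega
  set g : Fin n → Fin (8 * n + 1) := fun i => ⟨(rd (4 * s * x i) + 4 * (n : ℤ)).toNat, hlt i⟩ with hg
  have hg0 : ∀ i, gp0 g i = (rd (4 * s * x i) : ℝ) / (4 * s) := by
    intro i
    unfold gp0
    have h1 : ((g i : ℕ) : ℤ) = rd (4 * s * x i) + 4 * (n : ℤ) := by
      have := hb1 i
      change (((rd (4 * s * x i) + 4 * (n : ℤ)).toNat : ℕ) : ℤ) = _
      omega
    have h2 : ((g i : ℕ) : ℝ) = (rd (4 * s * x i) : ℝ) + 4 * n := by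
      have : (((g i : ℕ) : ℤ) : ℝ) = ((rd (4 * s * x i) + 4 * (n : ℤ) : ℤ) : ℝ) := by rw [h1]
      push_cast at this
      exact this
    rw [h2]
    congr 1
    ring
  have habs : ∀ i, |gp0 g i| ≤ |x i| := by
    intro i
    rw [hg0, abs_div, abs_of_pos (show 0 < 4 * s by positivity), div_le_iff₀ (by positivity)]
    refine (rd_abs_le _).trans ?_
    rw [abs_mul, abs_of_pos (show 0 < 4 * s by positivity)]
    linarith
  have hle1 : gp0 g ⬝ᵥ gp0 g ≤ 1 := by
    refine le_trans ?_ hx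
    refine Finset.sum_le_sum fun i _ => ?_
    rw [← abs_mul_abs_self, ← abs_mul_abs_self (x i)]
    exact mul_self_le_mul_self (abs_nonneg _) (habs i)
  refine ⟨g, ?_⟩
  have hgp : gp g = gp0 g := by unfold gp; rw [if_pos hle1]
  rw [hgp]
  have hdiff : ∀ i, |x i - gp0 g i| ≤ 1 / (4 * s) := by
    intro i
    have h1 : x i - gp0 g i = (4 * s * x i - rd (4 * s * x i)) / (4 * s) := by
      rw [hg0]; field_simp
    rw [h1, abs_div, abs_of_pos (show 0 < 4 * s by positivity)]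
    exact div_le_div_of_nonneg_right (rd_sub_le _) (by positivity)
  calc (x - gp0 g) ⬝ᵥ (x - gp0 g) ≤ ∑ _i : Fin n, (1 / (4 * s)) * (1 / (4 * s)) := by
        refine Finset.sum_le_sum fun i _ => ?_
        rw [Pi.sub_apply, ← abs_mul_abs_self]
        exact mul_self_le_mul_self (abs_nonneg _) (hdiff i)
    _ = 1 / 16 := by
        rw [Finset.sum_const, Finset.card_univ, Fintype.card_fin, nsmul_eq_mul]
        field_simp
        nlinarith

/-- vectors attached to pairs of grid points -/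
noncomputable def gt (k : (Fin n → Fin (8 * n + 1)) × (Fin n → Fin (8 * n + 1))) :
    Fin n × Fin n → ℝ := outer (gp k.1) (gp k.2)

/-- upper bound for the operator norm -/
noncomputable def opn (Z : Fin n × Fin n → ℝ) : ℝ := 2 * mx gt Z

theorem abs_bil_le_sum (Z : Fin n × Fin n → ℝ) {x y : Fin n → ℝ} (hx : ∀ i, |x i| ≤ 1)
    (hy : ∀ i, |y i| ≤ 1) : |bil Z x y| ≤ ∑ e, |Z e| := by
  unfold bil dotProduct outer
  refine (Finset.abs_sum_le_sum_abs _ _).trans (Finset.sum_le_sum fun e _ => ?_)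
  rw [abs_mul, abs_mul]
  have h1 : |x e.1| * |y e.2| ≤ 1 := mul_le_one₀ (hx _) (abs_nonneg _) (hy _)
  exact mul_le_of_le_one_left (abs_nonneg _) h1

theorem coord_le_one {x : Fin n → ℝ} (hx : x ⬝ᵥ x ≤ 1) (i : Fin n) : |x i| ≤ 1 := by
  have h1 : x i * x i ≤ x ⬝ᵥ x :=
    Finset.single_le_sum (f := fun i => x i * x i) (fun _ _ => mul_self_nonneg _)
      (Finset.mem_univ i)
  rw [abs_le]
  constructor <;> nlinarith

theorem bil_le_opn_one (hn : 0 < n) (Z : Fin n × Fin n → ℝ) {x y : Fin n → ℝ} (hx : x ⬝ᵥ x ≤ 1)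
    (hy : y ⬝ᵥ y ≤ 1) : bil Z x y ≤ opn Z := by
  set A : Set ℝ := {r | ∃ x y : Fin n → ℝ, x ⬝ᵥ x ≤ 1 ∧ y ⬝ᵥ y ≤ 1 ∧ r = bil Z x y} with hA
  have hbdd : BddAbove A := by
    refine ⟨∑ e, |Z e|, ?_⟩
    rintro r ⟨x, y, hx, hy, rfl⟩
    exact (le_abs_self _).trans (abs_bil_le_sum Z (coord_le_one hx) (coord_le_one hy))
  have hne : A.Nonempty := ⟨_, 0, 0, by simp, by simp, rfl⟩
  have hmem : ∀ {x y : Fin n → ℝ}, x ⬝ᵥ x ≤ 1 → y ⬝ᵥ y ≤ 1 → bil Z x y ≤ sSup A :=
    fun hx hy => le_csSup hbdd ⟨_, _, hx, hy, rfl⟩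
  have hmem4 : ∀ {x y : Fin n → ℝ}, x ⬝ᵥ x ≤ 1 / 16 → y ⬝ᵥ y ≤ 1 → bil Z x y ≤ sSup A / 4 := by
    intro x y hx hy
    have h1 : ((4 : ℝ) • x) ⬝ᵥ ((4 : ℝ) • x) ≤ 1 := by
      rw [smul_dotProduct, dotProduct_smul, smul_eq_mul, smul_eq_mul]; linarith
    have := hmem h1 hy
    rw [bil_smul_left] at this
    linarith
  have hmem4' : ∀ {x y : Fin n → ℝ}, x ⬝ᵥ x ≤ 1 → y ⬝ᵥ y ≤ 1 / 16 → bil Z x y ≤ sSup A / 4 := by
    intro x y hx hy
    have h1 : ((4 : ℝ) • y) ⬝ᵥ ((4 : ℝ) • y) ≤ 1 := by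
      rw [smul_dotProduct, dotProduct_smul, smul_eq_mul, smul_eq_mul]; linarith
    have := hmem hx h1
    rw [bil_smul_right] at this
    linarith
  have hS : sSup A ≤ mx gt Z + sSup A / 2 := by
    refine csSup_le hne ?_
    rintro r ⟨x, y, hx, hy, rfl⟩
    obtain ⟨g, hg⟩ := exists_gp hn hx
    obtain ⟨g', hg'⟩ := exists_gp hn hy
    have h1 : bil Z x y = bil Z (gp g) (gp g') + bil Z (x - gp g) y + bil Z (gp g) (y - gp g') := by
      rw [bil_sub_left, bil_sub_right]; ring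
    have h2 : bil Z (gp g) (gp g') ≤ mx gt Z := le_mx gt (g, g') Z
    have h3 := hmem4 hg hy
    have h4 := hmem4' (gp_le g) hg'
    rw [h1]
    linarith
  have h5 := hmem hx hy
  unfold opn
  linarith

theorem opn_nonneg (hn : 0 < n) (Z : Fin n × Fin n → ℝ) : 0 ≤ opn Z := by
  have := bil_le_opn_one hn Z (x := 0) (y := 0) (by simp) (by simp)
  have h2 : bil Z 0 0 = 0 := by rw [bil_eq]; simp
  linarith

theorem dot_zero_of {x : Fin n → ℝ} (h : x ⬝ᵥ x = 0) : x = 0 := dotProduct_self_eq_zero.1 h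

theorem bil_le_opn (hn : 0 < n) (Z : Fin n × Fin n → ℝ) (x y : Fin n → ℝ) :
    bil Z x y ≤ opn Z * (Real.sqrt (x ⬝ᵥ x) * Real.sqrt (y ⬝ᵥ y)) := by
  have h0 : ∀ (x : Fin n → ℝ), 0 ≤ x ⬝ᵥ x := fun x => dot_self_nonneg x
  by_cases hx : x ⬝ᵥ x = 0
  · rw [dot_zero_of hx]
    have : bil Z 0 y = 0 := by rw [bil_eq]; simp
    rw [this]; simp
  by_cases hy : y ⬝ᵥ y = 0
  · rw [dot_zero_of hy]
    have : bil Z x 0 = 0 := by rw [bil_eq]; simp
    rw [this]; simp
  have hx' : 0 < Real.sqrt (x ⬝ᵥ x) := Real.sqrt_pos.2 (lt_of_le_of_ne (h0 x) (Ne.symm hx))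
  have hy' : 0 < Real.sqrt (y ⬝ᵥ y) := Real.sqrt_pos.2 (lt_of_le_of_ne (h0 y) (Ne.symm hy))
  have hu : ∀ (x : Fin n → ℝ), 0 < Real.sqrt (x ⬝ᵥ x) →
      ((Real.sqrt (x ⬝ᵥ x))⁻¹ • x) ⬝ᵥ ((Real.sqrt (x ⬝ᵥ x))⁻¹ • x) ≤ 1 := by
    intro x hx
    rw [smul_dotProduct, dotProduct_smul, smul_eq_mul, smul_eq_mul, ← mul_assoc, ← mul_inv,
      Real.mul_self_sqrt (h0 x)]
    exact inv_mul_le_one
  have h := bil_le_opn_one hn Z (hu x hx') (hu y hy')
  rw [bil_smul_left, bil_smul_right] at h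
  have h1 : bil Z x y = (Real.sqrt (x ⬝ᵥ x) * Real.sqrt (y ⬝ᵥ y)) *
      ((Real.sqrt (x ⬝ᵥ x))⁻¹ * ((Real.sqrt (y ⬝ᵥ y))⁻¹ * bil Z x y)) := by
    field_simp
  rw [h1, mul_comm (opn Z)]
  exact mul_le_mul_of_nonneg_left h (by positivity)

theorem abs_bil_le_opn (hn : 0 < n) (Z : Fin n × Fin n → ℝ) (x y : Fin n → ℝ) :
    |bil Z x y| ≤ opn Z * (Real.sqrt (x ⬝ᵥ x) * Real.sqrt (y ⬝ᵥ y)) := by
  rw [abs_le]
  refine ⟨?_, bil_le_opn hn Z x y⟩
  have := bil_le_opn hn Z (-x) y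
  rw [bil_neg_left, neg_dotProduct_neg] at this
  linarith

theorem qf_le_opn (hn : 0 < n) (Z : Fin n × Fin n → ℝ) (x : Fin n → ℝ) :
    qf Z x ≤ opn Z * (x ⬝ᵥ x) := by
  have := bil_le_opn hn Z x x
  rw [Real.mul_self_sqrt (dot_self_nonneg x)] at this
  exact this

theorem abs_ell_le_opn (hn : 0 < n) (i : Fin n) (Z : Fin n × Fin n → ℝ) (x : Fin n → ℝ) :
    |ell i Z x| ≤ 2 * opn Z * Real.sqrt (x ⬝ᵥ x) := by
  unfold ell
  have h1 := abs_bil_le_opn hn Z (Pi.single i 1) x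
  have h2 := abs_bil_le_opn hn Z x (Pi.single i 1)
  have h3 : (Pi.single i (1 : ℝ) : Fin n → ℝ) ⬝ᵥ Pi.single i (1 : ℝ) = 1 := by simp
  rw [h3, Real.sqrt_one] at h1 h2
  refine (abs_add_le _ _).trans ?_
  linarith

theorem abs_diag_le_opn (hn : 0 < n) (i : Fin n) (Z : Fin n × Fin n → ℝ) :
    |Z (i, i)| ≤ opn Z := by
  have h1 := abs_bil_le_opn hn Z (Pi.single i 1) (Pi.single i 1)
  have h3 : (Pi.single i (1 : ℝ) : Fin n → ℝ) ⬝ᵥ Pi.single i (1 : ℝ) = 1 := by simp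
  have h : bil Z (Pi.single i 1) (Pi.single i 1) = Z (i, i) := by
    rw [bil_eq]
    simp [Pi.single_apply]
  rw [h3, Real.sqrt_one, h] at h1
  linarith

theorem measurable_opn : Measurable (opn (n := n)) := by
  unfold opn
  exact (measurable_mx gt).const_mul 2

theorem integrable_opn : Integrable (opn (n := n)) (gam (Fin n × Fin n)) := by
  unfold opn
  exact (integrable_mx gt).const_mul 2

/-- expected operator norm -/
theorem integral_opn_le (hn : 9 ≤ n) :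
    ∫ Z, opn Z ∂(gam (Fin n × Fin n)) ≤ 9 * Real.sqrt (n * Real.log n) := by
  have hn' : (9 : ℝ) ≤ n := by exact_mod_cast hn
  have hL : 1 ≤ Real.log n := by
    have : Real.exp 1 ≤ 9 := by have := Real.exp_one_lt_d9; linarith
    rw [Real.le_log_iff_exp_le (by linarith)]
    linarith
  set b : ℝ := Real.sqrt (n * Real.log n) with hb
  have hpos : 0 < (n : ℝ) * Real.log n := by positivity
  have hbpos : 0 < b := Real.sqrt_pos.2 hpos
  have hbb : b ^ 2 = n * Real.log n := Real.sq_sqrt hpos.le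
  have h := emax_le (E := Fin n × Fin n) (gt (n := n)) (σ := 1) hbpos (fun k => by
      unfold gt
      rw [outer_dot, one_pow]
      exact mul_le_one₀ (gp_le _) (dot_self_nonneg _) (gp_le _)) (integrable_mx gt)
    (fun ω => by
      obtain ⟨k, hk⟩ := exists_mx gt ω
      exact ⟨k, hk.le⟩)
  have hcard : Real.log (Fintype.card ((Fin n → Fin (8 * n + 1)) × (Fin n → Fin (8 * n + 1)))) ≤
      4 * (n * Real.log n) := by
    rw [Fintype.card_prod, Fintype.card_fun, Fintype.card_fin, Fintype.card_fin]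
    push_cast
    rw [← pow_add, Real.log_pow]
    have h1 : Real.log (8 * (n : ℝ) + 1) ≤ 2 * Real.log n := by
      have h2 : 2 * Real.log n = Real.log ((n : ℝ) ^ 2) := by rw [Real.log_pow]; norm_num
      rw [h2]
      apply Real.log_le_log (by positivity)
      nlinarith
    push_cast
    nlinarith
  unfold opn
  rw [integral_const_mul]
  have h3 : (Real.log (Fintype.card ((Fin n → Fin (8 * n + 1)) × (Fin n → Fin (8 * n + 1)))) +
      b ^ 2 * 1 ^ 2 / 2) / b ≤ 9 / 2 * b := by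
    rw [div_le_iff₀ hbpos]
    nlinarith
  linarith

end Pool.Agent.H97.GP
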