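import Mathlib
import Pool.Agent.H97.G5

set_option autoImplicit false

open MeasureTheory ProbabilityTheory Set Filter Topology
open scoped ENNReal NNReal Matrix

namespace Pool.Agent.H97.GP

variable {n : ℕ}

/-- supremum of the quadratic form over a set -/
noncomputable def Ms (S : Set (Fin n → ℝ)) (Z : Fin n × Fin n → ℝ) : ℝ := sSup (qf Z '' S)

/-- sets contained in the unit cube -/
def InCube (S : Set (Fin n → ℝ)) : Prop := ∀ x ∈ S, ∀ i, |x i| ≤ 1

theorem qf_abs_le {S : Set (Fin n → ℝ)} (hS : InCube S) (Z : Fin n × Fin n → ℝ) {x : Fin n → ℝ}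
    (hx : x ∈ S) : |qf Z x| ≤ ∑ e, |Z e| :=
  abs_bil_le_sum Z (hS x hx) (hS x hx)

theorem bdd_qf {S : Set (Fin n → ℝ)} (hS : InCube S) (Z : Fin n × Fin n → ℝ) :
    BddAbove (qf Z '' S) := by
  refine ⟨∑ e, |Z e|, ?_⟩
  rintro r ⟨x, hx, rfl⟩
  exact (le_abs_self _).trans (qf_abs_le hS Z hx)

theorem qf_le_Ms {S : Set (Fin n → ℝ)} (hS : InCube S) (Z : Fin n × Fin n → ℝ) {x : Fin n → ℝ}
    (hx : x ∈ S) : qf Z x ≤ Ms S Z :=
  le_csSup (bdd_qf hS Z) ⟨x, hx, rfl⟩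

theorem Ms_le {S : Set (Fin n → ℝ)} (hne : S.Nonempty) (Z : Fin n × Fin n → ℝ) {c : ℝ}
    (h : ∀ x ∈ S, qf Z x ≤ c) : Ms S Z ≤ c := by
  refine csSup_le (hne.image _) ?_
  rintro r ⟨x, hx, rfl⟩
  exact h x hx

theorem exists_near {S : Set (Fin n → ℝ)} (hne : S.Nonempty) (Z : Fin n × Fin n → ℝ) {ε : ℝ}
    (hε : 0 < ε) : ∃ x ∈ S, Ms S Z - ε < qf Z x := by
  obtain ⟨r, ⟨x, hx, rfl⟩, h⟩ := exists_lt_of_lt_csSup (hne.image (qf Z))
    (show Ms S Z - ε < sSup (qf Z '' S) by unfold Ms; linarith)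
  exact ⟨x, hx, h⟩

theorem qf_add_mat (Z Z' : Fin n × Fin n → ℝ) (x : Fin n → ℝ) :
    qf (Z + Z') x = qf Z x + qf Z' x := bil_add_mat Z Z' x x

theorem qf_smul_mat (c : ℝ) (Z : Fin n × Fin n → ℝ) (x : Fin n → ℝ) :
    qf (c • Z) x = c * qf Z x := bil_smul_mat c Z x x

theorem Ms_lip {S : Set (Fin n → ℝ)} (hS : InCube S) (hne : S.Nonempty)
    (Z Z' : Fin n × Fin n → ℝ) : Ms S Z ≤ Ms S Z' + ∑ e, |Z e - Z' e| := by
  refine Ms_le hne Z fun x hx => ?_
  have h1 : qf Z x = qf Z' x + qf (Z - Z') x := by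
    rw [← qf_add_mat]; congr 1; ring
  have h2 := qf_abs_le hS (Z - Z') hx
  have h3 := qf_le_Ms hS Z' hx
  have h4 := le_abs_self (qf (Z - Z') x)
  simp only [Pi.sub_apply] at h2
  linarith

theorem continuous_Ms {S : Set (Fin n → ℝ)} (hS : InCube S) (hne : S.Nonempty) :
    Continuous (Ms S) := by
  rw [continuous_iff_continuousAt]
  intro Z
  rw [ContinuousAt, tendsto_iff_dist_tendsto_zero]
  have h1 : Tendsto (fun Z' : Fin n × Fin n → ℝ => ∑ e, |Z' e - Z e|) (𝓝 Z) (𝓝 0) := by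
    have hc : Continuous (fun Z' : Fin n × Fin n → ℝ => ∑ e, |Z' e - Z e|) := by fun_prop
    have := hc.tendsto Z
    simpa using this
  refine squeeze_zero (fun _ => dist_nonneg) (fun Z' => ?_) h1
  rw [Real.dist_eq, abs_le]
  have h2 := Ms_lip hS hne Z' Z
  have h3 := Ms_lip hS hne Z Z'
  have h4 : ∑ e, |Z e - Z' e| = ∑ e, |Z' e - Z e| :=
    Finset.sum_congr rfl fun e _ => abs_sub_comm _ _
  constructor <;> linarith

theorem abs_Ms_le {S : Set (Fin n → ℝ)} (hS : InCube S) (hne : S.Nonempty)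
    (Z : Fin n × Fin n → ℝ) : |Ms S Z| ≤ ∑ e, |Z e| := by
  rw [abs_le]
  constructor
  · obtain ⟨x, hx⟩ := hne
    have h1 := qf_le_Ms hS Z hx
    have h2 := qf_abs_le hS Z hx
    have := abs_le.1 h2
    linarith
  · exact Ms_le hne Z fun x hx => (le_abs_self _).trans (qf_abs_le hS Z hx)

theorem integrable_Ms {S : Set (Fin n → ℝ)} (hS : InCube S) (hne : S.Nonempty) :
    Integrable (Ms S) (gam (Fin n × Fin n)) := by
  have h : Integrable (fun Z : Fin n × Fin n → ℝ => ∑ e, |Z e|) (gam (Fin n × Fin n)) :=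
    integrable_finsetSum _ fun e _ => (integrable_coord e).abs
  refine h.mono' (continuous_Ms hS hne).aestronglyMeasurable (Eventually.of_forall fun Z => ?_)
  exact abs_Ms_le hS hne Z

theorem integrable_Ms_add {S : Set (Fin n → ℝ)} (hS : InCube S) (hne : S.Nonempty)
    (Z : Fin n × Fin n → ℝ) (s : ℝ) :
    Integrable (fun H => Ms S (Z + s • H)) (gam (Fin n × Fin n)) := by
  have h : Integrable (fun H : Fin n × Fin n → ℝ => ∑ e, (|Z e| + |s| * |H e|))
      (gam (Fin n × Fin n)) :=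
    integrable_finsetSum _ fun e _ => (integrable_const _).add ((integrable_coord e).abs.const_mul _)
  have hc : Continuous (fun H : Fin n × Fin n → ℝ => Ms S (Z + s • H)) :=
    (continuous_Ms hS hne).comp (by fun_prop)
  refine h.mono' hc.aestronglyMeasurable (Eventually.of_forall fun H => ?_)
  refine (abs_Ms_le hS hne _).trans (Finset.sum_le_sum fun e _ => ?_)
  simp only [Pi.add_apply, Pi.smul_apply, smul_eq_mul]
  refine (abs_add_le _ _).trans ?_
  rw [abs_mul]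

theorem Ms_smul {S : Set (Fin n → ℝ)} (hS : InCube S) (hne : S.Nonempty)
    (Z : Fin n × Fin n → ℝ) {c : ℝ} (hc : 0 < c) : Ms S (c • Z) = c * Ms S Z := by
  apply le_antisymm
  · refine Ms_le hne _ fun x hx => ?_
    rw [qf_smul_mat]
    exact mul_le_mul_of_nonneg_left (qf_le_Ms hS Z hx) hc.le
  · rw [← le_div_iff₀' hc]
    refine Ms_le hne _ fun x hx => ?_
    rw [le_div_iff₀' hc, ← qf_smul_mat]
    exact qf_le_Ms hS _ hx

/-- the increment functional -/
noncomputable def Vs (S : Set (Fin n → ℝ)) (s : ℝ) (Z : Fin n × Fin n → ℝ) : ℝ :=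
  ∫ H, Ms S (Z + s • H) ∂(gam (Fin n × Fin n)) - Ms S Z

theorem integrable_qf (x : Fin n → ℝ) : Integrable (fun H => qf H x) (gam (Fin n × Fin n)) :=
  integrable_dot (outer x x)

theorem integral_qf (x : Fin n → ℝ) : ∫ H, qf H x ∂(gam (Fin n × Fin n)) = 0 :=
  integral_dot (outer x x)

theorem Vs_nonneg {S : Set (Fin n → ℝ)} (hS : InCube S) (hne : S.Nonempty)
    (Z : Fin n × Fin n → ℝ) (s : ℝ) : 0 ≤ Vs S s Z := by
  by_contra hneg
  push Not at hneg
  obtain ⟨x, hx, h⟩ := exists_near hne Z (show 0 < -Vs S s Z by linarith)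
  have h1 : qf Z x ≤ ∫ H, Ms S (Z + s • H) ∂(gam (Fin n × Fin n)) := by
    have h2 : ∫ H, (qf Z x + s * qf H x) ∂(gam (Fin n × Fin n)) = qf Z x := by
      rw [integral_add (integrable_const _) ((integrable_qf x).const_mul s), integral_const_mul,
        integral_qf]
      simp
    rw [← h2]
    refine integral_mono ((integrable_const _).add ((integrable_qf x).const_mul s))
      (integrable_Ms_add hS hne Z s) (fun H => ?_)
    change qf Z x + s * qf H x ≤ Ms S (Z + s • H)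
    rw [← qf_smul_mat, ← qf_add_mat]
    exact qf_le_Ms hS _ hx
  unfold Vs at h hneg
  linarith

theorem integrable_prod_Ms {S : Set (Fin n → ℝ)} (hS : InCube S) (hne : S.Nonempty) (s : ℝ) :
    Integrable (fun p : (Fin n × Fin n → ℝ) × (Fin n × Fin n → ℝ) => Ms S (p.1 + s • p.2))
      ((gam (Fin n × Fin n)).prod (gam (Fin n × Fin n))) := by
  have hc : Continuous (fun p : (Fin n × Fin n → ℝ) × (Fin n × Fin n → ℝ) =>
      Ms S (p.1 + s • p.2)) := (continuous_Ms hS hne).comp (by fun_prop)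
  have h1 : Integrable (fun p : (Fin n × Fin n → ℝ) × (Fin n × Fin n → ℝ) =>
      ∑ e, (|p.1 e| + |s| * |p.2 e|)) ((gam (Fin n × Fin n)).prod (gam (Fin n × Fin n))) := by
    refine integrable_finsetSum _ fun e _ => ?_
    have ha : Integrable (fun Z : Fin n × Fin n → ℝ => |Z e|) (gam (Fin n × Fin n)) :=
      (integrable_coord e).abs
    exact (ha.comp_fst _).add ((ha.comp_snd _).const_mul _)
  refine h1.mono' hc.aestronglyMeasurable (Eventually.of_forall fun p => ?_)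
  refine (abs_Ms_le hS hne _).trans (Finset.sum_le_sum fun e _ => ?_)
  simp only [Pi.add_apply, Pi.smul_apply, smul_eq_mul]
  refine (abs_add_le _ _).trans ?_
  rw [abs_mul]

theorem integrable_Vs {S : Set (Fin n → ℝ)} (hS : InCube S) (hne : S.Nonempty) (s : ℝ) :
    Integrable (Vs S s) (gam (Fin n × Fin n)) := by
  unfold Vs
  exact (integrable_prod_Ms hS hne s).integral_prod_left.sub (integrable_Ms hS hne)

/-- exact formula for the mean increment -/
theorem integral_Vs {S : Set (Fin n → ℝ)} (hS : InCube S) (hne : S.Nonempty) (s : ℝ) :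
    ∫ Z, Vs S s Z ∂(gam (Fin n × Fin n)) =
      (Real.sqrt (1 + s ^ 2) - 1) * ∫ Z, Ms S Z ∂(gam (Fin n × Fin n)) := by
  unfold Vs
  rw [integral_sub (integrable_prod_Ms hS hne s).integral_prod_left (integrable_Ms hS hne)]
  rw [← integral_prod (f := fun p : (Fin n × Fin n → ℝ) × (Fin n × Fin n → ℝ) =>
    Ms S (p.1 + s • p.2)) (integrable_prod_Ms hS hne s)]
  have m1 : Measurable (fun p : (Fin n × Fin n → ℝ) × (Fin n × Fin n → ℝ) => p.1 + s • p.2) := by
    fun_prop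
  have m2 : Measurable (fun ω : Fin n × Fin n → ℝ => Real.sqrt (1 + s ^ 2) • ω) := by fun_prop
  have h1 : ∫ p, Ms S (p.1 + s • p.2) ∂((gam (Fin n × Fin n)).prod (gam (Fin n × Fin n))) =
      ∫ Z, Ms S Z ∂(((gam (Fin n × Fin n)).prod (gam (Fin n × Fin n))).map
        (fun p => p.1 + s • p.2)) := by
    rw [integral_map m1.aemeasurable (continuous_Ms hS hne).aestronglyMeasurable]
  rw [h1, map_add_smul, integral_map m2.aemeasurable (continuous_Ms hS hne).aestronglyMeasurable]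
  have hc : 0 < Real.sqrt (1 + s ^ 2) := Real.sqrt_pos.2 (by positivity)
  simp_rw [Ms_smul hS hne _ hc]
  rw [integral_const_mul]
  ring

theorem sqrt_one_add_le (s : ℝ) : Real.sqrt (1 + s ^ 2) - 1 ≤ s ^ 2 / 2 := by
  have h : Real.sqrt (1 + s ^ 2) ≤ 1 + s ^ 2 / 2 := by
    rw [Real.sqrt_le_left (by positivity)]
    nlinarith [sq_nonneg (s ^ 2)]
  linarith

theorem Vs_markov {S : Set (Fin n → ℝ)} (hS : InCube S) (hne : S.Nonempty) {s A : ℝ}
    (hA : 0 < A) (hs : 0 < s) (hpos : 0 < ∫ Z, Ms S Z ∂(gam (Fin n × Fin n))) :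
    (gam (Fin n × Fin n)).real {Z | A * (s ^ 2 * ∫ Z, Ms S Z ∂(gam (Fin n × Fin n))) ≤ Vs S s Z} ≤
      1 / (2 * A) := by
  set m := ∫ Z, Ms S Z ∂(gam (Fin n × Fin n)) with hm
  have h := mul_meas_ge_le_integral_of_nonneg (μ := gam (Fin n × Fin n)) (f := Vs S s)
    (Eventually.of_forall fun Z => Vs_nonneg hS hne Z s) (integrable_Vs hS hne s)
    (A * (s ^ 2 * m))
  rw [integral_Vs hS hne s, ← hm] at h
  have h2 : (Real.sqrt (1 + s ^ 2) - 1) * m ≤ s ^ 2 / 2 * m :=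
    mul_le_mul_of_nonneg_right (sqrt_one_add_le s) hpos.le
  have h3 : A * (s ^ 2 * m) * (gam (Fin n × Fin n)).real {Z | A * (s ^ 2 * m) ≤ Vs S s Z} ≤
      s ^ 2 / 2 * m := h.trans h2
  have h4 : 0 < s ^ 2 * m := by positivity
  rw [le_div_iff₀ (by positivity)]
  have h5 : (gam (Fin n × Fin n)).real {Z | A * (s ^ 2 * m) ≤ Vs S s Z} * (2 * A) * (s ^ 2 * m) ≤
      1 * (s ^ 2 * m) := by linarith
  exact le_of_mul_le_mul_right h5 h4

/-- near optimal families have small Gaussian width -/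
theorem width_le {S : Set (Fin n → ℝ)} (hS : InCube S) {κ : Type*} [Fintype κ] [Nonempty κ]
    (v : κ → Fin n → ℝ) (hv : ∀ k, v k ∈ S) (Z : Fin n × Fin n → ℝ) {s D : ℝ} (hs : 0 < s)
    (hD : ∀ k, Ms S Z - D ≤ qf Z (v k)) :
    ∫ H, mx (fun k => outer (v k) (v k)) H ∂(gam (Fin n × Fin n)) ≤ (Vs S s Z + D) / s := by
  have hne : S.Nonempty := by
    obtain ⟨k⟩ := ‹Nonempty κ›
    exact ⟨v k, hv k⟩
  rw [le_div_iff₀ hs]
  have h1 : ∫ H, (Ms S Z - D + s * mx (fun k => outer (v k) (v k)) H) ∂(gam (Fin n × Fin n)) ≤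
      ∫ H, Ms S (Z + s • H) ∂(gam (Fin n × Fin n)) := by
    refine integral_mono ((integrable_const _).add ((integrable_mx _).const_mul s))
      (integrable_Ms_add hS hne Z s) (fun H => ?_)
    change Ms S Z - D + s * mx (fun k => outer (v k) (v k)) H ≤ Ms S (Z + s • H)
    obtain ⟨k, hk⟩ := exists_mx (fun k => outer (v k) (v k)) H
    rw [hk]
    have h2 := qf_le_Ms hS (Z + s • H) (hv k)
    rw [qf_add_mat, qf_smul_mat] at h2
    have h3 := hD k
    change Ms S Z - D + s * qf H (v k) ≤ _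
    linarith
  rw [integral_add (integrable_const _) ((integrable_mx _).const_mul s), integral_const_mul] at h1
  have h4 : ∫ _H : Fin n × Fin n → ℝ, (Ms S Z - D) ∂(gam (Fin n × Fin n)) = Ms S Z - D := by simp
  rw [h4] at h1
  unfold Vs
  linarith

/-- projective separation controls the distance of the rank one matrices -/
theorem outer_sep (x y : Fin n → ℝ) {ε m : ℝ} (hm : 0 ≤ m) (hx : m ≤ x ⬝ᵥ x) (hy : m ≤ y ⬝ᵥ y)
    (h1 : ε ^ 2 ≤ (x - y) ⬝ᵥ (x - y)) (h2 : ε ^ 2 ≤ (x + y) ⬝ᵥ (x + y)) :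
    ε ^ 2 * m ≤ (outer x x - outer y y) ⬝ᵥ (outer x x - outer y y) := by
  have e1 : (outer x x - outer y y) ⬝ᵥ (outer x x - outer y y) =
      (x ⬝ᵥ x) ^ 2 + (y ⬝ᵥ y) ^ 2 - 2 * (x ⬝ᵥ y) ^ 2 := by
    simp only [sub_dotProduct, dotProduct_sub, outer_dot]
    rw [dotProduct_comm y x]
    ring
  have e2 : (x - y) ⬝ᵥ (x - y) = x ⬝ᵥ x + y ⬝ᵥ y - 2 * (x ⬝ᵥ y) := by
    simp only [sub_dotProduct, dotProduct_sub]
    rw [dotProduct_comm y x]
    ring
  have e3 : (x + y) ⬝ᵥ (x + y) = x ⬝ᵥ x + y ⬝ᵥ y + 2 * (x ⬝ᵥ y) := by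
    simp only [add_dotProduct, dotProduct_add]
    rw [dotProduct_comm y x]
    ring
  rw [e1]
  rw [e2] at h1
  rw [e3] at h2
  set a := x ⬝ᵥ x
  set b := y ⬝ᵥ y
  set c := x ⬝ᵥ y
  have hε : 0 ≤ ε ^ 2 := sq_nonneg ε
  have h3 : (a + b - 2 * c) * (a + b + 2 * c) ≤ 2 * (a ^ 2 + b ^ 2 - 2 * c ^ 2) := by
    nlinarith [sq_nonneg (a - b)]
  have h4 : ε ^ 2 * (2 * m) ≤ (a + b - 2 * c) * (a + b + 2 * c) := by
    rcases le_total 0 c with hc | hc
    · have : 2 * m ≤ a + b + 2 * c := by linarith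
      exact mul_le_mul h1 this (by linarith) (by linarith)
    · have : 2 * m ≤ a + b - 2 * c := by linarith
      calc ε ^ 2 * (2 * m) ≤ (a + b + 2 * c) * (a + b - 2 * c) :=
            mul_le_mul h2 this (by linarith) (by linarith)
        _ = _ := by ring
  linarith

/-- entropy bound for near optimal families -/
theorem card_bound {S : Set (Fin n → ℝ)} (hS : InCube S) (hn : 0 < n)
    {κ : Type*} [Fintype κ] [Nonempty κ]
    (v : κ → Fin n → ℝ) (hv : ∀ k, v k ∈ S) (Z : Fin n × Fin n → ℝ) {s D A m Q μ ε : ℝ}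
    (hs : 0 < s) (hm : 0 < m) (hsD : s ^ 2 = D / m)
    (hV : Vs S s Z ≤ A * (s ^ 2 * m))
    (hD : ∀ k, Ms S Z - D ≤ qf Z (v k)) (hDpos : 0 < D) (hA : 0 ≤ A)
    (hQ : opn Z ≤ Q) (hQpos : 0 < Q) (hμ : 0 ≤ μ) (hμD : μ ≤ Ms S Z - D)
    (hsep : ∀ k l, k ≠ l → ε ^ 2 ≤ (v k - v l) ⬝ᵥ (v k - v l) ∧
      ε ^ 2 ≤ (v k + v l) ⬝ᵥ (v k + v l)) :
    ε ^ 2 * (μ / Q) * Real.log (Fintype.card κ / 2) ≤ 16 * ((A + 1) ^ 2 * (D * m)) := by
  have hnorm : ∀ k, μ / Q ≤ v k ⬝ᵥ v k := by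
    intro k
    rw [div_le_iff₀ hQpos]
    have h1 := qf_le_opn hn Z (v k)
    have h2 := hD k
    have h3 : opn Z * (v k ⬝ᵥ v k) ≤ Q * (v k ⬝ᵥ v k) :=
      mul_le_mul_of_nonneg_right hQ (dot_self_nonneg _)
    linarith
  have hμQ : 0 ≤ μ / Q := div_nonneg hμ hQpos.le
  have h := sudakov (E := Fin n × Fin n) (fun k => outer (v k) (v k))
    (a := Real.sqrt (ε ^ 2 * (μ / Q))) (integrable_mx _)
    (fun ω k => le_mx (fun k => outer (v k) (v k)) k ω) (fun k l hkl => by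
      rw [Real.sq_sqrt (by positivity)]
      exact outer_sep (v k) (v l) hμQ (hnorm k) (hnorm l) (hsep k l hkl).1 (hsep k l hkl).2)
  rw [Real.sq_sqrt (by positivity)] at h
  refine h.trans ?_
  have hw := width_le hS v hv Z hs hD
  have hw0 : 0 ≤ ∫ H, mx (fun k => outer (v k) (v k)) H ∂(gam (Fin n × Fin n)) := by
    obtain ⟨k⟩ := ‹Nonempty κ›
    rw [← integral_dot (outer (v k) (v k))]
    exact integral_mono (integrable_dot _) (integrable_mx _)
      (fun ω => le_mx (fun k => outer (v k) (v k)) k ω)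
  have h5 : (Vs S s Z + D) / s ≤ (A + 1) * D / s := by
    apply div_le_div_of_nonneg_right _ hs.le
    have : s ^ 2 * m = D := by rw [hsD]; field_simp
    rw [this] at hV
    linarith
  have h6 : (∫ H, mx (fun k => outer (v k) (v k)) H ∂(gam (Fin n × Fin n))) ^ 2 ≤
      ((A + 1) * D / s) ^ 2 := pow_le_pow_left₀ hw0 (hw.trans h5) 2
  have h7 : ((A + 1) * D / s) ^ 2 = (A + 1) ^ 2 * (D * m) := by
    rw [div_pow, hsD, mul_pow]
    field_simp
  rw [h7] at h6
  linarith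

end Pool.Agent.H97.GP
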