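import Mathlib
import Pool.Agent.H97.G6

set_option autoImplicit false

open MeasureTheory ProbabilityTheory Set Filter Topology
open scoped ENNReal NNReal Matrix

namespace Pool.Agent.H97.GP

variable {n : ℕ}

/-- the unit ball of `ℓ_p` -/
def bl (p : ℝ) (n : ℕ) : Set (Fin n → ℝ) := {x | ∑ i, |x i| ^ p ≤ 1}

/-- its section by a coordinate hyperplane -/
def bli (p : ℝ) (n : ℕ) (i : Fin n) : Set (Fin n → ℝ) := {x | x ∈ bl p n ∧ x i = 0}

theorem bl_cube {p : ℝ} (hp : 2 < p) : InCube (bl p n) := by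
  intro x hx i
  have h1 : |x i| ^ p ≤ 1 :=
    (Finset.single_le_sum (f := fun i => |x i| ^ p) (fun _ _ => Real.rpow_nonneg (abs_nonneg _) _)
      (Finset.mem_univ i)).trans hx
  by_contra h
  push Not at h
  have := Real.one_lt_rpow h (by linarith : 0 < p)
  linarith

theorem bli_cube {p : ℝ} (hp : 2 < p) (i : Fin n) : InCube (bli p n i) :=
  fun x hx => bl_cube hp x hx.1

theorem zero_mem_bl {p : ℝ} (hp : 2 < p) : (0 : Fin n → ℝ) ∈ bl p n := by
  change ∑ i, |(0 : Fin n → ℝ) i| ^ p ≤ 1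
  have : (0 : ℝ) ^ p = 0 := Real.zero_rpow (by linarith)
  simp [this]

theorem bl_ne {p : ℝ} (hp : 2 < p) : (bl p n).Nonempty := ⟨0, zero_mem_bl hp⟩

theorem bli_ne {p : ℝ} (hp : 2 < p) (i : Fin n) : (bli p n i).Nonempty :=
  ⟨0, zero_mem_bl hp, rfl⟩

/-- Euclidean norm of points of the ball -/
theorem bl_norm {p : ℝ} (hp : 2 < p) (hn : 0 < n) {x : Fin n → ℝ} (hx : x ∈ bl p n) :
    x ⬝ᵥ x ≤ (n : ℝ) ^ (1 - 2 / p) := by
  have hn' : (0 : ℝ) < n := by exact_mod_cast hn
  have h := Real.rpow_sum_le_const_mul_sum_rpow_of_nonneg (s := (Finset.univ : Finset (Fin n)))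
    (f := fun i => x i * x i) (p := p / 2) (by linarith) (fun i _ => mul_self_nonneg _)
  rw [Finset.card_univ, Fintype.card_fin] at h
  have h1 : ∀ i, (x i * x i) ^ (p / 2) = |x i| ^ p := by
    intro i
    rw [← abs_mul_abs_self, ← sq, ← Real.rpow_natCast, ← Real.rpow_mul (abs_nonneg _)]
    congr 1
    push_cast
    ring
  simp_rw [h1] at h
  have h2 : (x ⬝ᵥ x) ^ (p / 2) ≤ (n : ℝ) ^ (p / 2 - 1) := by
    refine h.trans ?_
    have h3 : (n : ℝ) ^ (p / 2 - 1) * ∑ i, |x i| ^ p ≤ (n : ℝ) ^ (p / 2 - 1) * 1 :=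
      mul_le_mul_of_nonneg_left hx (by positivity)
    rw [mul_one] at h3
    exact h3
  have h4 : ((x ⬝ᵥ x) ^ (p / 2)) ^ (2 / p) ≤ ((n : ℝ) ^ (p / 2 - 1)) ^ (2 / p) :=
    Real.rpow_le_rpow (Real.rpow_nonneg (dot_self_nonneg x) _) h2 (by positivity)
  rw [← Real.rpow_mul (dot_self_nonneg x), ← Real.rpow_mul hn'.le] at h4
  have h5 : p / 2 * (2 / p) = 1 := by field_simp
  have h6 : (p / 2 - 1) * (2 / p) = 1 - 2 / p := by field_simp
  rw [h5, h6, Real.rpow_one] at h4
  exact h4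

theorem Ms_nonneg {p : ℝ} (hp : 2 < p) (Z : Fin n × Fin n → ℝ) : 0 ≤ Ms (bl p n) Z := by
  have := qf_le_Ms (bl_cube hp) Z (zero_mem_bl hp)
  have h0 : qf Z 0 = 0 := by unfold qf; rw [bil_eq]; simp
  linarith

/-- homogeneity bound -/
theorem qf_le_homog {p : ℝ} (hp : 2 < p) (Z : Fin n × Fin n → ℝ) (v : Fin n → ℝ) :
    qf Z v ≤ Ms (bl p n) Z * (∑ i, |v i| ^ p) ^ (2 / p) := by
  set s := ∑ i, |v i| ^ p with hs
  have hs0 : 0 ≤ s := Finset.sum_nonneg fun _ _ => Real.rpow_nonneg (abs_nonneg _) _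
  have hp0 : p ≠ 0 := by linarith
  rcases hs0.lt_or_eq with hpos | hzero
  · set c := s ^ (-(1 / p)) with hc
    have hcpos : 0 < c := Real.rpow_pos_of_pos hpos _
    have h1 : c • v ∈ bl p n := by
      change ∑ i, |(c • v) i| ^ p ≤ 1
      have h2 : ∀ i, |(c • v) i| ^ p = c ^ p * |v i| ^ p := by
        intro i
        rw [Pi.smul_apply, smul_eq_mul, abs_mul, Real.mul_rpow (abs_nonneg _) (abs_nonneg _),
          abs_of_pos hcpos]
      simp_rw [h2]
      rw [← Finset.mul_sum, ← hs, hc, ← Real.rpow_mul hs0]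
      have h3 : -(1 / p) * p = -1 := by field_simp
      rw [h3, Real.rpow_neg_one, inv_mul_cancel₀ hpos.ne']
    have h4 := qf_le_Ms (bl_cube hp) Z h1
    have h5 : qf Z (c • v) = c ^ 2 * qf Z v := by
      unfold qf; rw [bil_smul_left, bil_smul_right]; ring
    rw [h5] at h4
    have h6 : c ^ 2 * s ^ (2 / p) = 1 := by
      rw [hc, ← Real.rpow_natCast, ← Real.rpow_mul hs0, ← Real.rpow_add hpos]
      have : -(1 / p) * ((2 : ℕ) : ℝ) + 2 / p = 0 := by push_cast; ring
      rw [this, Real.rpow_zero]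
    calc qf Z v = (c ^ 2 * s ^ (2 / p)) * qf Z v := by rw [h6, one_mul]
      _ = (c ^ 2 * qf Z v) * s ^ (2 / p) := by ring
      _ ≤ Ms (bl p n) Z * s ^ (2 / p) := mul_le_mul_of_nonneg_right h4 (Real.rpow_nonneg hs0 _)
  · have h1 : v = 0 := by
      ext i
      have h2 : |v i| ^ p = 0 := by
        have := (Finset.sum_eq_zero_iff_of_nonneg
          (fun i _ => Real.rpow_nonneg (abs_nonneg (v i)) p)).1 (hs.symm.trans hzero.symm) i
          (Finset.mem_univ i)
        exact this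
      have h3 := (Real.rpow_eq_zero (abs_nonneg _) hp0).1 h2
      simpa using h3
    have h0 : qf Z v = 0 := by rw [h1]; unfold qf; rw [bil_eq]; simp
    rw [h0, ← hzero, Real.zero_rpow (by positivity)]
    simp

/-- optimizers have norm one -/
theorem opt_norm {p : ℝ} (hp : 2 < p) {Z : Fin n × Fin n → ℝ} {x : Fin n → ℝ}
    (hx : x ∈ bl p n) (hopt : qf Z x = Ms (bl p n) Z) (hM : 0 < Ms (bl p n) Z) :
    ∑ i, |x i| ^ p = 1 := by
  refine le_antisymm hx ?_
  have h := qf_le_homog hp Z x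
  rw [hopt] at h
  by_contra hlt
  push Not at hlt
  have hs0 : 0 ≤ ∑ i, |x i| ^ p := Finset.sum_nonneg fun _ _ => Real.rpow_nonneg (abs_nonneg _) _
  have h1 : (∑ i, |x i| ^ p) ^ (2 / p) < 1 := Real.rpow_lt_one hs0 hlt (by positivity)
  have h2 : Ms (bl p n) Z * (∑ i, |x i| ^ p) ^ (2 / p) < Ms (bl p n) Z * 1 :=
    mul_lt_mul_of_pos_left h1 hM
  linarith

/-- first order condition -/
theorem lagrange {p : ℝ} (hp : 2 < p) {Z : Fin n × Fin n → ℝ} {x : Fin n → ℝ}
    (hx : x ∈ bl p n) (hopt : qf Z x = Ms (bl p n) Z) (hM : 0 < Ms (bl p n) Z) (i : Fin n) :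
    ell i Z (Function.update x i 0) + 2 * x i * Z (i, i) =
      2 * Ms (bl p n) Z * (|x i| ^ (p - 2) * x i) := by
  set y := Function.update x i 0 with hy
  set M := Ms (bl p n) Z with hMdef
  have hnorm := opt_norm hp hx hopt hM
  have hxy : x = y + (x i) • Pi.single i 1 := by
    ext j
    by_cases hj : j = i
    · subst hj; simp [hy]
    · simp [hy, hj]
  set a := ∑ j, |y j| ^ p with ha
  have hsum : ∀ t : ℝ, ∑ j, |(y + t • (Pi.single i (1 : ℝ) : Fin n → ℝ)) j| ^ p = a + |t| ^ p := by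
    intro t
    have h1 : ∀ j, |(y + t • (Pi.single i (1 : ℝ) : Fin n → ℝ)) j| ^ p = |y j| ^ p +
        (if j = i then |t| ^ p else 0) := by
      intro j
      by_cases hj : j = i
      · subst hj
        have : (0 : ℝ) ^ p = 0 := Real.zero_rpow (by linarith)
        simp [hy, this]
      · simp [hy, hj]
    simp_rw [h1, Finset.sum_add_distrib]
    simp [ha]
  have hone : a + |x i| ^ p = 1 := by
    rw [← hsum (x i), ← hxy, hnorm]
  set φ : ℝ → ℝ := fun t => M * (a + |t| ^ p) ^ (2 / p) -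
    (qf Z y + t * ell i Z y + t ^ 2 * Z (i, i)) with hφ
  have hφ0 : ∀ t, 0 ≤ φ t := by
    intro t
    have h := qf_le_homog hp Z (y + t • Pi.single i (1 : ℝ))
    rw [hsum, qf_add_single] at h
    change 0 ≤ M * (a + |t| ^ p) ^ (2 / p) - (qf Z y + t * ell i Z y + t ^ 2 * Z (i, i))
    linarith
  have hφx : φ (x i) = 0 := by
    change M * (a + |x i| ^ p) ^ (2 / p) - (qf Z y + x i * ell i Z y + x i ^ 2 * Z (i, i)) = 0
    rw [hone, Real.one_rpow, ← qf_add_single, ← hxy, hopt]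
    ring
  have hmin : IsLocalMin φ (x i) := Eventually.of_forall fun t => by
    change φ (x i) ≤ φ t
    rw [hφx]; exact hφ0 t
  have hd1 : HasDerivAt (fun t : ℝ => a + |t| ^ p) (p * |x i| ^ (p - 2) * x i) (x i) :=
    (hasDerivAt_abs_rpow (x i) (by linarith)).const_add a
  have hd2 := hd1.rpow_const (p := 2 / p) (Or.inl (by rw [hone]; norm_num))
  have hd3 := hd2.const_mul M
  have hd4 : HasDerivAt (fun t : ℝ => qf Z y + t * ell i Z y + t ^ 2 * Z (i, i))
      (ell i Z y + 2 * x i * Z (i, i)) (x i) := by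
    have h1 := ((hasDerivAt_id (x i)).mul_const (ell i Z y)).const_add (qf Z y)
    have h2 := ((hasDerivAt_id (x i)).pow 2).mul_const (Z (i, i))
    have h3 := h1.add h2
    refine h3.congr_deriv ?_
    simp
  have hd5 := hd3.sub hd4
  have h0 := hmin.hasDerivAt_eq_zero hd5
  rw [hone, Real.one_rpow] at h0
  have h6 : M * (p * |x i| ^ (p - 2) * x i * (2 / p) * 1) = 2 * M * (|x i| ^ (p - 2) * x i) := by
    field_simp
  rw [h6] at h0
  linarith

theorem rpow_sub_two_mul {p : ℝ} (hp : 2 < p) (a : ℝ) :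
    |a| ^ (p - 2) * |a| = |a| ^ (p - 1) := by
  rcases (abs_nonneg a).lt_or_eq with h | h
  · nth_rw 2 [← Real.rpow_one |a|]
    rw [← Real.rpow_add h]
    congr 1; ring
  · rw [← h, Real.zero_rpow (by linarith), Real.zero_rpow (by linarith)]; simp

theorem lagrange_abs {p : ℝ} (hp : 2 < p) {Z : Fin n × Fin n → ℝ} {x : Fin n → ℝ}
    (hx : x ∈ bl p n) (hopt : qf Z x = Ms (bl p n) Z) (hM : 0 < Ms (bl p n) Z) (i : Fin n) :
    2 * Ms (bl p n) Z * |x i| ^ (p - 1) ≤
      |ell i Z (Function.update x i 0)| + 2 * |x i| * |Z (i, i)| := by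
  have h := lagrange hp hx hopt hM i
  have h1 : |2 * Ms (bl p n) Z * (|x i| ^ (p - 2) * x i)| =
      2 * Ms (bl p n) Z * |x i| ^ (p - 1) := by
    rw [abs_mul, abs_mul, abs_mul, abs_of_pos hM, abs_of_nonneg (Real.rpow_nonneg (abs_nonneg _) _),
      rpow_sub_two_mul hp]
    norm_num
  rw [← h1, ← h]
  refine (abs_add_le _ _).trans ?_
  rw [abs_mul, abs_mul]
  norm_num

/-- value of the form after removing one coordinate of an optimizer -/
theorem value_removed {p : ℝ} (hp : 2 < p) {Z : Fin n × Fin n → ℝ} {x : Fin n → ℝ}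
    (hx : x ∈ bl p n) (hopt : qf Z x = Ms (bl p n) Z) (hM : 0 < Ms (bl p n) Z) (i : Fin n) :
    Ms (bl p n) Z - 2 * Ms (bl p n) Z * |x i| ^ p - |Z (i, i)| * x i ^ 2 ≤
      qf Z (Function.update x i 0) := by
  have h := lagrange hp hx hopt hM i
  set y := Function.update x i 0 with hy
  have hxy : x = y + (x i) • Pi.single i 1 := by
    ext j
    by_cases hj : j = i
    · subst hj; simp [hy]
    · simp [hy, hj]
  have h1 := qf_add_single Z y i (x i)
  rw [← hxy, hopt] at h1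
  have h2 : |x i| ^ (p - 2) * x i * x i = |x i| ^ p := by
    have h3 : x i * x i = |x i| ^ (2 : ℝ) := by
      rw [← abs_mul_abs_self]
      have : (2 : ℝ) = ((2 : ℕ) : ℝ) := by norm_num
      rw [this, Real.rpow_natCast, sq]
    rw [mul_assoc, h3]
    rcases (abs_nonneg (x i)).lt_or_eq with h | h
    · rw [← Real.rpow_add h]
      congr 1; ring
    · rw [← h, Real.zero_rpow (by linarith), Real.zero_rpow (by linarith),
        Real.zero_rpow (by linarith)]; simp
  have h4 : -|Z (i, i)| ≤ Z (i, i) := neg_abs_le _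
  have h5 := mul_le_mul_of_nonneg_right h4 (sq_nonneg (x i))
  have h6 : x i * ell i Z y = 2 * Ms (bl p n) Z * (|x i| ^ (p - 2) * x i * x i) -
      2 * x i ^ 2 * Z (i, i) := by
    have : ell i Z y = 2 * Ms (bl p n) Z * (|x i| ^ (p - 2) * x i) - 2 * x i * Z (i, i) := by
      linarith
    rw [this]; ring
  rw [h2] at h6
  nlinarith

theorem update_mem_bli {p : ℝ} (hp : 2 < p) {x : Fin n → ℝ} (hx : x ∈ bl p n) (i : Fin n) :
    Function.update x i 0 ∈ bli p n i := by
  refine ⟨?_, by simp⟩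
  change ∑ j, |Function.update x i 0 j| ^ p ≤ 1
  refine le_trans (Finset.sum_le_sum fun j _ => ?_) hx
  by_cases hj : j = i
  · subst hj
    have : (0 : ℝ) ^ p = 0 := Real.zero_rpow (by linarith)
    simp only [Function.update_self, abs_zero, this]
    exact Real.rpow_nonneg (abs_nonneg _) _
  · rw [Function.update_of_ne hj]

/-- some coordinate of a norm one vector is large -/
theorem exists_large {p : ℝ} (hn : 0 < n) {x : Fin n → ℝ} (hx : ∑ i, |x i| ^ p = 1) :
    ∃ i, 1 / (n : ℝ) ≤ |x i| ^ p := by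
  have hn' : (0 : ℝ) < n := by exact_mod_cast hn
  by_contra h
  push Not at h
  have h1 : ∑ i, |x i| ^ p < ∑ _i : Fin n, 1 / (n : ℝ) := by
    apply Finset.sum_lt_sum_of_nonempty
    · exact ⟨⟨0, hn⟩, Finset.mem_univ _⟩
    · intro i _; exact h i
  rw [hx, Finset.sum_const, Finset.card_univ, Fintype.card_fin, nsmul_eq_mul] at h1
  field_simp at h1
  linarith

end Pool.Agent.H97.GP
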