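import Mathlib
import Pool.Agent.H97.G7

set_option autoImplicit false

open MeasureTheory ProbabilityTheory Set Filter Topology
open scoped ENNReal NNReal Matrix

namespace Pool.Agent.H97.GP

variable {n : ℕ}

/-- projectively separated finite sets -/
def Sep (ε : ℝ) (F : Finset (Fin n → ℝ)) : Prop :=
  ∀ x ∈ F, ∀ y ∈ F, x ≠ y → ε ^ 2 ≤ (x - y) ⬝ᵥ (x - y) ∧ ε ^ 2 ≤ (x + y) ⬝ᵥ (x + y)

theorem exists_net {ε B : ℝ} (hε : 0 < ε) (N : Set (Fin n → ℝ))
    (hB : ∀ F : Finset (Fin n → ℝ), (F : Set (Fin n → ℝ)) ⊆ N → Sep ε F → (F.card : ℝ) ≤ B) :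
    ∃ F : Finset (Fin n → ℝ), (F : Set (Fin n → ℝ)) ⊆ N ∧ Sep ε F ∧
      ∀ v ∈ N, ∃ y ∈ F, ∃ c : ℝ, (c = 1 ∨ c = -1) ∧ (v - c • y) ⬝ᵥ (v - c • y) ≤ ε ^ 2 := by
  classical
  set P : ℕ → Prop := fun m => ∃ F : Finset (Fin n → ℝ), (F : Set (Fin n → ℝ)) ⊆ N ∧ Sep ε F ∧
    F.card = m with hP
  have h0 : P 0 := ⟨∅, by simp, by intro x hx; simp at hx, rfl⟩
  have hspec := Nat.findGreatest_spec (P := P) (Nat.zero_le ⌈B⌉₊) h0
  obtain ⟨F, hFN, hF, hcard⟩ := hspec
  refine ⟨F, hFN, hF, fun v hv => ?_⟩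
  by_contra hcon
  push Not at hcon
  have hvF : v ∉ F := by
    intro hvF
    have := hcon v hvF 1 (Or.inl rfl)
    simp only [one_smul, sub_self, zero_dotProduct] at this
    nlinarith
  have hsep : Sep ε (insert v F) := by
    intro x hx y hy hxy
    rw [Finset.mem_insert] at hx hy
    rcases hx with rfl | hx
    · rcases hy with rfl | hy
      · exact absurd rfl hxy
      · have h1 := hcon y hy 1 (Or.inl rfl)
        have h2 := hcon y hy (-1) (Or.inr rfl)
        rw [one_smul] at h1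
        rw [neg_one_smul, sub_neg_eq_add] at h2
        exact ⟨h1.le, h2.le⟩
    · rcases hy with rfl | hy
      · have h1 := hcon x hx 1 (Or.inl rfl)
        have h2 := hcon x hx (-1) (Or.inr rfl)
        rw [one_smul] at h1
        rw [neg_one_smul, sub_neg_eq_add] at h2
        have e1 : (x - y) ⬝ᵥ (x - y) = (y - x) ⬝ᵥ (y - x) := by
          rw [← neg_sub y x, neg_dotProduct_neg]
        rw [e1, add_comm x y]
        exact ⟨h1.le, h2.le⟩
      · exact hF x hx y hy hxy
  have hsub : ((insert v F : Finset (Fin n → ℝ)) : Set (Fin n → ℝ)) ⊆ N := by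
    rw [Finset.coe_insert]
    exact Set.insert_subset hv hFN
  have hc : (insert v F).card = F.card + 1 := Finset.card_insert_of_notMem hvF
  have hle := hB _ hsub hsep
  have hle2 : F.card + 1 ≤ ⌈B⌉₊ := by
    rw [← hc]
    exact_mod_cast hle.trans (Nat.le_ceil B)
  have := Nat.le_findGreatest (P := P) hle2 ⟨insert v F, hsub, hsep, hc⟩
  rw [← hcard] at this
  omega

theorem fin_union (F : Finset (Fin n → ℝ)) (w : (Fin n → ℝ) → Fin n → ℝ) (i : Fin n) {c ε : ℝ}
    (hε : 0 < ε) (hc : 0 ≤ c) (hw : ∀ v ∈ F, (w v) ⬝ᵥ (w v) ≤ ε ^ 2 ∧ (w v) i = 0) :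
    (gam (Fin n × Fin n)).real {W | ∃ v ∈ F, c ≤ |ell i W (w v)|} ≤
      F.card * (2 * Real.exp (-(c ^ 2 / (4 * ε ^ 2)))) := by
  have h1 : {W : Fin n × Fin n → ℝ | ∃ v ∈ F, c ≤ |ell i W (w v)|} =
      ⋃ v ∈ F, {W | c ≤ |ell i W (w v)|} := by
    ext W; simp
  rw [h1]
  refine (measureReal_biUnion_finset_le F _).trans ?_
  rw [← nsmul_eq_mul]
  refine Finset.sum_le_card_nsmul _ _ _ (fun v hv => ?_)
  have h2 := tail_abs_dot (E := Fin n × Fin n)
    (outer (Pi.single i 1) (w v) + outer (w v) (Pi.single i 1)) (σ := Real.sqrt 2 * ε) (c := c)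
    (by positivity) (by
      rw [ell_var, (hw v hv).2, mul_pow, Real.sq_sqrt (by norm_num)]
      have := (hw v hv).1
      linarith) hc
  rw [mul_pow, Real.sq_sqrt (by norm_num)] at h2
  have h3 : (2 : ℝ) * (2 * ε ^ 2) = 4 * ε ^ 2 := by ring
  rw [h3] at h2
  simp_rw [ell_dot]
  exact h2

/-- chaining bound -/
theorem chain (i : Fin n) (N : Set (Fin n → ℝ)) {R D : ℝ} (hR : 0 < R) (hD : 0 < D)
    (hN : ∀ v ∈ N, v ⬝ᵥ v ≤ R ^ 2 ∧ v i = 0)
    (hcard : ∀ k : ℕ, ∀ F : Finset (Fin n → ℝ), (F : Set (Fin n → ℝ)) ⊆ N → Sep (R / 2 ^ k) F →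
      (F.card : ℝ) ≤ 2 * Real.exp (D * 4 ^ k)) (K : ℕ) :
    ∃ B : Set (Fin n × Fin n → ℝ),
      (gam (Fin n × Fin n)).real B ≤ (K + 1) * (4 * Real.exp (-D)) ∧
      ∀ W, W ∉ B → ∀ v ∈ N, ∃ v' : Fin n → ℝ, (v - v') ⬝ᵥ (v - v') ≤ (R / 2 ^ K) ^ 2 ∧
        |ell i W v'| ≤ 6 * (K + 1) * (R * Real.sqrt D) := by
  have hnet := fun k : ℕ => exists_net (ε := R / 2 ^ k) (B := 2 * Real.exp (D * 4 ^ k))
    (by positivity) N (hcard k)
  choose F hFN hFsep hFnet using hnet
  have hlink : ∀ k : ℕ, ∀ v : Fin n → ℝ, ∃ w : Fin n → ℝ, v ∈ F (k + 1) →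
      ∃ y ∈ F k, ∃ c : ℝ, (c = 1 ∨ c = -1) ∧ w = v - c • y ∧ w ⬝ᵥ w ≤ (R / 2 ^ k) ^ 2 ∧ w i = 0 := by
    intro k v
    by_cases hv : v ∈ F (k + 1)
    · obtain ⟨y, hy, c, hc, h⟩ := hFnet k v (hFN (k + 1) hv)
      refine ⟨v - c • y, fun _ => ⟨y, hy, c, hc, rfl, h, ?_⟩⟩
      have h1 := (hN v (hFN (k + 1) hv)).2
      have h2 := (hN y (hFN k hy)).2
      simp [h1, h2]
    · exact ⟨0, fun h => absurd h hv⟩
  choose w hw using hlink
  have hsD : 0 < Real.sqrt D := Real.sqrt_pos.2 hD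
  set c : ℝ := 6 * (R * Real.sqrt D) with hc
  have hcpos : 0 < c := by positivity
  have hc2 : c ^ 2 = 36 * (R ^ 2 * D) := by
    rw [hc, mul_pow, mul_pow, Real.sq_sqrt hD.le]; norm_num
  set B0 : Set (Fin n × Fin n → ℝ) := {W | ∃ v ∈ F 0, c ≤ |ell i W v|} with hB0
  set Bk : ℕ → Set (Fin n × Fin n → ℝ) := fun k => {W | ∃ v ∈ F (k + 1), c ≤ |ell i W (w k v)|}
    with hBk
  refine ⟨B0 ∪ ⋃ k ∈ Finset.range K, Bk k, ?_, ?_⟩
  · have h0 : (gam (Fin n × Fin n)).real B0 ≤ 4 * Real.exp (-D) := by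
      have h1 := fin_union (F 0) id i hR hcpos.le (fun v hv => hN v (hFN 0 hv))
      have h2 := hcard 0 (F 0) (hFN 0) (hFsep 0)
      rw [pow_zero, mul_one] at h2
      refine h1.trans ?_
      calc ((F 0).card : ℝ) * (2 * Real.exp (-(c ^ 2 / (4 * R ^ 2))))
          ≤ (2 * Real.exp D) * (2 * Real.exp (-(2 * D))) := by
            refine mul_le_mul h2 ?_ (by positivity) (by positivity)
            refine mul_le_mul_of_nonneg_left (Real.exp_le_exp.2 ?_) (by norm_num)
            rw [hc2]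
            have : 36 * (R ^ 2 * D) / (4 * R ^ 2) = 9 * D := by field_simp; norm_num
            rw [this]; linarith
        _ = 4 * (Real.exp D * Real.exp (-(2 * D))) := by ring
        _ = 4 * Real.exp (-D) := by rw [← Real.exp_add]; congr 2; ring
    have hk : ∀ k, (gam (Fin n × Fin n)).real (Bk k) ≤ 4 * Real.exp (-D) := by
      intro k
      have h1 := fin_union (F (k + 1)) (w k) i (ε := R / 2 ^ k) (by positivity) hcpos.le
        (fun v hv => by
          obtain ⟨y, hy, c', hc', e, h3, h4⟩ := hw k v hv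
          exact ⟨h3, h4⟩)
      have h2 := hcard (k + 1) (F (k + 1)) (hFN (k + 1)) (hFsep (k + 1))
      refine h1.trans ?_
      have h4 : (1 : ℝ) ≤ 4 ^ k := one_le_pow₀ (by norm_num)
      calc ((F (k + 1)).card : ℝ) * (2 * Real.exp (-(c ^ 2 / (4 * (R / 2 ^ k) ^ 2))))
          ≤ (2 * Real.exp (D * 4 ^ (k + 1))) * (2 * Real.exp (-(9 * D * 4 ^ k))) := by
            refine mul_le_mul h2 ?_ (by positivity) (by positivity)
            refine mul_le_mul_of_nonneg_left (Real.exp_le_exp.2 ?_) (by norm_num)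
            rw [hc2]
            have h5 : ((2 : ℝ) ^ k) ^ 2 = 4 ^ k := by
              rw [← pow_mul, mul_comm, pow_mul]; norm_num
            have : 36 * (R ^ 2 * D) / (4 * (R / 2 ^ k) ^ 2) = 9 * D * 4 ^ k := by
              rw [div_pow, h5]; field_simp; norm_num
            rw [this]
        _ = 4 * (Real.exp (D * 4 ^ (k + 1)) * Real.exp (-(9 * D * 4 ^ k))) := by ring
        _ ≤ 4 * Real.exp (-D) := by
            rw [← Real.exp_add]
            refine mul_le_mul_of_nonneg_left (Real.exp_le_exp.2 ?_) (by norm_num)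
            rw [pow_succ]
            nlinarith
    have h5 : (gam (Fin n × Fin n)).real (⋃ k ∈ Finset.range K, Bk k) ≤ K * (4 * Real.exp (-D)) := by
      refine (measureReal_biUnion_finset_le _ _).trans ?_
      have := Finset.sum_le_card_nsmul (Finset.range K)
        (fun k => (gam (Fin n × Fin n)).real (Bk k)) (4 * Real.exp (-D)) (fun k _ => hk k)
      rw [Finset.card_range, nsmul_eq_mul] at this
      exact this
    refine (measureReal_union_le _ _).trans ?_
    linarith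
  · intro W hW v hv
    have hW0 : ∀ v ∈ F 0, |ell i W v| ≤ c := by
      intro v hv
      by_contra h
      push Not at h
      exact hW (Or.inl ⟨v, hv, h.le⟩)
    have hWk : ∀ k < K, ∀ v ∈ F (k + 1), |ell i W (w k v)| ≤ c := by
      intro k hk v hv
      by_contra h
      push Not at h
      apply hW
      right
      simp only [mem_iUnion]
      exact ⟨k, Finset.mem_range.2 hk, v, hv, h.le⟩
    have hind : ∀ k ≤ K, ∀ v ∈ F k, |ell i W v| ≤ (k + 1) * c := by
      intro k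
      induction k with
      | zero => intro _ v hv; simpa using hW0 v hv
      | succ k ih =>
        intro hk v hv
        obtain ⟨y, hy, c', hc', e, -, -⟩ := hw k v hv
        have h1 := hWk k (by omega) v hv
        have h2 := ih (by omega) y hy
        have h3 : v = w k v + c' • y := by rw [e]; ring
        have h4 : ell i W v = ell i W (w k v) + c' * ell i W y := by
          conv_lhs => rw [h3]
          rw [ell_add, ell_smul]
        have h5 : |c' * ell i W y| = |ell i W y| := by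
          rw [abs_mul]
          rcases hc' with rfl | rfl <;> simp
        rw [h4]
        refine (abs_add_le _ _).trans ?_
        rw [h5]
        push_cast
        linarith
    obtain ⟨y, hy, c', hc', h⟩ := hFnet K v hv
    refine ⟨c' • y, h, ?_⟩
    rw [ell_smul, abs_mul]
    have h1 : |c'| = 1 := by rcases hc' with rfl | rfl <;> simp
    rw [h1, one_mul]
    refine (hind K le_rfl y hy).trans (le_of_eq ?_)
    rw [hc]; ring

end Pool.Agent.H97.GP
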