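import Mathlib
import Pool.Agent.H97.G8

set_option autoImplicit false

open MeasureTheory ProbabilityTheory Set Filter Topology
open scoped ENNReal NNReal Matrix

namespace Pool.Agent.H97.GP

variable {n : ℕ}

/-- near optimal points of the section `x i = 0` -/
def Ni (p : ℝ) (i : Fin n) (Δ : ℝ) (Z : Fin n × Fin n → ℝ) : Set (Fin n → ℝ) :=
  {v | v ∈ bli p n i ∧ Ms (bli p n i) Z - Δ < qf Z v}

/-- entropy condition for the near optimal points -/
def Gi (p : ℝ) (i : Fin n) (Δ R D : ℝ) (Z : Fin n × Fin n → ℝ) : Prop :=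
  ∀ k : ℕ, ∀ F : Finset (Fin n → ℝ), (F : Set (Fin n → ℝ)) ⊆ Ni p i Δ Z → Sep (R / 2 ^ k) F →
    (F.card : ℝ) ≤ 2 * Real.exp (D * 4 ^ k)

/-- exceptional event for a row -/
def badrow (p : ℝ) (i : Fin n) (Δ R D Q b : ℝ) : Set (Fin n × Fin n → ℝ) :=
  {Z | Gi p i Δ R D Z ∧ opn Z ≤ Q ∧ ∃ v ∈ Ni p i Δ Z, b < |ell i Z v|}

theorem continuous_qf (v : Fin n → ℝ) : Continuous (fun Z => qf Z v) := by
  unfold qf bil dotProduct
  fun_prop

theorem continuous_ell (i : Fin n) (v : Fin n → ℝ) : Continuous (fun Z => ell i Z v) := by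
  unfold ell bil dotProduct
  fun_prop

theorem isOpen_mem_Ni {p : ℝ} (hp : 2 < p) (i : Fin n) (Δ : ℝ) (v : Fin n → ℝ) :
    IsOpen {Z | v ∈ Ni p i Δ Z} := by
  by_cases hv : v ∈ bli p n i
  · have : {Z | v ∈ Ni p i Δ Z} = {Z | Ms (bli p n i) Z - Δ < qf Z v} := by
      ext Z
      simp only [Ni, mem_ofPred_eq, hv, true_and]
    rw [this]
    exact isOpen_lt ((continuous_Ms (bli_cube hp i) (bli_ne hp i)).sub continuous_const)
      (continuous_qf v)
  · have : {Z | v ∈ Ni p i Δ Z} = ∅ := by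
      ext Z
      simp only [Ni, mem_ofPred_eq, hv, false_and, mem_empty_iff_false]
    rw [this]
    exact isOpen_empty

theorem measurableSet_badrow {p : ℝ} (hp : 2 < p) (i : Fin n) (Δ R D Q b : ℝ) :
    MeasurableSet (badrow p i Δ R D Q b) := by
  have h1 : IsOpen {Z | ¬ Gi p i Δ R D Z} := by
    have e : {Z | ¬ Gi p i Δ R D Z} = ⋃ k : ℕ, ⋃ F : Finset (Fin n → ℝ),
        ⋃ _ : Sep (R / 2 ^ k) F ∧ 2 * Real.exp (D * 4 ^ k) < (F.card : ℝ),
        ⋂ v ∈ F, {Z | v ∈ Ni p i Δ Z} := by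
      ext Z
      simp only [Gi, mem_ofPred_eq, mem_iUnion, mem_iInter, exists_prop]
      push Not
      constructor
      · rintro ⟨k, F, h1, h2, h3⟩
        exact ⟨k, F, ⟨h2, h3⟩, fun v hv => h1 hv⟩
      · rintro ⟨k, F, ⟨h2, h3⟩, h1⟩
        exact ⟨k, F, fun v hv => h1 v hv, h2, h3⟩
    rw [e]
    refine isOpen_iUnion fun k => isOpen_iUnion fun F => isOpen_iUnion fun _ => ?_
    exact isOpen_biInter_finset fun v _ => isOpen_mem_Ni hp i Δ v
  have h2 : IsOpen {Z : Fin n × Fin n → ℝ | ∃ v ∈ Ni p i Δ Z, b < |ell i Z v|} := by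
    have e : {Z : Fin n × Fin n → ℝ | ∃ v ∈ Ni p i Δ Z, b < |ell i Z v|} =
        ⋃ v : Fin n → ℝ, ({Z | v ∈ Ni p i Δ Z} ∩ {Z | b < |ell i Z v|}) := by
      ext Z
      simp only [mem_ofPred_eq, mem_iUnion, mem_inter_iff]
    rw [e]
    refine isOpen_iUnion fun v => (isOpen_mem_Ni hp i Δ v).inter ?_
    exact isOpen_lt continuous_const (continuous_ell i v).abs
  have h3 : MeasurableSet {Z | Gi p i Δ R D Z} := by
    have := h1.measurableSet.compl
    have e : {Z | ¬ Gi p i Δ R D Z}ᶜ = {Z | Gi p i Δ R D Z} := by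
      ext Z; simp
    rw [e] at this
    exact this
  have h4 : MeasurableSet {Z : Fin n × Fin n → ℝ | opn Z ≤ Q} :=
    measurableSet_le measurable_opn measurable_const
  exact h3.inter (h4.inter h2.measurableSet)

/-- entries of row and column `i` -/
def rowset (i : Fin n) : Set (Fin n × Fin n) := {e | e.1 = i ∨ e.2 = i}

theorem qf_mix (i : Fin n) (Z W : Fin n × Fin n → ℝ) {v : Fin n → ℝ} (hv : v i = 0) :
    qf (mix (rowset i) Z W) v = qf Z v := by
  unfold qf bil dotProduct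
  refine Finset.sum_congr rfl fun e _ => ?_
  by_cases h : e ∈ rowset i
  · have : outer v v e = 0 := by
      unfold outer
      rcases h with h | h <;> rw [h, hv] <;> simp
    rw [this]; simp
  · rw [mix_notMem h]

theorem Ms_mix (p : ℝ) (i : Fin n) (Z W : Fin n × Fin n → ℝ) :
    Ms (bli p n i) (mix (rowset i) Z W) = Ms (bli p n i) Z := by
  unfold Ms
  congr 1
  exact Set.image_congr fun v hv => qf_mix i Z W hv.2

theorem ell_mix (i : Fin n) (Z W : Fin n × Fin n → ℝ) (v : Fin n → ℝ) :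
    ell i (mix (rowset i) Z W) v = ell i W v := by
  rw [ell_dot, ell_dot]
  unfold dotProduct
  refine Finset.sum_congr rfl fun e _ => ?_
  by_cases h : e ∈ rowset i
  · rw [mix_mem h]
  · have h1 : e.1 ≠ i := fun h' => h (Or.inl h')
    have h2 : e.2 ≠ i := fun h' => h (Or.inr h')
    have : (outer (Pi.single i 1) v + outer v (Pi.single i 1)) e = 0 := by
      simp [outer, h1, h2]
    rw [this]; simp

theorem Ni_mix (p : ℝ) (i : Fin n) (Δ : ℝ) (Z W : Fin n × Fin n → ℝ) :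
    Ni p i Δ (mix (rowset i) Z W) = Ni p i Δ Z := by
  ext v
  simp only [Ni, mem_ofPred_eq]
  refine and_congr_right fun hv => ?_
  rw [Ms_mix, qf_mix i Z W hv.2]

theorem Gi_mix (p : ℝ) (i : Fin n) (Δ R D : ℝ) (Z W : Fin n × Fin n → ℝ) :
    Gi p i Δ R D (mix (rowset i) Z W) ↔ Gi p i Δ R D Z := by
  unfold Gi
  rw [Ni_mix]

/-- probability of the exceptional event of a row -/
theorem badrow_le {p : ℝ} (hp : 2 < p) (hn : 0 < n) (i : Fin n) {Δ R D Q b : ℝ} (K : ℕ)
    (hR : 0 < R) (hR2 : (n : ℝ) ^ (1 - 2 / p) ≤ R ^ 2) (hD : 0 < D) (_hQ : 0 ≤ Q)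
    (hb : 6 * (K + 1) * (R * Real.sqrt D) + 2 * Q * (R / 2 ^ K) ≤ b) :
    (gam (Fin n × Fin n)) (badrow p i Δ R D Q b) ≤
      ENNReal.ofReal ((K + 1) * (4 * Real.exp (-D))) := by
  refine gam_le_of_mix (rowset i) (measurableSet_badrow hp i Δ R D Q b) fun Z => ?_
  by_cases hG : Gi p i Δ R D Z
  · obtain ⟨B, hB, hB2⟩ := chain i (Ni p i Δ Z) hR hD
      (fun v hv => ⟨(bl_norm hp hn hv.1.1).trans hR2, hv.1.2⟩) hG K
    have hsub : {W | mix (rowset i) Z W ∈ badrow p i Δ R D Q b} ⊆ B := by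
      rintro W ⟨-, hop, v, hv, hvb⟩
      by_contra hW
      rw [Ni_mix] at hv
      obtain ⟨v', h1, h2⟩ := hB2 W hW v hv
      set Z' := mix (rowset i) Z W with hZ'
      have h3 : ell i Z' v = ell i Z' (v - v') + ell i W v' := by
        rw [ell_sub, hZ', ell_mix, ell_mix]; ring
      have h4 := abs_ell_le_opn hn i Z' (v - v')
      have h5 : Real.sqrt ((v - v') ⬝ᵥ (v - v')) ≤ R / 2 ^ K := by
        rw [← Real.sqrt_sq (show 0 ≤ R / 2 ^ K by positivity)]
        exact Real.sqrt_le_sqrt h1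
      have h6 : 2 * opn Z' * Real.sqrt ((v - v') ⬝ᵥ (v - v')) ≤ 2 * Q * (R / 2 ^ K) := by
        refine mul_le_mul (by linarith) h5 (Real.sqrt_nonneg _) (by linarith)
      have h7 : |ell i Z' v| ≤ b := by
        rw [h3]
        refine (abs_add_le _ _).trans ?_
        linarith
      linarith
    calc (gam (Fin n × Fin n)) {W | mix (rowset i) Z W ∈ badrow p i Δ R D Q b}
        ≤ (gam (Fin n × Fin n)) B := measure_mono hsub
      _ = ENNReal.ofReal ((gam (Fin n × Fin n)).real B) := (ofReal_measureReal (measure_ne_top _ _)).symm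
      _ ≤ _ := ENNReal.ofReal_le_ofReal hB
  · have : {W | mix (rowset i) Z W ∈ badrow p i Δ R D Q b} = ∅ := by
      ext W
      simp only [mem_ofPred_eq, mem_empty_iff_false, iff_false]
      rintro ⟨h, -⟩
      rw [Gi_mix] at h
      exact hG h
    rw [this]
    simp

end Pool.Agent.H97.GP
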