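import Mathlib
import Pool.Agent.H97.G9

set_option autoImplicit false

open MeasureTheory ProbabilityTheory Set Filter Topology
open scoped ENNReal NNReal Matrix

namespace Pool.Agent.H97.GP

theorem integral_sq_gauss (v : ℝ≥0) : ∫ x : ℝ, x ^ 2 ∂(gaussianReal 0 v) = v := by
  have h := variance_id_gaussianReal (μ := 0) (v := v)
  rw [variance_of_integral_eq_zero aemeasurable_id (by simp [integral_id_gaussianReal])] at h
  exact h

theorem integrable_sq_gauss (v : ℝ≥0) : Integrable (fun x : ℝ => x ^ 2) (gaussianReal 0 v) :=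
  (memLp_id_gaussianReal 2).integrable_sq

variable {E : Type*} [Fintype E]

theorem integral_dot_sq (t : E → ℝ) : ∫ ω, (t ⬝ᵥ ω) ^ 2 ∂(gam E) = t ⬝ᵥ t := by
  have h := integral_sq_gauss (Real.toNNReal (t ⬝ᵥ t))
  rw [← map_dot t, integral_map (measurable_dot t).aemeasurable (by fun_prop),
    Real.coe_toNNReal _ (dot_self_nonneg t)] at h
  exact h

theorem integrable_dot_sq (t : E → ℝ) : Integrable (fun ω => (t ⬝ᵥ ω) ^ 2) (gam E) := by
  have h := integrable_sq_gauss (Real.toNNReal (t ⬝ᵥ t))
  rw [← map_dot t] at h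
  exact (integrable_map_measure (by fun_prop) (measurable_dot t).aemeasurable).1 h

/-- the variable `x sin x` for a normalised functional -/
theorem mean_sin (t : E → ℝ) (ht : t ⬝ᵥ t = 1) :
    1 / 2 ≤ ∫ ω, (t ⬝ᵥ ω) * Real.sin (t ⬝ᵥ ω) ∂(gam E) := by
  have h1 : ∫ ω, (t ⬝ᵥ ω) * Real.sin (t ⬝ᵥ ω) ∂(gam E) =
      ∫ x, x * Real.sin x ∂(gaussianReal 0 1) := by
    have h2 := map_dot t
    rw [ht, Real.toNNReal_one] at h2
    rw [← h2, integral_map (measurable_dot t).aemeasurable]
    exact (by fun_prop : Measurable fun x : ℝ => x * Real.sin x).aestronglyMeasurable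
  rw [h1, stein_one (f := Real.sin) (f' := Real.cos) (C := 1) (fun x => Real.hasDerivAt_sin x)
    (fun x => Real.abs_sin_le_one x) (fun x => Real.abs_cos_le_one x) Real.measurable_cos]
  have h3 : ∫ x : ℝ, (1 - x ^ 2 / 2) ∂(gaussianReal 0 1) = 1 / 2 := by
    rw [integral_sub (integrable_const _) ((integrable_sq_gauss 1).div_const 2), integral_div,
      integral_sq_gauss]
    norm_num
  rw [← h3]
  refine integral_mono ((integrable_const _).sub ((integrable_sq_gauss 1).div_const 2)) ?_
    (fun x => Real.one_sub_sq_div_two_le_cos)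
  exact Integrable.of_bound Real.measurable_cos.aestronglyMeasurable 1
    (Eventually.of_forall fun x => Real.abs_cos_le_one x)

end Pool.Agent.H97.GP
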