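import Mathlib
import Pool.Agent.H97.G10

set_option autoImplicit false

open MeasureTheory ProbabilityTheory Set Filter Topology
open scoped ENNReal NNReal Matrix

namespace Pool.Agent.H97.GP

variable {n : ℕ}

/-- indicator of the first `m` entries of row `k` -/
def sv (m : ℕ) (k : Fin n) : Fin n × Fin n → ℝ := fun e => if e.1 = k ∧ (e.2 : ℕ) < m then 1 else 0

/-- partial row sum -/
def Sk (m : ℕ) (k : Fin n) (Z : Fin n × Fin n → ℝ) : ℝ := sv m k ⬝ᵥ Z

/-- smoothed sign variable -/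
noncomputable def Yk (m : ℕ) (k : Fin n) (Z : Fin n × Fin n → ℝ) : ℝ :=
  Sk m k Z * Real.sin (Sk m k Z / Real.sqrt m)

theorem sv_dot {m : ℕ} (hm : m ≤ n) (k : Fin n) : sv m k ⬝ᵥ sv m k = m := by
  unfold dotProduct sv
  rw [Fintype.sum_prod_type]
  have h1 : ∀ x : Fin n, ∑ y : Fin n, ((if x = k ∧ (y : ℕ) < m then (1 : ℝ) else 0) *
      (if x = k ∧ (y : ℕ) < m then (1 : ℝ) else 0)) = if x = k then (m : ℝ) else 0 := by
    intro x
    by_cases hx : x = k
    · simp only [hx, true_and, if_true]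
      have h2 : ∀ y : Fin n, ((if (y : ℕ) < m then (1 : ℝ) else 0) *
          (if (y : ℕ) < m then (1 : ℝ) else 0)) = if (y : ℕ) < m then (1 : ℝ) else 0 := by
        intro y; split_ifs <;> simp
      simp_rw [h2]
      rw [Finset.sum_boole]
      congr 1
      have : (Finset.univ.filter fun y : Fin n => (y : ℕ) < m) =
          (Finset.univ : Finset (Fin m)).map (Fin.castLEEmb hm) := by
        ext y
        simp only [Finset.mem_filter, Finset.mem_univ, true_and, Finset.mem_map]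
        constructor
        · intro h; exact ⟨⟨y, h⟩, by ext; simp⟩
        · rintro ⟨z, rfl⟩; simp
      rw [this, Finset.card_map, Finset.card_univ, Fintype.card_fin]
    · simp [hx]
  simp_rw [h1]
  simp

theorem continuous_Sk (m : ℕ) (k : Fin n) : Continuous (Sk m k) := by
  unfold Sk dotProduct; fun_prop

theorem continuous_Yk (m : ℕ) (k : Fin n) : Continuous (Yk m k) := by
  have := continuous_Sk m k
  unfold Yk
  fun_prop

theorem Sk_smul_eq {m : ℕ} (hm0 : 0 < m) (k : Fin n) (Z : Fin n × Fin n → ℝ) :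
    Sk m k Z = Real.sqrt m * (((Real.sqrt m)⁻¹ • sv m k) ⬝ᵥ Z) := by
  have hs : 0 < Real.sqrt m := Real.sqrt_pos.2 (by exact_mod_cast hm0)
  rw [smul_dotProduct, smul_eq_mul, ← mul_assoc, mul_inv_cancel₀ hs.ne', one_mul]
  rfl

theorem norm_sv {m : ℕ} (hm0 : 0 < m) (hm : m ≤ n) (k : Fin n) :
    ((Real.sqrt m)⁻¹ • sv m k) ⬝ᵥ ((Real.sqrt m)⁻¹ • sv m k) = 1 := by
  have hm' : (0 : ℝ) < m := by exact_mod_cast hm0
  rw [smul_dotProduct, dotProduct_smul, sv_dot hm, smul_eq_mul, smul_eq_mul, ← mul_assoc, ← mul_inv,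
    Real.mul_self_sqrt hm'.le]
  exact inv_mul_cancel₀ hm'.ne'

theorem abs_Yk_le (m : ℕ) (k : Fin n) (Z : Fin n × Fin n → ℝ) : |Yk m k Z| ≤ |Sk m k Z| := by
  unfold Yk
  rw [abs_mul]
  exact mul_le_of_le_one_right (abs_nonneg _) (Real.abs_sin_le_one _)

theorem integrable_Yk (m : ℕ) (k : Fin n) : Integrable (Yk m k) (gam (Fin n × Fin n)) :=
  (integrable_dot (sv m k)).abs.mono' (continuous_Yk m k).aestronglyMeasurable
    (Eventually.of_forall fun Z => abs_Yk_le m k Z)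

theorem mean_Yk {m : ℕ} (hm0 : 0 < m) (hm : m ≤ n) (k : Fin n) :
    Real.sqrt m / 2 ≤ ∫ Z, Yk m k Z ∂(gam (Fin n × Fin n)) := by
  have hs : 0 < Real.sqrt m := Real.sqrt_pos.2 (by exact_mod_cast hm0)
  have h := mean_sin _ (norm_sv hm0 hm k)
  have h1 : ∀ Z, Yk m k Z = Real.sqrt m * ((((Real.sqrt m)⁻¹ • sv m k) ⬝ᵥ Z) *
      Real.sin (((Real.sqrt m)⁻¹ • sv m k) ⬝ᵥ Z)) := by
    intro Z
    unfold Yk
    have h2 : Sk m k Z / Real.sqrt m = ((Real.sqrt m)⁻¹ • sv m k) ⬝ᵥ Z := by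
      rw [Sk_smul_eq hm0]; field_simp
    rw [h2, Sk_smul_eq hm0]
    ring
  simp_rw [h1]
  rw [integral_const_mul]
  have := mul_le_mul_of_nonneg_left h hs.le
  linarith

/-- centred variable -/
noncomputable def Yc (m : ℕ) (k : Fin n) (Z : Fin n × Fin n → ℝ) : ℝ :=
  Yk m k Z - ∫ Z, Yk m k Z ∂(gam (Fin n × Fin n))

theorem continuous_Yc (m : ℕ) (k : Fin n) : Continuous (Yc m k) :=
  (continuous_Yk m k).sub continuous_const

theorem integrable_Yc (m : ℕ) (k : Fin n) : Integrable (Yc m k) (gam (Fin n × Fin n)) :=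
  (integrable_Yk m k).sub (integrable_const _)

theorem integral_Yc (m : ℕ) (k : Fin n) : ∫ Z, Yc m k Z ∂(gam (Fin n × Fin n)) = 0 := by
  unfold Yc
  rw [integral_sub (integrable_Yk m k) (integrable_const _)]
  simp

theorem integrable_Yk_sq (m : ℕ) (k : Fin n) :
    Integrable (fun Z => Yk m k Z ^ 2) (gam (Fin n × Fin n)) := by
  refine (integrable_dot_sq (sv m k)).mono' ((continuous_Yk m k).pow 2).aestronglyMeasurable
    (Eventually.of_forall fun Z => ?_)
  rw [Real.norm_eq_abs, abs_of_nonneg (sq_nonneg _)]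
  exact sq_le_sq.2 (abs_Yk_le m k Z)

theorem integral_Yc_sq_le {m : ℕ} (hm : m ≤ n) (k : Fin n) :
    ∫ Z, Yc m k Z ^ 2 ∂(gam (Fin n × Fin n)) ≤ m := by
  set c := ∫ Z, Yk m k Z ∂(gam (Fin n × Fin n)) with hc
  have h1 : ∀ Z, Yc m k Z ^ 2 = Yk m k Z ^ 2 - (2 * c) * Yk m k Z + c ^ 2 := by
    intro Z; unfold Yc; rw [← hc]; ring
  simp_rw [h1]
  have hI1 : Integrable (fun Z => Yk m k Z ^ 2 - (2 * c) * Yk m k Z) (gam (Fin n × Fin n)) :=
    (integrable_Yk_sq m k).sub ((integrable_Yk m k).const_mul _)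
  rw [integral_add hI1 (integrable_const _),
    integral_sub (integrable_Yk_sq m k) ((integrable_Yk m k).const_mul _),
    integral_const_mul, ← hc]
  have h2 : ∫ Z, Yk m k Z ^ 2 ∂(gam (Fin n × Fin n)) ≤ m := by
    rw [← sv_dot hm k, ← integral_dot_sq (sv m k)]
    exact integral_mono (integrable_Yk_sq m k) (integrable_dot_sq (sv m k))
      (fun Z => sq_le_sq.2 (abs_Yk_le m k Z))
  have h3 : ∫ _Z : Fin n × Fin n → ℝ, c ^ 2 ∂(gam (Fin n × Fin n)) = c ^ 2 := by simp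
  rw [h3]
  nlinarith [sq_nonneg c]

theorem integrable_Yc_sq (m : ℕ) (k : Fin n) :
    Integrable (fun Z => Yc m k Z ^ 2) (gam (Fin n × Fin n)) := by
  set c := ∫ Z, Yk m k Z ∂(gam (Fin n × Fin n)) with hc
  have h1 : ∀ Z, Yc m k Z ^ 2 = Yk m k Z ^ 2 - (2 * c) * Yk m k Z + c ^ 2 := by
    intro Z; unfold Yc; rw [← hc]; ring
  simp_rw [h1]
  exact ((integrable_Yk_sq m k).sub ((integrable_Yk m k).const_mul _)).add (integrable_const _)

theorem Sk_mix_same (m : ℕ) (k : Fin n) (Z W : Fin n × Fin n → ℝ) :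
    Sk m k (mix {e | e.1 = k} Z W) = Sk m k W := by
  unfold Sk dotProduct
  refine Finset.sum_congr rfl fun e _ => ?_
  by_cases h : e.1 = k
  · rw [mix_mem (show e ∈ {e : Fin n × Fin n | e.1 = k} from h)]
  · simp [sv, h]

theorem Sk_mix_ne (m : ℕ) {k l : Fin n} (hkl : k ≠ l) (Z W : Fin n × Fin n → ℝ) :
    Sk m l (mix {e | e.1 = k} Z W) = Sk m l Z := by
  unfold Sk dotProduct
  refine Finset.sum_congr rfl fun e _ => ?_
  by_cases h : e.1 = k
  · have : e.1 ≠ l := by rw [h]; exact hkl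
    simp [sv, this]
  · rw [mix_notMem (show e ∉ {e : Fin n × Fin n | e.1 = k} from h)]

theorem Yc_mix_same (m : ℕ) (k : Fin n) (Z W : Fin n × Fin n → ℝ) :
    Yc m k (mix {e | e.1 = k} Z W) = Yc m k W := by
  unfold Yc Yk
  rw [Sk_mix_same]

theorem Yc_mix_ne (m : ℕ) {k l : Fin n} (hkl : k ≠ l) (Z W : Fin n × Fin n → ℝ) :
    Yc m l (mix {e | e.1 = k} Z W) = Yc m l Z := by
  unfold Yc Yk
  rw [Sk_mix_ne m hkl]

theorem integral_Yc_mul (m : ℕ) {k l : Fin n} (hkl : k ≠ l) :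
    ∫ Z, Yc m k Z * Yc m l Z ∂(gam (Fin n × Fin n)) = 0 := by
  have hmp := mp_mix (E := Fin n × Fin n) {e | e.1 = k}
  have hc : Continuous (fun Z => Yc m k Z * Yc m l Z) :=
    (continuous_Yc m k).mul (continuous_Yc m l)
  rw [← hmp.map_eq, integral_map hmp.measurable.aemeasurable hc.aestronglyMeasurable]
  simp_rw [Yc_mix_same, Yc_mix_ne m hkl]
  have h1 : ∀ p : (Fin n × Fin n → ℝ) × (Fin n × Fin n → ℝ),
      Yc m k p.2 * Yc m l p.1 = Yc m l p.1 * Yc m k p.2 := fun p => mul_comm _ _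
  simp_rw [h1]
  rw [integral_prod_mul (fun Z => Yc m l Z) (fun Z => Yc m k Z), integral_Yc]
  simp

theorem integrable_Yc_mul (m : ℕ) (k l : Fin n) :
    Integrable (fun Z => Yc m k Z * Yc m l Z) (gam (Fin n × Fin n)) := by
  have hc : Continuous (fun Z => Yc m k Z * Yc m l Z) :=
    (continuous_Yc m k).mul (continuous_Yc m l)
  refine ((integrable_Yc_sq m k).add (integrable_Yc_sq m l)).mono' hc.aestronglyMeasurable
    (Eventually.of_forall fun Z => ?_)
  rw [Real.norm_eq_abs, abs_mul]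
  simp only [Pi.add_apply]
  nlinarith [sq_nonneg (|Yc m k Z| - |Yc m l Z|), sq_abs (Yc m k Z), sq_abs (Yc m l Z),
    sq_nonneg (Yc m k Z), sq_nonneg (Yc m l Z)]

/-- second set of indices -/
def B2 (m n : ℕ) : Finset (Fin n) := Finset.univ.filter fun k => m ≤ (k : ℕ)

theorem card_B2 {m : ℕ} (hm : m ≤ n) : ((B2 m n).card : ℝ) = n - m := by
  have h1 : (B2 m n).card + m = n := by
    have h2 := Finset.card_filter_add_card_filter_not (s := (Finset.univ : Finset (Fin n)))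
      (fun k => m ≤ (k : ℕ))
    have h3 : (Finset.univ.filter fun y : Fin n => ¬ m ≤ (y : ℕ)) =
        (Finset.univ : Finset (Fin m)).map (Fin.castLEEmb hm) := by
      ext y
      simp only [Finset.mem_filter, Finset.mem_univ, true_and, Finset.mem_map, not_le]
      constructor
      · intro h; exact ⟨⟨y, h⟩, by ext; simp⟩
      · rintro ⟨z, rfl⟩; simp
    rw [h3, Finset.card_map, Finset.card_univ, Fintype.card_fin, Finset.card_univ,
      Fintype.card_fin] at h2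
    exact h2
  have : (((B2 m n).card + m : ℕ) : ℝ) = n := by rw [h1]
  push_cast at this
  linarith

/-- Chebyshev bound for the sum -/
theorem cheb {m : ℕ} (hm0 : 0 < m) (hm : m < n) :
    (gam (Fin n × Fin n)).real {Z | ∑ k ∈ B2 m n, Yk m k Z ≤ (n - m) * Real.sqrt m / 4} ≤
      16 / (n - m) := by
  have hm' : (0 : ℝ) < m := by exact_mod_cast hm0
  have hnm : (0 : ℝ) < n - m := by
    have : (m : ℝ) < n := by exact_mod_cast hm
    linarith
  have hs : 0 < Real.sqrt m := Real.sqrt_pos.2 hm'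
  set c : ℝ := (n - m) * Real.sqrt m / 4 with hc
  have hcpos : 0 < c := by positivity
  have hsub : {Z : Fin n × Fin n → ℝ | ∑ k ∈ B2 m n, Yk m k Z ≤ c} ⊆
      {Z | c ^ 2 ≤ (∑ k ∈ B2 m n, Yc m k Z) ^ 2} := by
    intro Z hZ
    change ∑ k ∈ B2 m n, Yk m k Z ≤ c at hZ
    change c ^ 2 ≤ (∑ k ∈ B2 m n, Yc m k Z) ^ 2
    have h1 : ∑ k ∈ B2 m n, Yc m k Z ≤ -c := by
      have h2 : ∑ k ∈ B2 m n, Yc m k Z ≤ ∑ k ∈ B2 m n, (Yk m k Z - Real.sqrt m / 2) := by
        refine Finset.sum_le_sum fun k _ => ?_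
        unfold Yc
        have := mean_Yk hm0 hm.le k
        linarith
      rw [Finset.sum_sub_distrib, Finset.sum_const, nsmul_eq_mul, card_B2 hm.le] at h2
      have h3 : (n - m : ℝ) * (Real.sqrt m / 2) = 2 * c := by rw [hc]; ring
      linarith
    nlinarith
  refine (measureReal_mono hsub (measure_ne_top _ _)).trans ?_
  have hI : ∀ Z, (∑ k ∈ B2 m n, Yc m k Z) ^ 2 =
      ∑ k ∈ B2 m n, ∑ l ∈ B2 m n, Yc m k Z * Yc m l Z := by
    intro Z; rw [sq, Finset.sum_mul_sum]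
  have hInt : Integrable (fun Z => (∑ k ∈ B2 m n, Yc m k Z) ^ 2) (gam (Fin n × Fin n)) := by
    simp_rw [hI]
    exact integrable_finsetSum _ fun k _ => integrable_finsetSum _ fun l _ =>
      integrable_Yc_mul m k l
  have h := mul_meas_ge_le_integral_of_nonneg (μ := gam (Fin n × Fin n))
    (f := fun Z => (∑ k ∈ B2 m n, Yc m k Z) ^ 2) (Eventually.of_forall fun Z => sq_nonneg _)
    hInt (c ^ 2)
  have hval : ∫ Z, (∑ k ∈ B2 m n, Yc m k Z) ^ 2 ∂(gam (Fin n × Fin n)) ≤ (n - m) * m := by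
    simp_rw [hI]
    rw [integral_finsetSum _ (fun k _ => integrable_finsetSum _ fun l _ => integrable_Yc_mul m k l)]
    have h5 : ∀ k ∈ B2 m n, ∫ Z, ∑ l ∈ B2 m n, Yc m k Z * Yc m l Z ∂(gam (Fin n × Fin n)) ≤ m := by
      intro k hk
      rw [integral_finsetSum _ (fun l _ => integrable_Yc_mul m k l),
        Finset.sum_eq_single_of_mem k hk (fun l _ hl => integral_Yc_mul m (Ne.symm hl))]
      have : ∀ Z, Yc m k Z * Yc m k Z = Yc m k Z ^ 2 := fun Z => (sq _).symm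
      simp_rw [this]
      exact integral_Yc_sq_le hm.le k
    have h6 := Finset.sum_le_card_nsmul (B2 m n) _ _ h5
    rw [nsmul_eq_mul, card_B2 hm.le] at h6
    exact h6
  have h7 : c ^ 2 * (gam (Fin n × Fin n)).real {Z | c ^ 2 ≤ (∑ k ∈ B2 m n, Yc m k Z) ^ 2} ≤
      (n - m) * m := h.trans hval
  have h8 : c ^ 2 = (n - m) ^ 2 * m / 16 := by
    rw [hc, div_pow, mul_pow, Real.sq_sqrt hm'.le]; norm_num
  rw [le_div_iff₀ hnm]
  rw [h8] at h7
  have h9 : (gam (Fin n × Fin n)).real {Z | c ^ 2 ≤ (∑ k ∈ B2 m n, Yc m k Z) ^ 2} * (n - m) *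
      ((n - m) * m) ≤ 16 * ((n - m) * m) := by
    rw [h8]
    nlinarith
  exact le_of_mul_le_mul_right h9 (by positivity)

end Pool.Agent.H97.GP
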