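import Mathlib
import Pool.Agent.H97.G11

set_option autoImplicit false

open MeasureTheory ProbabilityTheory Set Filter Topology
open scoped ENNReal NNReal Matrix

namespace Pool.Agent.H97.GP

variable {n : ℕ}

/-- unnormalised test vector -/
noncomputable def av (m : ℕ) (Z : Fin n × Fin n → ℝ) : Fin n → ℝ :=
  fun j => if (j : ℕ) < m then 1 else Real.sin (Sk m j Z / Real.sqrt m)

theorem continuous_av (m : ℕ) (j : Fin n) : Continuous (fun Z => av m Z j) := by
  unfold av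
  by_cases h : (j : ℕ) < m
  · simp only [h, if_true]; exact continuous_const
  · simp only [h, if_false]
    have := continuous_Sk m j
    fun_prop

theorem abs_av_le (m : ℕ) (Z : Fin n × Fin n → ℝ) (j : Fin n) : |av m Z j| ≤ 1 := by
  unfold av
  split_ifs
  · simp
  · exact Real.abs_sin_le_one _

/-- block used for the row sums -/
def blk (m n : ℕ) : Set (Fin n × Fin n) := {e | m ≤ (e.1 : ℕ) ∧ (e.2 : ℕ) < m}

open Classical in
/-- coefficients of the remaining entries -/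
noncomputable def rc (m : ℕ) (Z : Fin n × Fin n → ℝ) : Fin n × Fin n → ℝ :=
  fun e => if e ∈ blk m n then 0 else av m Z e.1 * av m Z e.2

theorem rc_dot_le (m : ℕ) (Z : Fin n × Fin n → ℝ) : rc m Z ⬝ᵥ rc m Z ≤ (n : ℝ) ^ 2 := by
  unfold dotProduct
  calc ∑ e, rc m Z e * rc m Z e ≤ ∑ _e : Fin n × Fin n, (1 : ℝ) := by
        refine Finset.sum_le_sum fun e _ => ?_
        unfold rc
        split_ifs
        · simp
        · have h1 : |av m Z e.1 * av m Z e.2| ≤ 1 := by
            rw [abs_mul]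
            exact mul_le_one₀ (abs_av_le _ _ _) (abs_nonneg _) (abs_av_le _ _ _)
          have h2 := abs_le.1 h1
          nlinarith
    _ = (n : ℝ) ^ 2 := by
        rw [Finset.sum_const, Finset.card_univ, Fintype.card_prod, Fintype.card_fin, nsmul_eq_mul]
        push_cast; ring

theorem Sk_eq (m : ℕ) (k : Fin n) (Z : Fin n × Fin n → ℝ) :
    Sk m k Z = ∑ j : Fin n, if (j : ℕ) < m then Z (k, j) else 0 := by
  unfold Sk dotProduct
  rw [Fintype.sum_prod_type, Finset.sum_eq_single k]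
  · refine Finset.sum_congr rfl fun j _ => ?_
    by_cases hj : (j : ℕ) < m <;> simp [sv, hj]
  · intro l _ hl
    refine Finset.sum_eq_zero fun y _ => ?_
    simp [sv, hl]
  · intro h; exact absurd (Finset.mem_univ k) h

/-- decomposition of the quadratic form at the test vector -/
theorem qf_av (m : ℕ) (Z : Fin n × Fin n → ℝ) :
    qf Z (av m Z) = ∑ k ∈ B2 m n, Yk m k Z + rc m Z ⬝ᵥ Z := by
  have h1 : qf Z (av m Z) = ∑ e : Fin n × Fin n,
      (if m ≤ (e.1 : ℕ) ∧ (e.2 : ℕ) < m then av m Z e.1 * Z e else 0) + rc m Z ⬝ᵥ Z := by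
    unfold qf bil dotProduct
    rw [← Finset.sum_add_distrib]
    refine Finset.sum_congr rfl fun e _ => ?_
    unfold outer rc blk
    simp only [mem_ofPred_eq]
    by_cases h : m ≤ (e.1 : ℕ) ∧ (e.2 : ℕ) < m
    · simp only [h, and_self, if_true]
      have : av m Z e.2 = 1 := by unfold av; simp [h.2]
      rw [this]; ring
    · simp only [h, if_false]; ring
  rw [h1]
  congr 1
  rw [Fintype.sum_prod_type, B2, Finset.sum_filter]
  refine Finset.sum_congr rfl fun k _ => ?_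
  by_cases hk : m ≤ (k : ℕ)
  · simp only [hk, true_and, if_true]
    have h3 : Yk m k Z = Sk m k Z * av m Z k := by
      unfold Yk av
      rw [if_neg (by omega)]
    rw [h3, Sk_eq, Finset.sum_mul]
    refine Finset.sum_congr rfl fun j _ => ?_
    by_cases hj : (j : ℕ) < m
    · simp only [hj, if_true]; ring
    · simp [hj]
  · simp [hk]

theorem Sk_mix_blk {m : ℕ} {k : Fin n} (hk : m ≤ (k : ℕ)) (Z W : Fin n × Fin n → ℝ) :
    Sk m k (mix (blk m n)ᶜ Z W) = Sk m k Z := by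
  unfold Sk dotProduct
  refine Finset.sum_congr rfl fun e _ => ?_
  by_cases h : e ∈ (blk m n)ᶜ
  · have h2 : ¬ (e.1 = k ∧ (e.2 : ℕ) < m) := by
      rintro ⟨h3, h4⟩
      exact h ⟨by rw [h3]; exact hk, h4⟩
    simp [sv, h2]
  · rw [mix_notMem h]

theorem av_mix (m : ℕ) (Z W : Fin n × Fin n → ℝ) : av m (mix (blk m n)ᶜ Z W) = av m Z := by
  funext j
  unfold av
  by_cases h : (j : ℕ) < m
  · simp only [h, if_true]
  · simp only [h, if_false]
    rw [Sk_mix_blk (by omega)]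

theorem rest_mix (m : ℕ) (Z W : Fin n × Fin n → ℝ) :
    rc m (mix (blk m n)ᶜ Z W) ⬝ᵥ (mix (blk m n)ᶜ Z W) = rc m Z ⬝ᵥ W := by
  unfold dotProduct
  refine Finset.sum_congr rfl fun e _ => ?_
  unfold rc
  rw [av_mix]
  by_cases h : e ∈ blk m n
  · simp [h]
  · rw [mix_mem (show e ∈ (blk m n)ᶜ from h)]

theorem continuous_rest (m : ℕ) : Continuous (fun Z : Fin n × Fin n → ℝ => rc m Z ⬝ᵥ Z) := by
  unfold dotProduct rc
  refine continuous_finsetSum _ fun e _ => ?_
  by_cases h : e ∈ blk m n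
  · simp only [h, if_true]; fun_prop
  · simp only [h, if_false]
    exact ((continuous_av m e.1).mul (continuous_av m e.2)).mul (continuous_apply e)

theorem rest_le (m : ℕ) (hn : 0 < n) {c : ℝ} (hc : 0 ≤ c) :
    (gam (Fin n × Fin n)) {Z | c ≤ |rc m Z ⬝ᵥ Z|} ≤
      ENNReal.ofReal (2 * Real.exp (-(c ^ 2 / (2 * (n : ℝ) ^ 2)))) := by
  have hmeas : MeasurableSet {Z : Fin n × Fin n → ℝ | c ≤ |rc m Z ⬝ᵥ Z|} :=
    (isClosed_le continuous_const (continuous_rest m).abs).measurableSet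
  refine gam_le_of_mix (blk m n)ᶜ hmeas fun Z => ?_
  have h1 : {W | mix (blk m n)ᶜ Z W ∈ {Z : Fin n × Fin n → ℝ | c ≤ |rc m Z ⬝ᵥ Z|}} =
      {W | c ≤ |rc m Z ⬝ᵥ W|} := by
    ext W
    simp only [mem_ofPred_eq]
    rw [rest_mix]
  rw [h1, ← ofReal_measureReal (measure_ne_top _ _)]
  refine ENNReal.ofReal_le_ofReal ?_
  exact tail_abs_dot (rc m Z) (by exact_mod_cast hn) (rc_dot_le m Z) hc

theorem smul_av_mem {p : ℝ} (hp : 2 < p) (hn : 0 < n) (m : ℕ) (Z : Fin n × Fin n → ℝ) :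
    ((n : ℝ) ^ (-(1 / p))) • av m Z ∈ bl p n := by
  have hn' : (0 : ℝ) < n := by exact_mod_cast hn
  change ∑ i, |(((n : ℝ) ^ (-(1 / p))) • av m Z) i| ^ p ≤ 1
  have h1 : ∀ i, |(((n : ℝ) ^ (-(1 / p))) • av m Z) i| ^ p ≤ 1 / n := by
    intro i
    rw [Pi.smul_apply, smul_eq_mul, abs_mul, abs_of_pos (Real.rpow_pos_of_pos hn' _),
      Real.mul_rpow (Real.rpow_nonneg hn'.le _) (abs_nonneg _), ← Real.rpow_mul hn'.le]
    have h2 : -(1 / p) * p = -1 := by
      have : p ≠ 0 := by linarith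
      field_simp
    rw [h2, Real.rpow_neg_one, one_div]
    refine mul_le_of_le_one_right (by positivity) ?_
    exact Real.rpow_le_one (abs_nonneg _) (abs_av_le _ _ _) (by linarith)
  calc _ ≤ ∑ _i : Fin n, 1 / (n : ℝ) := Finset.sum_le_sum fun i _ => h1 i
    _ = 1 := by
      rw [Finset.sum_const, Finset.card_univ, Fintype.card_fin, nsmul_eq_mul]
      field_simp

/-- lower bound for the maximum -/
theorem lower {p : ℝ} (hp : 2 < p) (hn : 2 ≤ n) :
    (gam (Fin n × Fin n)) {Z | Ms (bl p n) Z < Real.sqrt n * (n : ℝ) ^ (1 - 2 / p) / 32} ≤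
      ENNReal.ofReal (32 / n + 2 * Real.exp (-(n / 2048))) := by
  have hn0 : 0 < n := by omega
  have hn' : (0 : ℝ) < n := by exact_mod_cast hn0
  set m : ℕ := n / 2 with hm
  have hm0 : 0 < m := by omega
  have hmn : m < n := by omega
  have hm4 : n ≤ 4 * m := by omega
  have hm2 : 2 * m ≤ n := by omega
  have hm4' : (n : ℝ) ≤ 4 * m := by exact_mod_cast hm4
  have hm2' : 2 * (m : ℝ) ≤ n := by exact_mod_cast hm2
  have hmpos : (0 : ℝ) < m := by exact_mod_cast hm0
  set s := Real.sqrt m with hs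
  set r := Real.sqrt n with hr
  have hspos : 0 < s := Real.sqrt_pos.2 hmpos
  have hrpos : 0 < r := Real.sqrt_pos.2 hn'
  have hss : s ^ 2 = m := Real.sq_sqrt hmpos.le
  have hrr : r ^ 2 = n := Real.sq_sqrt hn'.le
  have hrs : r ≤ 2 * s := by
    have : r ^ 2 ≤ (2 * s) ^ 2 := by rw [mul_pow, hss, hrr]; linarith
    exact (pow_le_pow_iff_left₀ hrpos.le (by positivity) (by norm_num)).1 this
  set c : ℝ := (n - m) * s / 8 with hc
  have hnm : (0 : ℝ) < n - m := by linarith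
  have hcpos : 0 < c := by positivity
  have hclow : (n : ℝ) * r / 32 ≤ c := by
    have h1 : (n : ℝ) / 2 ≤ n - m := by linarith
    have h2 : r / 2 ≤ s := by linarith
    have h3 : (n : ℝ) / 2 * (r / 2) ≤ (n - m) * s := mul_le_mul h1 h2 (by positivity) hnm.le
    rw [hc]; linarith
  have hsub : {Z : Fin n × Fin n → ℝ | Ms (bl p n) Z < r * (n : ℝ) ^ (1 - 2 / p) / 32} ⊆
      {Z | ∑ k ∈ B2 m n, Yk m k Z ≤ (n - m) * s / 4} ∪ {Z | c ≤ |rc m Z ⬝ᵥ Z|} := by
    intro Z hZ
    change Ms (bl p n) Z < r * (n : ℝ) ^ (1 - 2 / p) / 32 at hZ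
    by_contra hcon
    rw [mem_union, not_or] at hcon
    obtain ⟨h1, h2⟩ := hcon
    change ¬ (∑ k ∈ B2 m n, Yk m k Z ≤ (n - m) * s / 4) at h1
    change ¬ (c ≤ |rc m Z ⬝ᵥ Z|) at h2
    push Not at h1 h2
    have h3 := qf_le_Ms (bl_cube hp) Z (smul_av_mem hp hn0 m Z)
    have h4 : qf Z (((n : ℝ) ^ (-(1 / p))) • av m Z) = (n : ℝ) ^ (-(2 / p)) * qf Z (av m Z) := by
      unfold qf
      rw [bil_smul_left, bil_smul_right, ← mul_assoc, ← Real.rpow_add hn']
      congr 2; ring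
    have h5 : c ≤ qf Z (av m Z) := by
      rw [qf_av]
      have h6 := abs_lt.1 h2
      have h7 : (n - m : ℝ) * s / 4 = 2 * c := by rw [hc]; ring
      linarith
    have h8 : (n : ℝ) ^ (-(2 / p)) * ((n : ℝ) * r / 32) ≤ Ms (bl p n) Z := by
      refine le_trans ?_ h3
      rw [h4]
      exact mul_le_mul_of_nonneg_left (hclow.trans h5) (Real.rpow_nonneg hn'.le _)
    have h9 : (n : ℝ) ^ (-(2 / p)) * ((n : ℝ) * r / 32) = r * (n : ℝ) ^ (1 - 2 / p) / 32 := by
      have : (n : ℝ) ^ (1 - 2 / p) = (n : ℝ) ^ (-(2 / p)) * n := by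
        rw [sub_eq_add_neg, add_comm, Real.rpow_add hn', Real.rpow_one]
      rw [this]; ring
    linarith
  calc (gam (Fin n × Fin n)) {Z | Ms (bl p n) Z < r * (n : ℝ) ^ (1 - 2 / p) / 32}
      ≤ (gam (Fin n × Fin n)) ({Z | ∑ k ∈ B2 m n, Yk m k Z ≤ (n - m) * s / 4} ∪
          {Z | c ≤ |rc m Z ⬝ᵥ Z|}) := measure_mono hsub
    _ ≤ (gam (Fin n × Fin n)) {Z | ∑ k ∈ B2 m n, Yk m k Z ≤ (n - m) * s / 4} +
          (gam (Fin n × Fin n)) {Z | c ≤ |rc m Z ⬝ᵥ Z|} := measure_union_le _ _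
    _ ≤ ENNReal.ofReal (32 / n) + ENNReal.ofReal (2 * Real.exp (-(n / 2048))) := by
        refine add_le_add ?_ ?_
        · rw [← ofReal_measureReal (measure_ne_top _ _)]
          refine ENNReal.ofReal_le_ofReal ((cheb hm0 hmn).trans ?_)
          rw [div_le_div_iff₀ hnm hn']
          linarith
        · refine (rest_le m hn0 hcpos.le).trans (ENNReal.ofReal_le_ofReal ?_)
          refine mul_le_mul_of_nonneg_left (Real.exp_le_exp.2 ?_) (by norm_num)
          have h1 : ((n : ℝ) * r / 32) ^ 2 ≤ c ^ 2 := pow_le_pow_left₀ (by positivity) hclow 2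
          have h2 : ((n : ℝ) * r / 32) ^ 2 = n ^ 2 * n / 1024 := by
            rw [div_pow, mul_pow, hrr]; norm_num
          have h3 : (n : ℝ) / 2048 ≤ c ^ 2 / (2 * (n : ℝ) ^ 2) := by
            rw [le_div_iff₀ (by positivity)]
            rw [h2] at h1
            nlinarith
          linarith
    _ = ENNReal.ofReal (32 / n + 2 * Real.exp (-(n / 2048))) := by
        rw [ENNReal.ofReal_add (by positivity) (by positivity)]

end Pool.Agent.H97.GP
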