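import Mathlib
import Pool.Agent.H97.G12

set_option autoImplicit false

open MeasureTheory ProbabilityTheory Set Filter Topology
open scoped ENNReal NNReal Matrix

namespace Pool.Agent.H97.GP

/-- the conditions on `n` under which the argument runs -/
structure Big (p : ℝ) (n : ℕ) : Prop where
  hn : 9 ≤ n
  hL : 700 ≤ Real.log n
  hR : 65536 * Real.log n ^ 4 ≤ Real.sqrt ((n : ℝ) ^ (1 - 2 / p))
  hs : 2 * Real.log n ^ 2 ≤ Real.sqrt n
  hlog : (Nat.log 2 n : ℝ) + 3 ≤ 3 * Real.log n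

section params
variable (p : ℝ) (n : ℕ)

/-- squared radius -/
noncomputable def R2 : ℝ := (n : ℝ) ^ (1 - 2 / p)
/-- radius -/
noncomputable def Rr : ℝ := Real.sqrt (R2 p n)
/-- bound for the operator norm -/
noncomputable def Qn : ℝ := Real.sqrt n * Real.log n ^ 2
/-- mean of the maximum -/
noncomputable def mM : ℝ := ∫ Z, Ms (bl p n) Z ∂(gam (Fin n × Fin n))
/-- width of level `l` -/
noncomputable def Dl (l : ℕ) : ℝ := 4 * Qn n * R2 p n * 2 ^ l / n
/-- perturbation size of level `l` -/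
noncomputable def sl (l : ℕ) : ℝ := Real.sqrt (2 * Dl p n l / mM p n)
/-- entropy constant -/
noncomputable def En (l : ℕ) : ℝ := Real.log n ^ 12 * 2 ^ l
/-- depth of the chaining -/
def Kn : ℕ := Nat.log 2 n + 1
/-- bound for the row functional -/
noncomputable def bL (l : ℕ) : ℝ :=
  6 * (Kn n + 1) * (Rr p n * Real.sqrt (En n l)) + 2 * Qn n * (Rr p n / 2 ^ (Kn n))

end params

/-- the good event -/
structure Good (p : ℝ) (n : ℕ) (Z : Fin n × Fin n → ℝ) : Prop where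
  ha : opn Z ≤ Qn n
  hb : Real.sqrt n * R2 p n / 32 ≤ Ms (bl p n) Z
  hc : ∀ l ≤ Kn n, Vs (bl p n) (sl p n l) Z ≤ Real.log n ^ 2 * (sl p n l ^ 2 * mM p n)
  hd : ∀ i, ∀ l ≤ Kn n, Z ∉ badrow p i (Dl p n l) (Rr p n) (En n l) (Qn n) (bL p n l)

variable {p : ℝ} {n : ℕ}

theorem Big.npos (h : Big p n) : (0 : ℝ) < n := by
  have : 0 < n := by have := h.hn; omega
  exact_mod_cast this

theorem Big.R2pos (h : Big p n) : 0 < R2 p n := Real.rpow_pos_of_pos h.npos _

theorem Big.Rrpos (h : Big p n) : 0 < Rr p n := Real.sqrt_pos.2 h.R2pos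

theorem Big.Rr_sq (h : Big p n) : Rr p n ^ 2 = R2 p n := Real.sq_sqrt h.R2pos.le

theorem Big.sqrtpos (h : Big p n) : 0 < Real.sqrt n := Real.sqrt_pos.2 h.npos

theorem Big.Qpos (h : Big p n) : 0 < Qn n := by
  have := h.hL
  have := h.sqrtpos
  unfold Qn
  positivity

theorem Big.Dlpos (h : Big p n) (l : ℕ) : 0 < Dl p n l := by
  have := h.Qpos
  have := h.R2pos
  have := h.npos
  unfold Dl
  positivity

theorem Ms_le_Q (hp : 2 < p) (h : Big p n) {Z : Fin n × Fin n → ℝ} (ha : opn Z ≤ Qn n) :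
    Ms (bl p n) Z ≤ Qn n * R2 p n := by
  have hn0 : 0 < n := by have := h.hn; omega
  refine Ms_le (bl_ne hp) Z fun x hx => ?_
  refine (qf_le_opn hn0 Z x).trans ?_
  exact mul_le_mul ha (bl_norm hp hn0 hx) (dot_self_nonneg _) h.Qpos.le

/-- entropy bound on the good event -/
theorem entropy (hp : 2 < p) (h : Big p n) (hm : 0 < mM p n) (hmQ : mM p n ≤ Qn n * R2 p n)
    {Z : Fin n × Fin n → ℝ} (hg : Good p n Z) {l : ℕ} (hl : l ≤ Kn n) (i : Fin n)
    (h1 : 2 * Dl p n l ≤ Real.sqrt n * R2 p n / 64)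
    (h2 : Ms (bl p n) Z - Dl p n l ≤ Ms (bli p n i) Z) :
    Gi p i (Dl p n l) (Rr p n) (En n l) Z := by
  intro k F hF hsep
  have hn0 : 0 < n := by have := h.hn; omega
  have hnpos := h.npos
  have hL := h.hL
  set L := Real.log n with hLdef
  have hLpos : 0 < L := by linarith
  have hR2 := h.R2pos
  have hQ := h.Qpos
  have hD := h.Dlpos l
  by_contra hcon
  push Not at hcon
  have hE : 0 < En n l := by unfold En; rw [← hLdef]; positivity
  have hFcard : (0 : ℝ) < F.card := lt_trans (by positivity) hcon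
  have hFne : F.Nonempty := by
    rw [← Finset.card_pos]; exact_mod_cast hFcard
  have : Nonempty F := hFne.to_subtype
  have hcb := card_bound (S := bl p n) (bl_cube hp) hn0 (κ := F) (fun v => (v : Fin n → ℝ))
    (fun v => (hF v.2).1.1) Z (s := sl p n l) (D := 2 * Dl p n l) (A := L ^ 2) (m := mM p n)
    (Q := Qn n) (μ := Real.sqrt n * R2 p n / 64) (ε := Rr p n / 2 ^ k)
    (Real.sqrt_pos.2 (by positivity)) hm (Real.sq_sqrt (by positivity))
    (hg.hc l hl) (fun v => by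
      have := (hF v.2).2
      linarith) (by linarith) (by positivity) hg.ha hQ (by positivity) (by
      have := hg.hb
      linarith) (fun v w hvw => hsep v v.2 w w.2 (fun e => hvw (Subtype.ext e)))
  rw [Fintype.card_coe] at hcb
  have hlog : En n l * 4 ^ k < Real.log (F.card / 2) := by
    rw [Real.lt_log_iff_exp_lt (by positivity)]
    linarith
  have e1 : (Rr p n / 2 ^ k) ^ 2 = R2 p n / 4 ^ k := by
    rw [div_pow, h.Rr_sq, ← pow_mul, mul_comm k 2, pow_mul]; norm_num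
  have e2 : Real.sqrt n * R2 p n / 64 / Qn n = R2 p n / (64 * L ^ 2) := by
    have := h.sqrtpos
    unfold Qn
    rw [← hLdef]
    field_simp
  rw [e1, e2] at hcb
  have hc1 : R2 p n / 4 ^ k * (R2 p n / (64 * L ^ 2)) * (En n l * 4 ^ k) <
      R2 p n / 4 ^ k * (R2 p n / (64 * L ^ 2)) * Real.log (F.card / 2) :=
    mul_lt_mul_of_pos_left hlog (by positivity)
  have e3 : R2 p n / 4 ^ k * (R2 p n / (64 * L ^ 2)) * (En n l * 4 ^ k) =
      R2 p n ^ 2 * 2 ^ l * L ^ 10 / 64 := by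
    unfold En
    rw [← hLdef]
    field_simp
  rw [e3] at hc1
  have e4 : 2 * Dl p n l * mM p n ≤ 8 * (R2 p n ^ 2 * 2 ^ l) * L ^ 4 := by
    have h3 : 2 * Dl p n l * mM p n ≤ 2 * Dl p n l * (Qn n * R2 p n) :=
      mul_le_mul_of_nonneg_left hmQ (by linarith)
    refine h3.trans (le_of_eq ?_)
    have h4 : Qn n * Qn n = n * L ^ 4 := by
      unfold Qn
      rw [← hLdef]
      have h5 : Real.sqrt n * Real.sqrt n = n := Real.mul_self_sqrt hnpos.le
      calc Real.sqrt n * L ^ 2 * (Real.sqrt n * L ^ 2) =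
          (Real.sqrt n * Real.sqrt n) * L ^ 4 := by ring
        _ = _ := by rw [h5]
    calc 2 * Dl p n l * (Qn n * R2 p n) = 8 * (Qn n * Qn n) * R2 p n ^ 2 * 2 ^ l / n := by
          unfold Dl; ring
      _ = 8 * (R2 p n ^ 2 * 2 ^ l) * L ^ 4 := by
          rw [h4]; field_simp
  have e5 : (L ^ 2 + 1) ^ 2 ≤ 4 * L ^ 4 := by
    have h5 : L ^ 2 + 1 ≤ 2 * L ^ 2 := by nlinarith
    calc (L ^ 2 + 1) ^ 2 ≤ (2 * L ^ 2) ^ 2 := pow_le_pow_left₀ (by positivity) h5 2
      _ = 4 * L ^ 4 := by ring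
  have e6 : 16 * ((L ^ 2 + 1) ^ 2 * (2 * Dl p n l * mM p n)) ≤
      16 * (4 * L ^ 4 * (8 * (R2 p n ^ 2 * 2 ^ l) * L ^ 4)) := by
    refine mul_le_mul_of_nonneg_left ?_ (by norm_num)
    exact mul_le_mul e5 e4 (by positivity) (by positivity)
  have e7 : 16 * (4 * L ^ 4 * (8 * (R2 p n ^ 2 * 2 ^ l) * L ^ 4)) =
      512 * (R2 p n ^ 2 * 2 ^ l * L ^ 8) := by ring
  have e8 : R2 p n ^ 2 * 2 ^ l * L ^ 10 / 64 = (L ^ 2 / 64) * (R2 p n ^ 2 * 2 ^ l * L ^ 8) := by ring
  have e9 : 512 * (R2 p n ^ 2 * 2 ^ l * L ^ 8) ≤ (L ^ 2 / 64) * (R2 p n ^ 2 * 2 ^ l * L ^ 8) := by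
    refine mul_le_mul_of_nonneg_right ?_ (by positivity)
    nlinarith
  linarith

/-- conclusion on the good event -/
theorem final_bound (hp : 2 < p) (h : Big p n) (hm : 0 < mM p n) (hmQ : mM p n ≤ Qn n * R2 p n)
    {Z : Fin n × Fin n → ℝ} (hg : Good p n Z) {x : Fin n → ℝ} (hx : x ∈ bl p n)
    (hopt : qf Z x = Ms (bl p n) Z) (i : Fin n) :
    |x i| ≤ Real.log n ^ (16 / (p - 2)) * (n : ℝ) ^ (-(1 / p)) := by
  have hn0 : 0 < n := by have := h.hn; omega
  have hnpos := h.npos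
  have hn1 : (1 : ℝ) ≤ n := by exact_mod_cast hn0
  have hL := h.hL
  set L := Real.log n with hLdef
  have hLpos : 0 < L := by linarith
  have hR2 := h.R2pos
  have hR := h.Rrpos
  have hQ := h.Qpos
  have hsn := h.sqrtpos
  have hp0 : (0 : ℝ) < p := by linarith
  have hMpos : 0 < Ms (bl p n) Z := lt_of_lt_of_le (by positivity) hg.hb
  set M := Ms (bl p n) Z with hMdef
  set τ := |x i| with hτ
  have hτ0 : 0 ≤ τ := abs_nonneg _
  have hτ1 : τ ≤ 1 := bl_cube hp x hx i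
  set θ := n * τ ^ p with hθ
  by_cases hθ1 : θ < 1
  · -- small coordinate
    have h1 : τ ^ p ≤ 1 / n := by
      rw [le_div_iff₀ hnpos]; linarith
    have h2 : (τ ^ p) ^ (1 / p) ≤ (1 / (n : ℝ)) ^ (1 / p) :=
      Real.rpow_le_rpow (Real.rpow_nonneg hτ0 _) h1 (by positivity)
    rw [← Real.rpow_mul hτ0, mul_one_div_cancel hp0.ne', Real.rpow_one] at h2
    have h3 : (1 / (n : ℝ)) ^ (1 / p) = (n : ℝ) ^ (-(1 / p)) := by
      rw [one_div, Real.inv_rpow hnpos.le, Real.rpow_neg hnpos.le]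
    rw [h3] at h2
    refine h2.trans ?_
    refine le_mul_of_one_le_left (Real.rpow_nonneg hnpos.le _) ?_
    exact Real.one_le_rpow (by linarith) (div_nonneg (by norm_num) (by linarith))
  push Not at hθ1
  have hτpos : 0 < τ := by
    rcases hτ0.lt_or_eq with h1 | h1
    · exact h1
    · rw [hθ, ← h1, Real.zero_rpow hp0.ne', mul_zero] at hθ1
      linarith
  have hτp : τ ^ p = θ / n := by rw [hθ]; field_simp
  have hθpos : 0 < θ := by linarith
  have hθn : θ ≤ n := by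
    rw [hθ]
    have := Real.rpow_le_one hτ0 hτ1 hp0.le
    nlinarith
  -- value of τ
  have hτval : τ = θ ^ (1 / p) * (n : ℝ) ^ (-(1 / p)) := by
    have h1 : τ = (τ ^ p) ^ (1 / p) := by
      rw [← Real.rpow_mul hτ0, mul_one_div_cancel hp0.ne', Real.rpow_one]
    rw [h1, hτp, Real.div_rpow hθpos.le hnpos.le, Real.rpow_neg hnpos.le]
    rfl
  -- choice of the level
  obtain ⟨l', hl1, hl2⟩ := exists_nat_pow_near hθ1 (one_lt_two : (1 : ℝ) < 2)
  set l := l' + 1 with hldef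
  have hl3 : (2 : ℝ) ^ l ≤ 2 * θ := by rw [hldef, pow_succ]; linarith
  have hlK : l ≤ Kn n := by
    have h1 : 2 ^ l' ≤ n := by
      have : (2 : ℝ) ^ l' ≤ n := hl1.trans hθn
      exact_mod_cast this
    have h2 := Nat.le_log_of_pow_le (by norm_num) h1
    unfold Kn; omega
  -- the point with the coordinate removed
  set y := Function.update x i 0 with hy
  have hyi := update_mem_bli hp hx i
  have hlag := lagrange_abs hp hx hopt hMpos i
  rw [← hy, ← hτ] at hlag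
  have hynorm : Real.sqrt (y ⬝ᵥ y) ≤ Rr p n := Real.sqrt_le_sqrt (bl_norm hp hn0 hyi.1)
  have hdiag : |Z (i, i)| ≤ Qn n := (abs_diag_le_opn hn0 i Z).trans hg.ha
  have hRbig := h.hR
  change 65536 * Real.log n ^ 4 ≤ Rr p n at hRbig
  rw [← hLdef] at hRbig
  have hL4 : 1 ≤ L ^ 4 := one_le_pow₀ (by linarith)
  have hR1 : 1 ≤ Rr p n := by linarith
  -- a priori bound
  have hap : τ ^ (p - 1) ≤ 64 * L ^ 2 / Rr p n := by
    have h1 := abs_ell_le_opn hn0 i Z y
    have h2 : 2 * opn Z * Real.sqrt (y ⬝ᵥ y) ≤ 2 * Qn n * Rr p n :=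
      mul_le_mul (by linarith [hg.ha]) hynorm (Real.sqrt_nonneg _) (by positivity)
    have h3 : 2 * τ * |Z (i, i)| ≤ 2 * Rr p n * Qn n :=
      mul_le_mul (by linarith) hdiag (abs_nonneg _) (by positivity)
    have h4 : 2 * (Real.sqrt n * R2 p n / 32) * τ ^ (p - 1) ≤ 4 * (Qn n * Rr p n) := by
      have h5 : 2 * (Real.sqrt n * R2 p n / 32) * τ ^ (p - 1) ≤ 2 * M * τ ^ (p - 1) := by
        refine mul_le_mul_of_nonneg_right ?_ (Real.rpow_nonneg hτ0 _)
        linarith [hg.hb]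
      linarith
    rw [le_div_iff₀ hR]
    have h6 : Real.sqrt n * Rr p n * (τ ^ (p - 1) * Rr p n) ≤
        Real.sqrt n * Rr p n * (64 * L ^ 2) := by
      have e1 : Real.sqrt n * Rr p n * (τ ^ (p - 1) * Rr p n) =
          Real.sqrt n * R2 p n * τ ^ (p - 1) := by rw [← h.Rr_sq]; ring
      have e2 : Real.sqrt n * Rr p n * (64 * L ^ 2) = 64 * (Qn n * Rr p n) := by
        unfold Qn; rw [← hLdef]; ring
      rw [e1, e2]; linarith
    exact le_of_mul_le_mul_left h6 (by positivity)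
  have hτsmall : θ / n ≤ 1 / (1024 * L ^ 2) := by
    rw [← hτp]
    have h1 : τ ^ p ≤ τ ^ (p - 1) :=
      Real.rpow_le_rpow_of_exponent_ge hτpos hτ1 (by linarith)
    refine h1.trans (hap.trans ?_)
    rw [div_le_div_iff₀ hR (by positivity)]
    nlinarith
  have hDl : Dl p n l ≤ 8 * Qn n * R2 p n * (θ / n) := by
    have e1 : Dl p n l = 4 * Qn n * R2 p n / n * 2 ^ l := by unfold Dl; ring
    have e2 : 8 * Qn n * R2 p n * (θ / n) = 4 * Qn n * R2 p n / n * (2 * θ) := by ring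
    rw [e1, e2]
    exact mul_le_mul_of_nonneg_left hl3 (by positivity)
  have hDlow : 4 * Qn n * R2 p n * (θ / n) < Dl p n l := by
    have e1 : Dl p n l = 4 * Qn n * R2 p n / n * 2 ^ l := by unfold Dl; ring
    have e2 : 4 * Qn n * R2 p n * (θ / n) = 4 * Qn n * R2 p n / n * θ := by ring
    rw [e1, e2]
    exact mul_lt_mul_of_pos_left hl2 (by positivity)
  have h2D : 2 * Dl p n l ≤ Real.sqrt n * R2 p n / 64 := by
    have h1 : 8 * Qn n * R2 p n * (θ / n) ≤ 8 * Qn n * R2 p n * (1 / (1024 * L ^ 2)) :=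
      mul_le_mul_of_nonneg_left hτsmall (by positivity)
    have h2 : 8 * Qn n * R2 p n * (1 / (1024 * L ^ 2)) = Real.sqrt n * R2 p n / 128 := by
      unfold Qn; rw [← hLdef]; field_simp; norm_num
    linarith
  -- value of the removed point
  have hval := value_removed hp hx hopt hMpos i
  rw [← hy, ← hMdef, ← hτ] at hval
  have hτ2 : x i ^ 2 ≤ R2 p n * (θ / n) := by
    have h1 : x i ^ 2 = τ ^ (2 : ℝ) := by
      rw [hτ, ← sq_abs]
      have : (2 : ℝ) = ((2 : ℕ) : ℝ) := by norm_num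
      rw [this, Real.rpow_natCast]
    have h2 : τ ^ (2 : ℝ) = θ ^ (2 / p) * (n : ℝ) ^ (-(2 / p)) := by
      rw [hτval, Real.mul_rpow (Real.rpow_nonneg hθpos.le _) (Real.rpow_nonneg hnpos.le _),
        ← Real.rpow_mul hθpos.le, ← Real.rpow_mul hnpos.le]
      congr 2 <;> ring
    have h3 : R2 p n * (θ / n) = θ * (n : ℝ) ^ (-(2 / p)) := by
      unfold R2
      have : (n : ℝ) ^ (1 - 2 / p) = (n : ℝ) * (n : ℝ) ^ (-(2 / p)) := by
        rw [sub_eq_add_neg, Real.rpow_add hnpos, Real.rpow_one]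
      rw [this]; field_simp
    rw [h1, h2, h3]
    refine mul_le_mul_of_nonneg_right ?_ (Real.rpow_nonneg hnpos.le _)
    calc θ ^ (2 / p) ≤ θ ^ (1 : ℝ) := by
          refine Real.rpow_le_rpow_of_exponent_le hθ1 ?_
          rw [div_le_one hp0]; linarith
      _ = θ := Real.rpow_one θ
  have hMQ := Ms_le_Q hp h hg.ha
  rw [← hMdef] at hMQ
  have hqy : M - Dl p n l < qf Z y := by
    rw [hτp] at hval
    have hθn0 : 0 ≤ θ / n := by positivity
    have h1 : 2 * M * (θ / n) ≤ 2 * (Qn n * R2 p n) * (θ / n) :=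
      mul_le_mul_of_nonneg_right (by linarith) hθn0
    have h2 : |Z (i, i)| * x i ^ 2 ≤ Qn n * (R2 p n * (θ / n)) :=
      mul_le_mul hdiag hτ2 (sq_nonneg _) hQ.le
    have h3 : 0 ≤ Qn n * R2 p n * (θ / n) := by positivity
    linarith
  have hyMs : qf Z y ≤ Ms (bli p n i) Z := qf_le_Ms (bli_cube hp i) Z hyi
  have hMsub : Ms (bli p n i) Z ≤ M :=
    Ms_le (bli_ne hp i) Z fun v hv => qf_le_Ms (bl_cube hp) Z hv.1
  have hyNi : y ∈ Ni p i (Dl p n l) Z := ⟨hyi, by linarith⟩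
  have hGi := entropy hp h hm hmQ hg hlK i h2D (by rw [← hMdef]; linarith)
  have hell : |ell i Z y| ≤ bL p n l := by
    by_contra hcon
    push Not at hcon
    exact hg.hd i l hlK ⟨hGi, hg.ha, y, hyNi, hcon⟩
  -- final computation
  set w := Real.sqrt θ with hw
  have hwpos : 0 < w := Real.sqrt_pos.2 hθpos
  have hw1 : 1 ≤ w := by rw [hw]; exact Real.one_le_sqrt.2 hθ1
  have hww : w ^ 2 = θ := Real.sq_sqrt hθpos.le
  have hsqE : Real.sqrt (En n l) ≤ L ^ 6 * (2 * w) := by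
    rw [show L ^ 6 * (2 * w) = Real.sqrt ((L ^ 6 * (2 * w)) ^ 2) from
      (Real.sqrt_sq (by positivity)).symm]
    apply Real.sqrt_le_sqrt
    unfold En
    rw [← hLdef]
    have e1 : (L ^ 6 * (2 * w)) ^ 2 = L ^ 12 * (4 * θ) := by
      rw [mul_pow, mul_pow, hww]; ring
    rw [e1]
    exact mul_le_mul_of_nonneg_left (by linarith) (by positivity)
  have hKn : (Kn n : ℝ) + 1 ≤ 3 * L := by
    unfold Kn
    push_cast
    have := h.hlog
    linarith
  have hlast : 2 * Qn n * (Rr p n / 2 ^ (Kn n)) ≤ Rr p n := by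
    have h1 : (n : ℝ) ≤ 2 ^ (Kn n) := by
      have := (Nat.lt_pow_succ_log_self (b := 2) (by norm_num) n).le
      unfold Kn
      exact_mod_cast this
    have h2 : 2 * Qn n ≤ n := by
      unfold Qn
      have h3 := h.hs
      have h4 : Real.sqrt n * Real.sqrt n = n := Real.mul_self_sqrt hnpos.le
      calc 2 * (Real.sqrt n * Real.log n ^ 2) = Real.sqrt n * (2 * Real.log n ^ 2) := by ring
        _ ≤ Real.sqrt n * Real.sqrt n := mul_le_mul_of_nonneg_left h3 hsn.le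
        _ = n := h4
    calc 2 * Qn n * (Rr p n / 2 ^ (Kn n)) = (2 * Qn n / 2 ^ (Kn n)) * Rr p n := by ring
      _ ≤ 1 * Rr p n := by
          refine mul_le_mul_of_nonneg_right ?_ hR.le
          rw [div_le_one (by positivity)]
          linarith
      _ = Rr p n := one_mul _
  have hbL : bL p n l ≤ Rr p n * (37 * L ^ 7 * w) := by
    unfold bL
    have h1 : 6 * ((Kn n : ℝ) + 1) * (Rr p n * Real.sqrt (En n l)) ≤
        6 * (3 * L) * (Rr p n * (L ^ 6 * (2 * w))) := by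
      refine mul_le_mul (by linarith) (mul_le_mul_of_nonneg_left hsqE hR.le) (by positivity)
        (by positivity)
    have h2 : Rr p n ≤ Rr p n * (L ^ 7 * w) := by
      refine le_mul_of_one_le_right hR.le ?_
      have : 1 ≤ L ^ 7 := one_le_pow₀ (by linarith)
      exact one_le_mul_of_one_le_of_one_le this hw1
    have h3 : 6 * (3 * L) * (Rr p n * (L ^ 6 * (2 * w))) = Rr p n * (36 * L ^ 7 * w) := by ring
    linarith
  have hτQ : τ * Qn n ≤ Rr p n * (L ^ 2 * w) := by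
    have h1 : τ * Qn n = θ ^ (1 / p) * ((n : ℝ) ^ (-(1 / p)) * Real.sqrt n) * L ^ 2 := by
      rw [hτval]; unfold Qn; rw [← hLdef]; ring
    have h2 : (n : ℝ) ^ (-(1 / p)) * Real.sqrt n = Rr p n := by
      unfold Rr R2
      rw [Real.sqrt_eq_rpow, Real.sqrt_eq_rpow, ← Real.rpow_add hnpos, ← Real.rpow_mul hnpos.le]
      congr 1
      ring
    have h3 : θ ^ (1 / p) ≤ w := by
      rw [hw, Real.sqrt_eq_rpow]
      refine Real.rpow_le_rpow_of_exponent_le hθ1 ?_
      exact one_div_le_one_div_of_le (by norm_num) hp.le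
    rw [h1, h2]
    calc θ ^ (1 / p) * Rr p n * L ^ 2 = (Rr p n * L ^ 2) * θ ^ (1 / p) := by ring
      _ ≤ (Rr p n * L ^ 2) * w := mul_le_mul_of_nonneg_left h3 (by positivity)
      _ = _ := by ring
  have hτp1 : Real.sqrt n * R2 p n * τ ^ (p - 1) = Rr p n * θ ^ (1 - 1 / p) := by
    have h1 : τ ^ (p - 1) = θ ^ (1 - 1 / p) * (n : ℝ) ^ (-(1 - 1 / p)) := by
      rw [hτval, Real.mul_rpow (Real.rpow_nonneg hθpos.le _) (Real.rpow_nonneg hnpos.le _),
        ← Real.rpow_mul hθpos.le, ← Real.rpow_mul hnpos.le]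
      congr 2 <;> field_simp
    have h2 : Real.sqrt n * R2 p n * (n : ℝ) ^ (-(1 - 1 / p)) = Rr p n := by
      unfold Rr R2
      rw [Real.sqrt_eq_rpow, Real.sqrt_eq_rpow, ← Real.rpow_add hnpos, ← Real.rpow_add hnpos,
        ← Real.rpow_mul hnpos.le]
      congr 1
      ring
    rw [h1]
    calc Real.sqrt n * R2 p n * (θ ^ (1 - 1 / p) * (n : ℝ) ^ (-(1 - 1 / p))) =
        (Real.sqrt n * R2 p n * (n : ℝ) ^ (-(1 - 1 / p))) * θ ^ (1 - 1 / p) := by ring
      _ = _ := by rw [h2]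
  have hmain : θ ^ (1 - 1 / p) ≤ L ^ 8 * w := by
    have h1 : 2 * (Real.sqrt n * R2 p n / 32) * τ ^ (p - 1) ≤ 2 * M * τ ^ (p - 1) := by
      refine mul_le_mul_of_nonneg_right ?_ (Real.rpow_nonneg hτ0 _)
      linarith [hg.hb]
    have h2 : 2 * τ * |Z (i, i)| ≤ 2 * (τ * Qn n) := by
      have := mul_le_mul_of_nonneg_left hdiag hτ0
      linarith
    have h3 : Rr p n * θ ^ (1 - 1 / p) ≤ 16 * (Rr p n * (37 * L ^ 7 * w) +
        2 * (Rr p n * (L ^ 2 * w))) := by
      rw [← hτp1]; linarith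
    have h4 : Rr p n * θ ^ (1 - 1 / p) ≤ Rr p n * (L ^ 8 * w) := by
      refine h3.trans ?_
      have h5 : 16 * (Rr p n * (37 * L ^ 7 * w) + 2 * (Rr p n * (L ^ 2 * w))) =
          Rr p n * ((592 * L ^ 7 + 32 * L ^ 2) * w) := by ring
      rw [h5]
      refine mul_le_mul_of_nonneg_left (mul_le_mul_of_nonneg_right ?_ hwpos.le) hR.le
      have h6 : L ^ 2 ≤ L ^ 7 := pow_le_pow_right₀ (by linarith) (by norm_num)
      have h7 : 0 < L ^ 7 := by positivity
      have h8 : L ^ 8 = L * L ^ 7 := by ring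
      have h9 : 700 * L ^ 7 ≤ L * L ^ 7 := mul_le_mul_of_nonneg_right hL h7.le
      linarith
    exact le_of_mul_le_mul_left h4 hR
  have hexp : θ ^ ((p - 2) / (2 * p)) ≤ L ^ 8 := by
    have h1 : θ ^ (1 - 1 / p) = θ ^ ((p - 2) / (2 * p)) * w := by
      rw [hw, Real.sqrt_eq_rpow, ← Real.rpow_add hθpos]
      congr 1
      field_simp
      ring
    rw [h1] at hmain
    exact le_of_mul_le_mul_right hmain hwpos
  have hfin : θ ^ (1 / p) ≤ L ^ (16 / (p - 2)) := by
    have hp2 : 0 < p - 2 := by linarith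
    have h1 : (θ ^ ((p - 2) / (2 * p))) ^ (2 / (p - 2)) ≤ (L ^ 8) ^ (2 / (p - 2)) :=
      Real.rpow_le_rpow (Real.rpow_nonneg hθpos.le _) hexp (by positivity)
    rw [← Real.rpow_mul hθpos.le] at h1
    have h2 : (p - 2) / (2 * p) * (2 / (p - 2)) = 1 / p := by field_simp
    have h3 : (L ^ 8) ^ (2 / (p - 2)) = L ^ (16 / (p - 2)) := by
      rw [← Real.rpow_natCast, ← Real.rpow_mul hLpos.le]
      congr 1
      push_cast
      ring
    rw [h2, h3] at h1
    exact h1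
  rw [hτval]
  exact mul_le_mul_of_nonneg_right hfin (Real.rpow_nonneg hnpos.le _)

end Pool.Agent.H97.GP
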