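import Mathlib
import Pool.Agent.H97.G13

set_option autoImplicit false

open MeasureTheory ProbabilityTheory Set Filter Topology
open scoped ENNReal NNReal Matrix

namespace Pool.Agent.H97.GP

variable {p : ℝ} {n : ℕ}

theorem Big.n_large (h : Big p n) : 1000000 ≤ (n : ℝ) := by
  have h1 := h.hs
  have h2 := h.hL
  have h3 : Real.sqrt n * Real.sqrt n = n := Real.mul_self_sqrt h.npos.le
  have h4 : (980000 : ℝ) ≤ Real.sqrt n := by nlinarith
  nlinarith

theorem Big.Lle (h : Big p n) : Real.log n ≤ n := by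
  have := Real.log_le_sub_one_of_pos h.npos
  linarith

theorem sqrt_nL (h : Big p n) : 9 * Real.sqrt (n * Real.log n) ≤ 9 / Real.log n * Qn n := by
  have hL := h.hL
  have hLpos : 0 < Real.log n := by linarith
  have h1 : Real.sqrt (n * Real.log n) = Real.sqrt n * Real.sqrt (Real.log n) :=
    Real.sqrt_mul h.npos.le _
  have h2 : Real.sqrt (Real.log n) ≤ Real.log n := by
    rw [Real.sqrt_le_left hLpos.le]; nlinarith
  have h3 : 9 / Real.log n * Qn n = 9 * (Real.sqrt n * Real.log n) := by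
    unfold Qn; field_simp
  rw [h1, h3]
  have := h.sqrtpos
  exact mul_le_mul_of_nonneg_left (mul_le_mul_of_nonneg_left h2 this.le) (by norm_num)

theorem mean_le (hp : 2 < p) (h : Big p n) : mM p n ≤ Qn n * R2 p n := by
  have hn0 : 0 < n := by have := h.hn; omega
  have hL := h.hL
  have h1 : mM p n ≤ ∫ Z, R2 p n * opn Z ∂(gam (Fin n × Fin n)) := by
    unfold mM
    refine integral_mono (integrable_Ms (bl_cube hp) (bl_ne hp)) (integrable_opn.const_mul _)
      (fun Z => ?_)
    refine Ms_le (bl_ne hp) Z fun x hx => ?_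
    refine (qf_le_opn hn0 Z x).trans ?_
    rw [mul_comm]
    exact mul_le_mul_of_nonneg_right (bl_norm hp hn0 hx) (opn_nonneg hn0 Z)
  rw [integral_const_mul] at h1
  have h2 := integral_opn_le h.hn
  have h3 := sqrt_nL h
  have h4 : 9 / Real.log n * Qn n ≤ Qn n := by
    have h5 : 9 / Real.log n ≤ 1 := by rw [div_le_one (by linarith)]; linarith
    exact mul_le_of_le_one_left h.Qpos.le h5
  have h6 := mul_le_mul_of_nonneg_left (h2.trans (h3.trans h4)) h.R2pos.le
  linarith

theorem exp_neg_le {x : ℝ} (hx : 0 < x) : Real.exp (-x) ≤ 1 / x := by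
  rw [Real.exp_neg, ← one_div]
  refine one_div_le_one_div_of_le hx ?_
  have := Real.add_one_le_exp x
  linarith

theorem lowerR_small (h : Big p n) :
    32 / (n : ℝ) + 2 * Real.exp (-(n / 2048)) ≤ 4200 / Real.log n := by
  have hn := h.npos
  have hL := h.hL
  have h1 := exp_neg_le (show (0 : ℝ) < n / 2048 by positivity)
  have h2 : 1 / ((n : ℝ) / 2048) = 2048 / n := by field_simp
  rw [h2] at h1
  have h3 : 32 / (n : ℝ) + 2 * (2048 / n) = 4128 / n := by ring
  have h4 : 4128 / (n : ℝ) ≤ 4200 / Real.log n :=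
    div_le_div₀ (by norm_num) (by norm_num) (by linarith) h.Lle
  linarith

theorem mean_pos (hp : 2 < p) (h : Big p n) : 0 < mM p n := by
  have hn2 : 2 ≤ n := by have := h.hn; omega
  have hn := h.npos
  set c := Real.sqrt n * (n : ℝ) ^ (1 - 2 / p) / 32 with hc
  have hcpos : 0 < c := by
    have := h.sqrtpos
    positivity
  have h1 := lower hp hn2
  rw [← hc] at h1
  have h2 : (gam (Fin n × Fin n)).real {Z | Ms (bl p n) Z < c} ≤ 1 / 2 := by
    rw [measureReal_def]
    refine ENNReal.toReal_le_of_le_ofReal (by norm_num) (h1.trans (ENNReal.ofReal_le_ofReal ?_))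
    have hb := h.n_large
    have h3 := exp_neg_le (show (0 : ℝ) < n / 2048 by positivity)
    have h4 : 1 / ((n : ℝ) / 2048) = 2048 / n := by field_simp
    rw [h4] at h3
    have h5 : 32 / (n : ℝ) + 2 * (2048 / n) = 4128 / n := by ring
    have h6 : 4128 / (n : ℝ) ≤ 1 / 2 := by
      rw [div_le_div_iff₀ hn (by norm_num)]; linarith
    linarith
  have hmeas : MeasurableSet {Z : Fin n × Fin n → ℝ | Ms (bl p n) Z < c} :=
    (isOpen_lt (continuous_Ms (bl_cube hp) (bl_ne hp)) continuous_const).measurableSet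
  have h3 : (gam (Fin n × Fin n)).real {Z | c ≤ Ms (bl p n) Z} =
      1 - (gam (Fin n × Fin n)).real {Z | Ms (bl p n) Z < c} := by
    have e : {Z : Fin n × Fin n → ℝ | c ≤ Ms (bl p n) Z} =
        {Z : Fin n × Fin n → ℝ | Ms (bl p n) Z < c}ᶜ := by
      ext Z; simp
    rw [e, probReal_compl_eq_one_sub hmeas]
  have h4 := mul_meas_ge_le_integral_of_nonneg (μ := gam (Fin n × Fin n)) (f := Ms (bl p n))
    (Eventually.of_forall fun Z => Ms_nonneg hp Z) (integrable_Ms (bl_cube hp) (bl_ne hp)) c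
  have h5 : 1 / 2 ≤ (gam (Fin n × Fin n)).real {Z | c ≤ Ms (bl p n) Z} := by rw [h3]; linarith
  have h6 : 0 < c * (gam (Fin n × Fin n)).real {Z | c ≤ Ms (bl p n) Z} := by positivity
  unfold mM
  linarith

theorem gam_ofReal {E : Type*} [Fintype E] {S : Set (E → ℝ)} {c : ℝ} (h : (gam E).real S ≤ c) :
    (gam E) S ≤ ENNReal.ofReal c := by
  rw [← ofReal_measureReal (measure_ne_top _ _)]
  exact ENNReal.ofReal_le_ofReal h

/-- the complement of the good event is small -/
theorem not_good_le (hp : 2 < p) (h : Big p n) :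
    (gam (Fin n × Fin n)) {Z | ¬ Good p n Z} ≤ ENNReal.ofReal (5000 / Real.log n) := by
  have hn0 : 0 < n := by have := h.hn; omega
  have hn2 : 2 ≤ n := by have := h.hn; omega
  have hn := h.npos
  have hL := h.hL
  have hm := mean_pos hp h
  set L := Real.log n with hLdef
  have hLpos : 0 < L := by linarith
  have hQ := h.Qpos
  have hKn : (Kn n : ℝ) + 1 ≤ 3 * L := by
    unfold Kn
    push_cast
    have := h.hlog
    linarith
  -- the four events
  set Ea : Set (Fin n × Fin n → ℝ) := {Z | Qn n ≤ opn Z} with hEa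
  set Eb : Set (Fin n × Fin n → ℝ) :=
    {Z | Ms (bl p n) Z < Real.sqrt n * (n : ℝ) ^ (1 - 2 / p) / 32} with hEb
  set Ec : ℕ → Set (Fin n × Fin n → ℝ) :=
    fun l => {Z | L ^ 2 * (sl p n l ^ 2 * mM p n) ≤ Vs (bl p n) (sl p n l) Z} with hEc
  set Ed : ℕ → Fin n → Set (Fin n × Fin n → ℝ) :=
    fun l i => badrow p i (Dl p n l) (Rr p n) (En n l) (Qn n) (bL p n l) with hEd
  have hsub : {Z | ¬ Good p n Z} ⊆ Ea ∪ (Eb ∪ ((⋃ l ∈ Finset.range (Kn n + 1), Ec l) ∪
      (⋃ l ∈ Finset.range (Kn n + 1), ⋃ i ∈ (Finset.univ : Finset (Fin n)), Ed l i))) := by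
    intro Z hZ
    by_contra hcon
    simp only [mem_union, not_or, mem_iUnion, not_exists, Finset.mem_range, Finset.mem_univ,
      exists_prop, true_and, not_and] at hcon
    obtain ⟨h1, h2, h3, h4⟩ := hcon
    apply hZ
    refine ⟨?_, ?_, ?_, ?_⟩
    · by_contra hc
      push Not at hc
      exact h1 hc.le
    · by_contra hc
      push Not at hc
      exact h2 hc
    · intro l hl
      by_contra hc
      push Not at hc
      exact h3 l (by omega) hc.le
    · intro i l hl
      exact h4 l (by omega) i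
  have ha : (gam (Fin n × Fin n)) Ea ≤ ENNReal.ofReal (9 / L) := by
    apply gam_ofReal
    have h1 := mul_meas_ge_le_integral_of_nonneg (μ := gam (Fin n × Fin n)) (f := opn)
      (Eventually.of_forall fun Z => opn_nonneg hn0 Z) integrable_opn (Qn n)
    have h2 := integral_opn_le h.hn
    have h3 := sqrt_nL h
    rw [← hLdef] at h3
    have h4 : (gam (Fin n × Fin n)).real Ea * Qn n ≤ 9 / L * Qn n := by
      rw [mul_comm]
      exact h1.trans (h2.trans h3)
    exact le_of_mul_le_mul_right h4 hQ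
  have hb : (gam (Fin n × Fin n)) Eb ≤ ENNReal.ofReal (4200 / L) :=
    (lower hp hn2).trans (ENNReal.ofReal_le_ofReal (lowerR_small h))
  have hc : (gam (Fin n × Fin n)) (⋃ l ∈ Finset.range (Kn n + 1), Ec l) ≤
      ENNReal.ofReal (2 / L) := by
    apply gam_ofReal
    refine (measureReal_biUnion_finset_le _ _).trans ?_
    have h1 : ∀ l ∈ Finset.range (Kn n + 1), (gam (Fin n × Fin n)).real (Ec l) ≤
        1 / (2 * L ^ 2) := by
      intro l _
      have hs : 0 < sl p n l := Real.sqrt_pos.2 (by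
        have := h.Dlpos l
        positivity)
      exact Vs_markov (bl_cube hp) (bl_ne hp) (by positivity) hs hm
    refine (Finset.sum_le_card_nsmul _ _ _ h1).trans ?_
    rw [Finset.card_range, nsmul_eq_mul]
    push_cast
    calc ((Kn n : ℝ) + 1) * (1 / (2 * L ^ 2)) ≤ (3 * L) * (1 / (2 * L ^ 2)) :=
          mul_le_mul_of_nonneg_right hKn (by positivity)
      _ = (3 / 2) / L := by field_simp
      _ ≤ 2 / L := div_le_div_of_nonneg_right (by norm_num) hLpos.le
  have hd : (gam (Fin n × Fin n)) (⋃ l ∈ Finset.range (Kn n + 1),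
      ⋃ i ∈ (Finset.univ : Finset (Fin n)), Ed l i) ≤ ENNReal.ofReal (36 / L) := by
    apply gam_ofReal
    have h0 : ∀ l, ∀ i, (gam (Fin n × Fin n)).real (Ed l i) ≤
        (3 * L) * (4 * Real.exp (-(3 * L))) := by
      intro l i
      have hE : 3 * L ≤ En n l := by
        unfold En
        rw [← hLdef]
        have h1 : L ^ 2 ≤ L ^ 12 := pow_le_pow_right₀ (by linarith) (by norm_num)
        have h2 : (1 : ℝ) ≤ 2 ^ l := one_le_pow₀ (by norm_num)
        have h3 : 3 * L ≤ L ^ 2 := by nlinarith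
        have h4 : L ^ 12 * 1 ≤ L ^ 12 * 2 ^ l := mul_le_mul_of_nonneg_left h2 (by positivity)
        linarith
      have h1 := badrow_le hp hn0 i (Δ := Dl p n l) (R := Rr p n) (D := En n l) (Q := Qn n)
        (b := bL p n l) (Kn n) h.Rrpos (le_of_eq h.Rr_sq.symm) (by linarith) hQ.le le_rfl
      have h2 : (gam (Fin n × Fin n)).real (Ed l i) ≤
          ((Kn n : ℝ) + 1) * (4 * Real.exp (-(En n l))) := by
        rw [measureReal_def]
        exact ENNReal.toReal_le_of_le_ofReal (by positivity) h1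
      refine h2.trans ?_
      refine mul_le_mul hKn ?_ (by positivity) (by positivity)
      refine mul_le_mul_of_nonneg_left (Real.exp_le_exp.2 (by linarith)) (by norm_num)
    have h1 : ∀ l ∈ Finset.range (Kn n + 1), (gam (Fin n × Fin n)).real
        (⋃ i ∈ (Finset.univ : Finset (Fin n)), Ed l i) ≤
        n * ((3 * L) * (4 * Real.exp (-(3 * L)))) := by
      intro l _
      refine (measureReal_biUnion_finset_le _ _).trans ?_
      refine (Finset.sum_le_card_nsmul _ _ _ (fun i _ => h0 l i)).trans ?_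
      rw [Finset.card_univ, Fintype.card_fin, nsmul_eq_mul]
    refine (measureReal_biUnion_finset_le _ _).trans ?_
    refine (Finset.sum_le_card_nsmul _ _ _ h1).trans ?_
    rw [Finset.card_range, nsmul_eq_mul]
    push_cast
    have h2 : ((Kn n : ℝ) + 1) * (n * ((3 * L) * (4 * Real.exp (-(3 * L))))) ≤
        (3 * L) * (n * ((3 * L) * (4 * Real.exp (-(3 * L))))) :=
      mul_le_mul_of_nonneg_right hKn (by positivity)
    refine h2.trans ?_
    have h3 : Real.exp (-(3 * L)) = 1 / (n : ℝ) ^ 3 := by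
      rw [Real.exp_neg, ← one_div]
      congr 1
      rw [mul_comm, Real.exp_mul, hLdef, Real.exp_log hn]
      norm_cast
    rw [h3]
    have h4 : 3 * L * (n * (3 * L * (4 * (1 / (n : ℝ) ^ 3)))) = 36 * (L ^ 2 / n ^ 2) := by
      field_simp; norm_num
    rw [h4]
    have h5 : L ^ 2 / (n : ℝ) ^ 2 ≤ 1 / L := by
      rw [div_le_div_iff₀ (by positivity) hLpos]
      have h6 := h.hs
      rw [← hLdef] at h6
      have h7 : Real.sqrt n * Real.sqrt n = n := Real.mul_self_sqrt hn.le
      have h8 : 0 < Real.sqrt n := h.sqrtpos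
      have h9 : Real.sqrt n ≤ n := by nlinarith [h.n_large]
      have h10 : L ^ 2 ≤ n := by linarith
      have h11 := h.Lle
      rw [← hLdef] at h11
      have h12 : L ^ 2 * L ≤ n * n := mul_le_mul h10 h11 hLpos.le hn.le
      nlinarith
    calc 36 * (L ^ 2 / (n : ℝ) ^ 2) ≤ 36 * (1 / L) := mul_le_mul_of_nonneg_left h5 (by norm_num)
      _ = 36 / L := by ring
  calc (gam (Fin n × Fin n)) {Z | ¬ Good p n Z} ≤ _ := measure_mono hsub
    _ ≤ (gam (Fin n × Fin n)) Ea + ((gam (Fin n × Fin n)) Eb +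
        ((gam (Fin n × Fin n)) (⋃ l ∈ Finset.range (Kn n + 1), Ec l) +
        (gam (Fin n × Fin n)) (⋃ l ∈ Finset.range (Kn n + 1),
          ⋃ i ∈ (Finset.univ : Finset (Fin n)), Ed l i))) := by
        refine (measure_union_le _ _).trans (add_le_add le_rfl ?_)
        refine (measure_union_le _ _).trans (add_le_add le_rfl ?_)
        exact measure_union_le _ _
    _ ≤ ENNReal.ofReal (9 / L) + (ENNReal.ofReal (4200 / L) + (ENNReal.ofReal (2 / L) +
        ENNReal.ofReal (36 / L))) := add_le_add ha (add_le_add hb (add_le_add hc hd))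
    _ = ENNReal.ofReal (9 / L + (4200 / L + (2 / L + 36 / L))) := by
        rw [ENNReal.ofReal_add (by positivity) (by positivity),
          ENNReal.ofReal_add (by positivity) (by positivity),
          ENNReal.ofReal_add (by positivity) (by positivity)]
    _ ≤ ENNReal.ofReal (5000 / L) := by
        refine ENNReal.ofReal_le_ofReal ?_
        have : 9 / L + (4200 / L + (2 / L + 36 / L)) = 4247 / L := by ring
        rw [this]
        exact div_le_div_of_nonneg_right (by norm_num) hLpos.le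

/-- main estimate for the matrix with independent entries -/
theorem main_iid (hp : 2 < p) (h : Big p n) :
    (gam (Fin n × Fin n)) {Z | ∃ x ∈ bl p n, qf Z x = Ms (bl p n) Z ∧
      ∃ i, Real.log n ^ (16 / (p - 2)) * (n : ℝ) ^ (-(1 / p)) < |x i|} ≤
      ENNReal.ofReal (5000 / Real.log n) := by
  refine (measure_mono ?_).trans (not_good_le hp h)
  rintro Z ⟨x, hx, hopt, i, hi⟩ hg
  have := final_bound hp h (mean_pos hp h) (mean_le hp h) hg hx hopt i
  linarith

theorem eventually_big (hp : 2 < p) : ∀ᶠ n : ℕ in atTop, Big p n := by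
  have hcast : Tendsto (fun n : ℕ => (n : ℝ)) atTop atTop := tendsto_natCast_atTop_atTop
  have hL : ∀ᶠ n : ℕ in atTop, 700 ≤ Real.log n :=
    (Real.tendsto_log_atTop.comp hcast).eventually_ge_atTop 700
  have hexp : 0 < (1 - 2 / p) / 2 := by
    have : 2 / p < 1 := by rw [div_lt_one (by linarith)]; exact hp
    linarith
  have h1 := (isLittleO_log_rpow_rpow_atTop (4 : ℝ) hexp).bound
    (show (0 : ℝ) < 1 / 65536 by norm_num)
  have h2 := (isLittleO_log_rpow_rpow_atTop (2 : ℝ) (show (0 : ℝ) < 1 / 2 by norm_num)).bound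
    (show (0 : ℝ) < 1 / 2 by norm_num)
  filter_upwards [hL, hcast.eventually h1, hcast.eventually h2, eventually_ge_atTop 9] with
    n hn1 hn2 hn3 hn4
  have hnpos : (0 : ℝ) < n := by
    have : 0 < n := by omega
    exact_mod_cast this
  have hLpos : 0 < Real.log n := by linarith
  refine ⟨hn4, hn1, ?_, ?_, ?_⟩
  · rw [Real.norm_eq_abs, Real.norm_eq_abs, abs_of_nonneg (Real.rpow_nonneg hLpos.le _),
      abs_of_nonneg (Real.rpow_nonneg hnpos.le _)] at hn2
    rw [Real.sqrt_eq_rpow, ← Real.rpow_mul hnpos.le]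
    have e1 : (1 - 2 / p) * (1 / 2) = (1 - 2 / p) / 2 := by ring
    rw [e1]
    have e2 : Real.log n ^ (4 : ℝ) = Real.log n ^ 4 := by
      have : (4 : ℝ) = ((4 : ℕ) : ℝ) := by norm_num
      rw [this, Real.rpow_natCast]
    rw [e2] at hn2
    linarith
  · rw [Real.norm_eq_abs, Real.norm_eq_abs, abs_of_nonneg (Real.rpow_nonneg hLpos.le _),
      abs_of_nonneg (Real.rpow_nonneg hnpos.le _)] at hn3
    rw [Real.sqrt_eq_rpow]
    have e2 : Real.log n ^ (2 : ℝ) = Real.log n ^ 2 := by
      have : (2 : ℝ) = ((2 : ℕ) : ℝ) := by norm_num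
      rw [this, Real.rpow_natCast]
    rw [e2] at hn3
    linarith
  · have h3 : 2 ^ (Nat.log 2 n) ≤ n := Nat.pow_log_le_self 2 (by omega)
    have h4 : (2 : ℝ) ^ (Nat.log 2 n) ≤ n := by exact_mod_cast h3
    have h5 := Real.log_le_log (by positivity) h4
    rw [Real.log_pow] at h5
    have h6 := Real.log_two_gt_d9
    have h7 : (0 : ℝ) ≤ Nat.log 2 n := by positivity
    nlinarith

end Pool.Agent.H97.GP
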