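import Mathlib
import Pool.Agent.H97.G14

set_option autoImplicit false

open MeasureTheory ProbabilityTheory Set Filter Topology
open scoped ENNReal NNReal Matrix

namespace Pool.Agent.H97.GP

variable {n : ℕ}

/-- index set of the upper triangular part -/
abbrev TT (n : ℕ) := {e : Fin n × Fin n // e.1 ≤ e.2}

theorem sum_sym (g : Fin n × Fin n → ℝ) :
    ∑ e, g e = ∑ e : Fin n × Fin n,
      ((if e.1 = e.2 then g e else 0) + (if e.1 < e.2 then g e + g e.swap else 0)) := by
  have h1 : ∑ e : Fin n × Fin n, (if e.2 < e.1 then g e else 0) =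
      ∑ e : Fin n × Fin n, (if e.1 < e.2 then g e.swap else 0) := by
    rw [← Equiv.sum_comp (Equiv.prodComm (Fin n) (Fin n))]
    rfl
  have h2 : ∀ e : Fin n × Fin n, g e = (if e.1 = e.2 then g e else 0) +
      (if e.1 < e.2 then g e else 0) + (if e.2 < e.1 then g e else 0) := by
    intro e
    rcases lt_trichotomy e.1 e.2 with h | h | h
    · simp [h, h.ne, h.not_gt]
    · simp [h]
    · simp [h, h.ne', h.not_gt]
  have h3 : ∀ e : Fin n × Fin n, (if e.1 < e.2 then g e + g e.swap else 0) =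
      (if e.1 < e.2 then g e else 0) + (if e.1 < e.2 then g e.swap else 0) := by
    intro e; split_ifs <;> simp
  simp_rw [h3]
  conv_lhs => rw [Finset.sum_congr rfl fun e _ => h2 e]
  simp only [Finset.sum_add_distrib]
  rw [h1]
  ring

theorem sum_TT (g : Fin n × Fin n → ℝ) :
    ∑ e : TT n, g e.1 = ∑ e : Fin n × Fin n,
      ((if e.1 = e.2 then g e else 0) + (if e.1 < e.2 then g e else 0)) := by
  have h1 := Finset.sum_subtype (F := inferInstance)
    (Finset.univ.filter fun e : Fin n × Fin n => e.1 ≤ e.2)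
    (p := fun e => e.1 ≤ e.2) (by simp) g
  rw [← h1, Finset.sum_filter]
  refine Finset.sum_congr rfl fun e _ => ?_
  rcases lt_trichotomy e.1 e.2 with h | h | h
  · simp [h, h.ne, h.le]
  · simp [h]
  · simp [h.ne', h.not_gt, h.not_ge]

/-- extension by zero -/
noncomputable def ext0 (u : TT n → ℝ) : Fin n × Fin n → ℝ :=
  fun e => if h : e.1 ≤ e.2 then u ⟨e, h⟩ else 0

theorem ext0_coe (u : TT n → ℝ) (e : TT n) : ext0 u e.1 = u e := by
  unfold ext0; rw [dif_pos e.2]

/-- reconstruction of a matrix with independent entries -/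
noncomputable def FF (u : TT n → ℝ) (w : Fin n × Fin n → ℝ) : Fin n × Fin n → ℝ :=
  fun e => if e.1 = e.2 then ext0 u e else
    if e.1 < e.2 then (ext0 u e + w e) / Real.sqrt 2
    else (ext0 u e.swap - w e.swap) / Real.sqrt 2

theorem measurable_FF :
    Measurable (fun q : (TT n → ℝ) × (Fin n × Fin n → ℝ) => FF q.1 q.2) := by
  have hext : ∀ e : Fin n × Fin n,
      Measurable (fun q : (TT n → ℝ) × (Fin n × Fin n → ℝ) => ext0 q.1 e) := by
    intro e
    unfold ext0
    by_cases h : e.1 ≤ e.2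
    · simp only [h, dite_true]
      exact (measurable_pi_apply _).comp measurable_fst
    · simp only [h, dite_false]
      exact measurable_const
  have hw : ∀ e : Fin n × Fin n,
      Measurable (fun q : (TT n → ℝ) × (Fin n × Fin n → ℝ) => q.2 e) :=
    fun e => (measurable_pi_apply e).comp measurable_snd
  apply measurable_pi_lambda
  intro e
  unfold FF
  by_cases h1 : e.1 = e.2
  · simp only [h1, if_true]
    exact hext e
  · by_cases h2 : e.1 < e.2
    · simp only [h1, if_false, h2, if_true]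
      exact ((hext e).add (hw e)).div_const _
    · simp only [h1, if_false, h2]
      exact ((hext e.swap).sub (hw e.swap)).div_const _

/-- coefficients on the upper triangular part -/
noncomputable def cc (t : Fin n × Fin n → ℝ) : Fin n × Fin n → ℝ :=
  fun e => if e.1 = e.2 then t e else (t e + t e.swap) / Real.sqrt 2

/-- coefficients on the auxiliary part -/
noncomputable def dd (t : Fin n × Fin n → ℝ) : Fin n × Fin n → ℝ :=
  fun e => if e.1 < e.2 then (t e - t e.swap) / Real.sqrt 2 else 0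

theorem dot_FF (t : Fin n × Fin n → ℝ) (u : TT n → ℝ) (w : Fin n × Fin n → ℝ) :
    t ⬝ᵥ FF u w = (fun e : TT n => cc t e.1) ⬝ᵥ u + dd t ⬝ᵥ w := by
  have h1 : (fun e : TT n => cc t e.1) ⬝ᵥ u = ∑ e : TT n, (fun e => cc t e * ext0 u e) e.1 := by
    unfold dotProduct
    refine Finset.sum_congr rfl fun e _ => ?_
    change cc t e.1 * u e = cc t e.1 * ext0 u e.1
    rw [ext0_coe]
  rw [h1, sum_TT (fun e => cc t e * ext0 u e)]
  unfold dotProduct
  rw [sum_sym, ← Finset.sum_add_distrib]
  refine Finset.sum_congr rfl fun e _ => ?_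
  rcases lt_trichotomy e.1 e.2 with h | h | h
  · simp only [h.ne, h, if_false, if_true, FF, cc, dd, Prod.swap_swap, Prod.fst_swap,
      Prod.snd_swap, h.ne', h.not_gt]
    ring
  · simp only [h, if_true, FF, cc, dd, lt_irrefl, if_false]
    ring
  · simp [h.ne', h.not_gt, dd]

theorem dot_cc_dd (t : Fin n × Fin n → ℝ) :
    (fun e : TT n => cc t e.1) ⬝ᵥ (fun e : TT n => cc t e.1) + dd t ⬝ᵥ dd t = t ⬝ᵥ t := by
  have h1 : (fun e : TT n => cc t e.1) ⬝ᵥ (fun e : TT n => cc t e.1) =
      ∑ e : TT n, (fun e => cc t e * cc t e) e.1 := rfl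
  rw [h1, sum_TT (fun e => cc t e * cc t e)]
  unfold dotProduct
  rw [sum_sym (fun e => t e * t e), ← Finset.sum_add_distrib]
  have h2 : Real.sqrt 2 * Real.sqrt 2 = 2 := Real.mul_self_sqrt (by norm_num)
  have h3 : Real.sqrt 2 ≠ 0 := by positivity
  refine Finset.sum_congr rfl fun e _ => ?_
  rcases lt_trichotomy e.1 e.2 with h | h | h
  · simp only [h.ne, h, if_false, if_true, cc, dd]
    rw [div_mul_div_comm, div_mul_div_comm, h2]
    ring
  · simp only [h, if_true, cc, dd, lt_irrefl, if_false]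
    ring
  · simp [h.ne', h.not_gt, dd]

/-- the reconstructed matrix has independent standard entries -/
theorem map_FF : ((gam (TT n)).prod (gam (Fin n × Fin n))).map
    (fun q : (TT n → ℝ) × (Fin n × Fin n → ℝ) => FF q.1 q.2) = gam (Fin n × Fin n) := by
  have : IsProbabilityMeasure (((gam (TT n)).prod (gam (Fin n × Fin n))).map
      (fun q : (TT n → ℝ) × (Fin n × Fin n → ℝ) => FF q.1 q.2)) :=
    Measure.isProbabilityMeasure_map measurable_FF.aemeasurable
  apply ext_dot
  intro t
  have mt : Measurable (fun ω : Fin n × Fin n → ℝ =>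
      Complex.exp (((t ⬝ᵥ ω : ℝ) : ℂ) * Complex.I)) := by
    unfold dotProduct
    fun_prop
  rw [integral_map measurable_FF.aemeasurable mt.aestronglyMeasurable]
  have e1 : ∀ q : (TT n → ℝ) × (Fin n × Fin n → ℝ),
      Complex.exp (((t ⬝ᵥ (FF q.1 q.2) : ℝ) : ℂ) * Complex.I) =
      Complex.exp ((((fun e : TT n => cc t e.1) ⬝ᵥ q.1 : ℝ) : ℂ) * Complex.I) *
        Complex.exp (((dd t ⬝ᵥ q.2 : ℝ) : ℂ) * Complex.I) := by
    intro q
    rw [← Complex.exp_add, dot_FF]
    congr 1
    push_cast
    ring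
  simp_rw [e1]
  rw [integral_prod_mul
    (fun u : TT n → ℝ => Complex.exp ((((fun e : TT n => cc t e.1) ⬝ᵥ u : ℝ) : ℂ) * Complex.I))
    (fun ω => Complex.exp (((dd t ⬝ᵥ ω : ℝ) : ℂ) * Complex.I)), cexp_dot, cexp_dot, cexp_dot,
    ← Complex.exp_add, ← dot_cc_dd t]
  congr 1
  push_cast
  ring

end Pool.Agent.H97.GP
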