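import Mathlib

set_option autoImplicit false

open MeasureTheory ProbabilityTheory
open scoped ENNReal NNReal Matrix

namespace Pool.Agent.H97.GOE

/-- The random matrix `G` on the probability space `(Ω, P)` is an `n × n` matrix of the Gaussian
orthogonal ensemble: it is almost surely symmetric, and its entries `G i j` with `i ≤ j` are
independent centred Gaussians with variance `1 / n` off the diagonal and `2 / n` on it. -/
structure IsGOE {Ω : Type*} [MeasurableSpace Ω] (P : Measure Ω) {n : ℕ}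
    (G : Ω → Matrix (Fin n) (Fin n) ℝ) : Prop where
  /-- every entry is a random variable -/
  aemeasurable : ∀ i j, AEMeasurable (fun ω => G ω i j) P
  /-- almost sure symmetry -/
  symm : ∀ᵐ ω ∂P, (G ω).IsSymm
  /-- laws of the entries -/
  law : ∀ i j, i ≤ j →
    P.map (fun ω => G ω i j) = gaussianReal 0 (if i = j then 2 / (n : ℝ≥0) else 1 / (n : ℝ≥0))
  /-- independence of the entries on and above the diagonal -/
  indep : iIndepFun (fun (e : {e : Fin n × Fin n // e.1 ≤ e.2}) ω => G ω e.1.1 e.1.2) P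

/-- The `ℓ_p` norm on `ℝ^n`. -/
noncomputable def pNorm (p : ℝ) {n : ℕ} (x : Fin n → ℝ) : ℝ := (∑ i, |x i| ^ p) ^ (1 / p)

/-- `x` is an optimizer of the `ℓ_p`-Grothendieck problem of the matrix `A`: it lies in the unit
ball of `ℓ_p` and maximises `⟨A x, x⟩` there. -/
def IsOptimizer (p : ℝ) {n : ℕ} (A : Matrix (Fin n) (Fin n) ℝ) (x : Fin n → ℝ) : Prop :=
  pNorm p x ≤ 1 ∧ ∀ y : Fin n → ℝ, pNorm p y ≤ 1 → (A *ᵥ y) ⬝ᵥ y ≤ (A *ᵥ x) ⬝ᵥ x

end Pool.Agent.H97.GOE
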