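import Mathlib
import Pool.Agent.H97.G15
import Pool.Agent.H97.GOEDefs

set_option autoImplicit false

open MeasureTheory ProbabilityTheory Set Filter Topology
open scoped ENNReal NNReal Matrix

namespace Pool.Agent.H97.GP

open Pool.Agent.H97.GOE

variable {n : ℕ}

theorem pNorm_le_one {p : ℝ} (hp : 2 < p) (x : Fin n → ℝ) : pNorm p x ≤ 1 ↔ x ∈ bl p n := by
  have h0 : 0 ≤ ∑ i, |x i| ^ p := Finset.sum_nonneg fun _ _ => Real.rpow_nonneg (abs_nonneg _) _
  unfold pNorm
  constructor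
  · intro h
    change ∑ i, |x i| ^ p ≤ 1
    by_contra hcon
    push Not at hcon
    have := Real.one_lt_rpow hcon (show 0 < 1 / p by positivity)
    linarith
  · intro h
    exact Real.rpow_le_one h0 h (by positivity)

/-- scaled upper triangular part -/
noncomputable def UU (A : Matrix (Fin n) (Fin n) ℝ) : TT n → ℝ :=
  fun e => (if e.1.1 = e.1.2 then Real.sqrt (n / 2) else Real.sqrt n) * A e.1.1 e.1.2

theorem quad_eq (A : Matrix (Fin n) (Fin n) ℝ) (hA : A.IsSymm) (w : Fin n × Fin n → ℝ)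
    (x : Fin n → ℝ) : qf (FF (UU A) w) x = Real.sqrt (n / 2) * ((A *ᵥ x) ⬝ᵥ x) := by
  have hs : ∀ i j, A i j = A j i := fun i j => (hA.apply i j).symm
  have e1 : (A *ᵥ x) ⬝ᵥ x = ∑ e : Fin n × Fin n, A e.1 e.2 * x e.1 * x e.2 := by
    rw [Fintype.sum_prod_type]
    unfold Matrix.mulVec dotProduct
    refine Finset.sum_congr rfl fun i _ => ?_
    rw [Finset.sum_mul]
    refine Finset.sum_congr rfl fun j _ => ?_
    ring
  have e2 : qf (FF (UU A) w) x = ∑ e : Fin n × Fin n, x e.1 * x e.2 * FF (UU A) w e := rfl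
  have hsq : Real.sqrt (n / 2 : ℝ) = Real.sqrt n / Real.sqrt 2 := Real.sqrt_div' _ (by norm_num)
  have h2 : Real.sqrt 2 ≠ 0 := by positivity
  have h22 : Real.sqrt 2 * Real.sqrt 2 = 2 := Real.mul_self_sqrt (by norm_num)
  rw [e1, e2, sum_sym (fun e : Fin n × Fin n => x e.1 * x e.2 * FF (UU A) w e),
    sum_sym (fun e : Fin n × Fin n => A e.1 e.2 * x e.1 * x e.2), Finset.mul_sum]
  refine Finset.sum_congr rfl fun e _ => ?_
  rcases lt_trichotomy e.1 e.2 with h | h | h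
  · simp only [h.ne, h, if_false, if_true, FF, Prod.swap_swap, Prod.fst_swap,
      Prod.snd_swap, h.ne', h.not_gt, ext0, h.le, dite_true, UU]
    rw [hs e.2 e.1, hsq]
    field_simp
    ring
  · simp only [h, if_true, FF, ext0, UU, lt_irrefl, if_false, le_refl, dite_true]
    ring
  · simp [h.ne', h.not_gt]

theorem map_UU {Ω : Type*} [MeasurableSpace Ω] {P : Measure Ω} [IsProbabilityMeasure P]
    (hn : 0 < n) {G : Ω → Matrix (Fin n) (Fin n) ℝ} (hG : IsGOE P G) :
    AEMeasurable (fun ω => UU (G ω)) P ∧ P.map (fun ω => UU (G ω)) = gam (TT n) := by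
  have hn' : (0 : ℝ) < n := by exact_mod_cast hn
  set c : TT n → ℝ := fun e => if e.1.1 = e.1.2 then Real.sqrt (n / 2) else Real.sqrt n with hc
  have h1 : iIndepFun (fun (e : TT n) ω => c e * G ω e.1.1 e.1.2) P :=
    hG.indep.comp (fun e y => c e * y) (fun e => measurable_const_mul _)
  have hae : ∀ e : TT n, AEMeasurable (fun ω => c e * G ω e.1.1 e.1.2) P :=
    fun e => (hG.aemeasurable _ _).const_mul _
  have h2 := (iIndepFun_iff_map_fun_eq_pi_map hae).1 h1
  refine ⟨aemeasurable_pi_lambda _ hae, ?_⟩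
  have h3 : P.map (fun ω => UU (G ω)) = P.map (fun ω (e : TT n) => c e * G ω e.1.1 e.1.2) := rfl
  rw [h3, h2]
  unfold gam
  congr 1
  funext e
  have h4 : P.map (fun ω => c e * G ω e.1.1 e.1.2) =
      (P.map (fun ω => G ω e.1.1 e.1.2)).map (fun y => c e * y) := by
    rw [AEMeasurable.map_map_of_aemeasurable (by fun_prop) (hG.aemeasurable _ _)]
    rfl
  rw [h4, hG.law _ _ e.2, gaussianReal_map_const_mul]
  congr 1
  · ring
  · apply NNReal.coe_injective
    push_cast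
    simp only [hc]
    split_ifs with h
    · rw [Real.sq_sqrt (by positivity)]
      push_cast
      field_simp
    · rw [Real.sq_sqrt hn'.le]
      push_cast
      field_simp

/-- transfer of the estimate to the Gaussian orthogonal ensemble -/
theorem transfer {p : ℝ} (hp : 2 < p) (hn : 0 < n) {Ω : Type*} [MeasurableSpace Ω]
    {P : Measure Ω} [IsProbabilityMeasure P] {G : Ω → Matrix (Fin n) (Fin n) ℝ}
    (hG : IsGOE P G) (c : ℝ) :
    P {ω | ∃ x, IsOptimizer p (G ω) x ∧ ∃ i, c < |x i|} ≤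
      (gam (Fin n × Fin n)) {Z | ∃ x ∈ bl p n, qf Z x = Ms (bl p n) Z ∧ ∃ i, c < |x i|} := by
  have hn' : (0 : ℝ) < n := by exact_mod_cast hn
  obtain ⟨hUae, hU⟩ := map_UU hn hG
  set BZ : Set (Fin n × Fin n → ℝ) :=
    {Z | ∃ x ∈ bl p n, qf Z x = Ms (bl p n) Z ∧ ∃ i, c < |x i|} with hBZ
  set BT : Set (TT n → ℝ) := {u | ∀ w, FF u w ∈ BZ} with hBT
  have hsub : ∀ᵐ ω ∂P, ω ∈ {ω | ∃ x, IsOptimizer p (G ω) x ∧ ∃ i, c < |x i|} →
      ω ∈ (fun ω => UU (G ω)) ⁻¹' BT := by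
    filter_upwards [hG.symm] with ω hsym
    rintro ⟨x, ⟨hx1, hx2⟩, hxc⟩ w
    have hxb := (pNorm_le_one hp x).1 hx1
    have hs : 0 < Real.sqrt (n / 2 : ℝ) := Real.sqrt_pos.2 (by positivity)
    refine ⟨x, hxb, ?_, hxc⟩
    apply le_antisymm (qf_le_Ms (bl_cube hp) _ hxb)
    refine Ms_le (bl_ne hp) _ fun y hy => ?_
    rw [quad_eq _ hsym, quad_eq _ hsym]
    exact mul_le_mul_of_nonneg_left (hx2 y ((pNorm_le_one hp y).2 hy)) hs.le
  calc P {ω | ∃ x, IsOptimizer p (G ω) x ∧ ∃ i, c < |x i|}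
      ≤ P ((fun ω => UU (G ω)) ⁻¹' BT) := measure_mono_ae hsub
    _ ≤ P.map (fun ω => UU (G ω)) BT := Measure.le_map_apply hUae BT
    _ = (gam (TT n)) BT := by rw [hU]
    _ = ((gam (TT n)).prod (gam (Fin n × Fin n))) (BT ×ˢ univ) := by
        rw [Measure.prod_prod, measure_univ, mul_one]
    _ ≤ ((gam (TT n)).prod (gam (Fin n × Fin n)))
        ((fun q : (TT n → ℝ) × (Fin n × Fin n → ℝ) => FF q.1 q.2) ⁻¹' BZ) := by
        refine measure_mono ?_
        rintro ⟨u, w⟩ ⟨hu, -⟩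
        exact hu w
    _ ≤ (((gam (TT n)).prod (gam (Fin n × Fin n))).map
        (fun q : (TT n → ℝ) × (Fin n × Fin n → ℝ) => FF q.1 q.2)) BZ :=
        Measure.le_map_apply measurable_FF.aemeasurable BZ
    _ = (gam (Fin n × Fin n)) BZ := by rw [map_FF]

/-- delocalisation of the optimizers -/
theorem delocalization {p : ℝ} (hp : 2 < p) {Ω : ℕ → Type*} [∀ n, MeasurableSpace (Ω n)]
    (P : ∀ n, Measure (Ω n)) [∀ n, IsProbabilityMeasure (P n)]
    (G : ∀ n, Ω n → Matrix (Fin n) (Fin n) ℝ) (hG : ∀ n, IsGOE (P n) (G n)) :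
    Tendsto (fun n : ℕ => P n {ω | ∃ x, IsOptimizer p (G n ω) x ∧
      ∃ i, Real.log n ^ (16 / (p - 2)) * (n : ℝ) ^ (-(1 / p)) < |x i|}) atTop (𝓝 0) := by
  have h1 : Tendsto (fun n : ℕ => ENNReal.ofReal (5000 / Real.log n)) atTop (𝓝 0) := by
    rw [← ENNReal.ofReal_zero]
    refine (ENNReal.continuous_ofReal.tendsto 0).comp ?_
    exact tendsto_const_nhds.div_atTop (Real.tendsto_log_atTop.comp tendsto_natCast_atTop_atTop)
  refine tendsto_of_tendsto_of_tendsto_of_le_of_le' tendsto_const_nhds h1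
    (Eventually.of_forall fun _ => zero_le) ?_
  filter_upwards [eventually_big hp] with n hn
  have hn0 : 0 < n := by have := hn.hn; omega
  exact (transfer hp hn0 (hG n) _).trans (main_iid hp hn)

end Pool.Agent.H97.GP
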