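import Mathlib

set_option autoImplicit false

open Set

namespace Pool.Agent.H97.RT

variable {V : Type*} {G : SimpleGraph V}

/-- the children of `x` when the tree is rooted at `r` -/
def children (G : SimpleGraph V) (r x : V) : Set V := {y | G.Adj x y ∧ G.dist r y = G.dist r x + 1}

theorem parent_unique (hG : G.IsTree) (r : V) {x y z : V} (hy : G.Adj x y) (hz : G.Adj x z)
    (hy' : G.dist r y + 1 = G.dist r x) (hz' : G.dist r z + 1 = G.dist r x) : y = z := by
  classical
  obtain ⟨p, hp, hpl⟩ := hG.connected.exists_path_of_dist r x
  have key : ∀ w, G.Adj x w → G.dist r w + 1 = G.dist r x → w = p.penultimate := by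
    intro w hw hw'
    obtain ⟨q, hq, hql⟩ := hG.connected.exists_path_of_dist r w
    have hx : x ∉ q.support := by
      intro hx
      have h1 := q.length_takeUntil_le_length hx
      have h2 := SimpleGraph.dist_le (q.takeUntil x hx)
      omega
    have := hG.isAcyclic.mem_support_of_ne_mem_support_of_adj_of_isPath hp hq hw hx
    exact hG.isAcyclic.eq_penultimate_of_adj_end hp hw this
  rw [key y hy hy', key z hz hz']

theorem exists_parent (hG : G.IsTree) (r : V) {x : V} (hx : x ≠ r) :
    ∃ y, G.Adj x y ∧ G.dist r y + 1 = G.dist r x := by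
  obtain ⟨p, hp, hpl⟩ := hG.connected.exists_path_of_dist r x
  have hnil : ¬ p.Nil := SimpleGraph.Walk.not_nil_of_ne (Ne.symm hx)
  refine ⟨p.penultimate, (p.adj_penultimate hnil).symm, ?_⟩
  have h1 := SimpleGraph.dist_le p.dropLast
  have h2 := hG.dist_eq_dist_add_one_of_adj r (p.adj_penultimate hnil)
  have h3 : p.dropLast.length + 1 = p.length := by
    have := SimpleGraph.Walk.length_dropLast_add_one hnil
    exact this
  omega

theorem dist_pos (hG : G.IsTree) {r x : V} (hx : x ≠ r) : 0 < G.dist r x :=
  hG.connected.pos_dist_of_ne (Ne.symm hx)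

open Classical in
/-- parent function -/
noncomputable def par (hG : G.IsTree) (r x : V) : V :=
  if hx : x ≠ r then (exists_parent hG r hx).choose else r

theorem par_adj (hG : G.IsTree) {r x : V} (hx : x ≠ r) : G.Adj x (par hG r x) := by
  unfold par; rw [dif_pos hx]; exact (exists_parent hG r hx).choose_spec.1

theorem par_dist (hG : G.IsTree) {r x : V} (hx : x ≠ r) :
    G.dist r (par hG r x) + 1 = G.dist r x := by
  unfold par; rw [dif_pos hx]; exact (exists_parent hG r hx).choose_spec.2

theorem par_eq (hG : G.IsTree) {r x y : V} (h : G.Adj x y)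
    (h' : G.dist r y + 1 = G.dist r x) : par hG r x = y := by
  have hx : x ≠ r := by
    rintro rfl
    simp at h'
  exact parent_unique hG r (par_adj hG hx) h (par_dist hG hx) h'

theorem ne_root_of_child (hG : G.IsTree) {r x y : V} (h : y ∈ children G r x) : y ≠ r := by
  rintro rfl
  have := h.2
  simp at this

theorem par_child (hG : G.IsTree) {r x y : V} (h : y ∈ children G r x) : par hG r y = x :=
  par_eq hG h.1.symm h.2.symm

theorem mem_children_par (hG : G.IsTree) {r x : V} (hx : x ≠ r) :
    x ∈ children G r (par hG r x) :=
  ⟨(par_adj hG hx).symm, (par_dist hG hx).symm⟩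

theorem children_root (hG : G.IsTree) (r : V) : children G r r = G.neighborSet r := by
  ext y
  simp only [children, mem_ofPred_eq, SimpleGraph.mem_neighborSet, SimpleGraph.dist_self, zero_add,
    and_iff_left_iff_imp]
  intro h
  exact SimpleGraph.dist_eq_one_iff_adj.2 h

theorem children_nonroot (hG : G.IsTree) {r x : V} (hx : x ≠ r) :
    children G r x = G.neighborSet x \ {par hG r x} := by
  ext y
  simp only [children, mem_ofPred_eq, mem_sdiff, SimpleGraph.mem_neighborSet, mem_singleton_iff]
  constructor
  · rintro ⟨h1, h2⟩
    refine ⟨h1, ?_⟩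
    rintro rfl
    have := par_dist hG hx
    omega
  · rintro ⟨h1, h2⟩
    refine ⟨h1, ?_⟩
    rcases hG.dist_eq_dist_add_one_of_adj r h1 with h3 | h3
    · exact absurd (par_eq hG h1 h3.symm).symm h2
    · exact h3

section regular

variable [G.LocallyFinite] {d : ℕ}

theorem neighborSet_ncard (hd : G.IsRegularOfDegree d) (x : V) : (G.neighborSet x).ncard = d := by
  rw [← hd x, Set.ncard_eq_toFinset_card']
  rfl

theorem neighborSet_finite (x : V) : (G.neighborSet x).Finite := Set.toFinite _

theorem children_finite (r x : V) : (children G r x).Finite :=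
  (neighborSet_finite x).subset (fun _ hy => hy.1)

theorem children_ncard (hG : G.IsTree) (hd : G.IsRegularOfDegree d) (r x r' x' : V)
    (h : G.dist r x = G.dist r' x') : (children G r x).ncard = (children G r' x').ncard := by
  by_cases hx : x = r
  · subst hx
    have hx' : x' = r' := by
      rw [SimpleGraph.dist_self] at h
      exact ((hG.connected.dist_eq_zero_iff).1 h.symm).symm
    subst hx'
    rw [children_root hG, children_root hG, neighborSet_ncard hd, neighborSet_ncard hd]
  · have hx' : x' ≠ r' := by
      rintro rfl
      have := dist_pos hG hx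
      rw [SimpleGraph.dist_self] at h
      omega
    have m1 : par hG r x ∈ G.neighborSet x := par_adj hG hx
    have m2 : par hG r' x' ∈ G.neighborSet x' := par_adj hG hx'
    rw [children_nonroot hG hx, children_nonroot hG hx',
      Set.ncard_sdiff_singleton_of_mem m1,
      Set.ncard_sdiff_singleton_of_mem m2,
      neighborSet_ncard hd, neighborSet_ncard hd]

end regular

theorem exists_bijOn {A B : Set V} (hA : A.Finite) (hB : B.Finite) (h : A.ncard = B.ncard)
    {c c' : V} (hc : c ∈ A) (hc' : c' ∈ B) : ∃ f : V → V, BijOn f A B ∧ f c = c' := by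
  classical
  have he : A.encard = B.encard := by
    rw [← hA.cast_ncard_eq, ← hB.cast_ncard_eq, h]
  have : Nonempty V := ⟨c⟩
  obtain ⟨f, hf⟩ := hA.exists_bijOn_of_encard_eq he
  have hfc : f c ∈ B := hf.mapsTo hc
  refine ⟨fun x => Equiv.swap (f c) c' (f x), ?_, by simp⟩
  have hs : BijOn (Equiv.swap (f c) c') B B := by
    refine ⟨?_, (Equiv.injective _).injOn, ?_⟩
    · intro z hz
      by_cases h1 : z = f c
      · subst h1; simpa using hc'
      · by_cases h2 : z = c'
        · subst h2; simpa using hfc
        · rw [Equiv.swap_apply_of_ne_of_ne h1 h2]; exact hz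
    · intro z hz
      refine ⟨Equiv.swap (f c) c' z, ?_, by simp⟩
      by_cases h1 : z = f c
      · subst h1; simpa using hc'
      · by_cases h2 : z = c'
        · subst h2; simpa using hfc
        · rw [Equiv.swap_apply_of_ne_of_ne h1 h2]; exact hz
  exact hs.comp hf

/-- level-by-level recursion -/
noncomputable def lvl (hG : G.IsTree) (e : V → V → V → V) (r r' : V) : ℕ → V → V
  | 0, _ => r'
  | n + 1, x => e (par hG r x) (lvl hG e r r' n (par hG r x)) x

/-- the candidate automorphism -/
noncomputable def phi (hG : G.IsTree) (e : V → V → V → V) (r r' : V) (x : V) : V :=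
  lvl hG e r r' (G.dist r x) x

section phi

variable (hG : G.IsTree) {e : V → V → V → V} {r r' : V}

theorem phi_root : phi hG e r r' r = r' := by
  unfold phi; rw [SimpleGraph.dist_self]; rfl

theorem phi_child {a x : V} (hx : x ∈ children G r a) :
    phi hG e r r' x = e a (phi hG e r r' a) x := by
  unfold phi
  rw [hx.2]
  change e (par hG r x) (lvl hG e r r' (G.dist r a) (par hG r x)) x = _
  rw [par_child hG hx]

/-- hypothesis on the local bijections -/
def Good (G : SimpleGraph V) (e : V → V → V → V) (r r' : V) : Prop :=
  ∀ a b, G.dist r a = G.dist r' b → BijOn (e a b) (children G r a) (children G r' b)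

theorem phi_dist (he : Good G e r r') : ∀ n x, G.dist r x = n →
    G.dist r' (phi hG e r r' x) = n := by
  intro n
  induction n with
  | zero =>
    intro x hx
    have : r = x := (hG.connected.dist_eq_zero_iff).1 hx
    subst this
    rw [phi_root, SimpleGraph.dist_self]
  | succ n ih =>
    intro x hx
    have hxr : x ≠ r := by
      rintro rfl
      rw [SimpleGraph.dist_self] at hx
      omega
    have hc := mem_children_par hG hxr
    rw [phi_child hG hc]
    have hp : G.dist r (par hG r x) = n := by
      have := par_dist hG hxr
      omega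
    have h1 := ih _ hp
    have h2 := (he _ _ (hp.trans h1.symm)).mapsTo hc
    rw [h2.2, h1]

theorem phi_dist' (he : Good G e r r') (x : V) :
    G.dist r' (phi hG e r r' x) = G.dist r x := phi_dist hG he _ x rfl

theorem phi_mem_children (he : Good G e r r') {a x : V} (hx : x ∈ children G r a) :
    phi hG e r r' x ∈ children G r' (phi hG e r r' a) := by
  rw [phi_child hG hx]
  exact (he _ _ (phi_dist' hG he a).symm).mapsTo hx

theorem phi_par (he : Good G e r r') {x : V} (hx : x ≠ r) :
    par hG r' (phi hG e r r' x) = phi hG e r r' (par hG r x) :=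
  par_child hG (phi_mem_children hG he (mem_children_par hG hx))

theorem phi_inj (he : Good G e r r') : ∀ n x y, G.dist r x = n → G.dist r y = n →
    phi hG e r r' x = phi hG e r r' y → x = y := by
  intro n
  induction n with
  | zero =>
    intro x y hx hy _
    exact ((hG.connected.dist_eq_zero_iff).1 hx).symm.trans ((hG.connected.dist_eq_zero_iff).1 hy)
  | succ n ih =>
    intro x y hx hy hxy
    have hxr : x ≠ r := by
      rintro rfl
      rw [SimpleGraph.dist_self] at hx
      omega
    have hyr : y ≠ r := by
      rintro rfl
      rw [SimpleGraph.dist_self] at hy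
      omega
    have hpx := par_dist hG hxr
    have hpy := par_dist hG hyr
    have hpar : par hG r x = par hG r y := by
      apply ih _ _ (by omega) (by omega)
      rw [← phi_par hG he hxr, ← phi_par hG he hyr, hxy]
    have hcx := mem_children_par hG hxr
    have hcy := mem_children_par hG hyr
    rw [← hpar] at hcy
    rw [phi_child hG hcx, phi_child hG hcy] at hxy
    exact (he _ _ (phi_dist' hG he _).symm).injOn hcx hcy hxy

theorem phi_surj (he : Good G e r r') : ∀ n z, G.dist r' z = n →
    ∃ x, phi hG e r r' x = z := by
  intro n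
  induction n with
  | zero =>
    intro z hz
    have : r' = z := (hG.connected.dist_eq_zero_iff).1 hz
    exact ⟨r, by rw [phi_root, this]⟩
  | succ n ih =>
    intro z hz
    have hzr : z ≠ r' := by
      rintro rfl
      rw [SimpleGraph.dist_self] at hz
      omega
    have hpz := par_dist hG hzr
    obtain ⟨a, ha⟩ := ih (par hG r' z) (by omega)
    have hcz := mem_children_par hG hzr
    rw [← ha] at hcz
    obtain ⟨x, hx, hxz⟩ := (he _ _ (phi_dist' hG he a).symm).surjOn hcz
    exact ⟨x, by rw [phi_child hG hx, hxz]⟩

theorem phi_bijective (he : Good G e r r') : Function.Bijective (phi hG e r r') := by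
  constructor
  · intro x y hxy
    have h1 := phi_dist' hG he x
    have h2 := phi_dist' hG he y
    rw [hxy, h2] at h1
    exact phi_inj hG he _ x y rfl h1 hxy
  · intro z
    exact phi_surj hG he _ z rfl

theorem phi_adj (he : Good G e r r') {x y : V} :
    G.Adj (phi hG e r r' x) (phi hG e r r' y) ↔ G.Adj x y := by
  have h1 : ∀ {x y : V}, G.Adj x y → G.Adj (phi hG e r r' x) (phi hG e r r' y) := by
    intro x y hxy
    rcases hG.dist_eq_dist_add_one_of_adj r hxy with h | h
    · exact (phi_mem_children hG he (a := y) (x := x) ⟨hxy.symm, h⟩).1.symm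
    · exact (phi_mem_children hG he (a := x) (x := y) ⟨hxy, h⟩).1
  have h2 : ∀ {x y : V}, G.Adj (phi hG e r r' x) (phi hG e r r' y) →
      G.dist r y = G.dist r x + 1 → G.Adj x y := by
    intro x y hxy hd
    have hyr : y ≠ r := by
      rintro rfl
      rw [SimpleGraph.dist_self] at hd
      omega
    have h3 : par hG r' (phi hG e r r' y) = phi hG e r r' x := by
      apply par_eq hG hxy.symm
      rw [phi_dist' hG he, phi_dist' hG he, hd]
    rw [phi_par hG he hyr] at h3
    have h4 := (phi_bijective hG he).1 h3
    rw [← h4]
    exact (par_adj hG hyr).symm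
  refine ⟨fun h => ?_, h1⟩
  rcases hG.dist_eq_dist_add_one_of_adj r' h with h3 | h3
  · rw [phi_dist' hG he, phi_dist' hG he] at h3
    exact (h2 h.symm h3).symm
  · rw [phi_dist' hG he, phi_dist' hG he] at h3
    exact h2 h h3

/-- the automorphism -/
noncomputable def phiIso (he : Good G e r r') : G ≃g G where
  toEquiv := Equiv.ofBijective _ (phi_bijective hG he)
  map_rel_iff' := phi_adj hG he

end phi

/-- two-point homogeneity of regular trees -/
theorem homogeneous [G.LocallyFinite] {d : ℕ} (hG : G.IsTree) (hd : G.IsRegularOfDegree d)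
    {r x r' x' : V} (h : G.dist r x = G.dist r' x') :
    ∃ γ : G ≃g G, γ r = r' ∧ γ x = x' := by
  classical
  -- geodesics
  have geo : ∀ r x : V, ∃ p : ℕ → V, p 0 = r ∧ p (G.dist r x) = x ∧
      ∀ i < G.dist r x, p (i + 1) ∈ children G r (p i) := by
    intro r x
    -- build from the ancestors of x
    suffices H : ∀ n x, G.dist r x = n → ∃ p : ℕ → V, p 0 = r ∧ p n = x ∧
        ∀ i < n, p (i + 1) ∈ children G r (p i) from H _ x rfl
    intro n
    induction n with
    | zero =>
      intro x hx
      have : r = x := (hG.connected.dist_eq_zero_iff).1 hx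
      exact ⟨fun _ => r, rfl, this, fun i hi => absurd hi (Nat.not_lt_zero i)⟩
    | succ n ih =>
      intro x hx
      have hxr : x ≠ r := by
        rintro rfl
        rw [SimpleGraph.dist_self] at hx
        omega
      have hpx := par_dist hG hxr
      obtain ⟨p, hp0, hpn, hp⟩ := ih (par hG r x) (by omega)
      refine ⟨fun i => if i = n + 1 then x else p i, by simpa using hp0, by simp, ?_⟩
      intro i hi
      by_cases hin : i = n
      · subst hin
        simp only [if_true]
        rw [if_neg (by omega), hpn]
        exact mem_children_par hG hxr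
      · simp only
        rw [if_neg (by omega), if_neg (by omega)]
        exact hp i (by omega)
  obtain ⟨p, hp0, hpn, hp⟩ := geo r x
  obtain ⟨q, hq0, hqn, hq⟩ := geo r' x'
  have hex : ∀ a b : V, ∃ f : V → V, (G.dist r a = G.dist r' b →
      BijOn f (children G r a) (children G r' b)) ∧
      ((G.dist r a < G.dist r x ∧ G.dist r a = G.dist r' b ∧ a = p (G.dist r a) ∧
        b = q (G.dist r a)) → f (p (G.dist r a + 1)) = q (G.dist r a + 1)) := by
    intro a b
    by_cases hab : G.dist r a = G.dist r' b
    · have hcard := children_ncard hG hd r a r' b hab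
      by_cases hc : G.dist r a < G.dist r x ∧ a = p (G.dist r a) ∧ b = q (G.dist r a)
      · obtain ⟨hc1, hc2, hc3⟩ := hc
        have m1 : p (G.dist r a + 1) ∈ children G r a := by
          have := hp _ hc1
          rwa [← hc2] at this
        have m2 : q (G.dist r a + 1) ∈ children G r' b := by
          have := hq _ (by rw [← h]; exact hc1)
          rwa [← hc3] at this
        obtain ⟨f, hf, hf'⟩ := exists_bijOn (children_finite r a) (children_finite r' b) hcard
          m1 m2
        exact ⟨f, fun _ => hf, fun _ => hf'⟩
      · have he : (children G r a).encard = (children G r' b).encard := by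
          rw [← (children_finite r a).cast_ncard_eq, ← (children_finite r' b).cast_ncard_eq, hcard]
        have : Nonempty V := ⟨r⟩
        obtain ⟨f, hf⟩ := (children_finite r a).exists_bijOn_of_encard_eq he
        exact ⟨f, fun _ => hf, fun h => absurd ⟨h.1, h.2.2.1, h.2.2.2⟩ hc⟩
    · exact ⟨id, fun h => absurd h hab, fun h => absurd h.2.1 hab⟩
  choose e he1 he2 using hex
  have hgood : Good G e r r' := he1
  refine ⟨phiIso hG hgood, phi_root hG, ?_⟩
  have key : ∀ i ≤ G.dist r x, G.dist r (p i) = i ∧ phi hG e r r' (p i) = q i := by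
    intro i
    induction i with
    | zero => intro _; rw [hp0, hq0, SimpleGraph.dist_self]; exact ⟨rfl, phi_root hG⟩
    | succ i ih =>
      intro hi
      obtain ⟨h1, h2⟩ := ih (by omega)
      have h3 := hp i (by omega)
      refine ⟨by rw [h3.2, h1], ?_⟩
      rw [phi_child hG h3, h2]
      have h4 := he2 (p i) (q i) ⟨by omega, ?_, ?_, ?_⟩
      · rwa [h1] at h4
      · have := phi_dist' hG hgood (p i)
        rw [h2] at this
        exact this.symm
      · rw [h1]
      · rw [h1]
  have := (key _ le_rfl).2
  rw [hpn] at this
  change phi hG e r r' x = x'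
  rw [this, h, hqn]

end Pool.Agent.H97.RT
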