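import Mathlib

/-!
# Finitary factors of i.i.d. labels on a graph, with values in edge configurations

Definitions used in the statement of the result on perfect matchings of regular trees.
-/

set_option autoImplicit false

open MeasureTheory Set
open scoped ENNReal

namespace Pool.Agent.H97.RT

/-- law of i.i.d. labels indexed by `V`, each label with law `ν` -/
noncomputable abbrev lab (V : Type*) {S : Type*} [MeasurableSpace S] (ν : Measure S)
    [IsProbabilityMeasure ν] : Measure (V → S) := Measure.infinitePi (fun _ : V => ν)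

variable {V : Type*} {S : Type*}

/-- the label configuration `γ ω`, i.e. `(γ ω)(v) = ω(γ⁻¹ v)` -/
def actLab {G : SimpleGraph V} (γ : G ≃g G) (ω : V → S) : V → S := fun v => ω (γ.symm v)

/-- the edge configuration `γ η`, i.e. `(γ η)(e) = η(γ⁻¹ e)` -/
def actEdge {G : SimpleGraph V} (γ : G ≃g G) (η : G.edgeSet → Bool) : G.edgeSet → Bool :=
  fun e => η (γ.symm.mapEdgeSet e)

/-- a factor: a measurable map from label configurations to 0-1 configurations on the edges
which commutes with every automorphism of the graph -/
def IsFactor [MeasurableSpace S] (G : SimpleGraph V) (Φ : (V → S) → (G.edgeSet → Bool)) : Prop :=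
  Measurable Φ ∧ ∀ (γ : G ≃g G) (ω : V → S), Φ (actLab γ ω) = actEdge γ (Φ ω)

/-- the restriction of `Φ` to the edges at `v` takes the same value at every `ω'` that agrees
with `ω` on the ball of radius `r` around `v` -/
def Determined (G : SimpleGraph V) (Φ : (V → S) → (G.edgeSet → Bool)) (v : V) (r : ℕ)
    (ω : V → S) : Prop :=
  ∀ ω' : V → S, (∀ u, G.dist v u ≤ r → ω' u = ω u) →
    ∀ e : G.edgeSet, v ∈ (e : Sym2 V) → Φ ω' e = Φ ω e

/-- coding radius at the vertex `v`: the least `r` with `Determined G Φ v r ω`,
and `⊤` if there is none -/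
noncomputable def codingRadius (G : SimpleGraph V) (Φ : (V → S) → (G.edgeSet → Bool)) (v : V)
    (ω : V → S) : ℕ∞ :=
  ⨅ (r : ℕ) (_ : Determined G Φ v r ω), (r : ℕ∞)

/-- coding volume: the number of vertices in the ball of radius `codingRadius` around `v` -/
noncomputable def codingVolume (G : SimpleGraph V) (Φ : (V → S) → (G.edgeSet → Bool)) (v : V)
    (ω : V → S) : ℝ≥0∞ :=
  (({u : V | (G.dist v u : ℕ∞) ≤ codingRadius G Φ v ω}.encard : ℕ∞) : ℝ≥0∞)

/-- `η` is (the indicator of) a perfect matching: every vertex is in exactly one chosen edge -/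
def IsPM (G : SimpleGraph V) (η : G.edgeSet → Bool) : Prop :=
  ∀ v : V, ∃! e : G.edgeSet, v ∈ (e : Sym2 V) ∧ η e = true

end Pool.Agent.H97.RT
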