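import Mathlib
import Pool.Agent.H97.TreeDefs

set_option autoImplicit false

open MeasureTheory Set
open scoped ENNReal

namespace Pool.Agent.H97.RT

variable {V : Type*} {S : Type*} [MeasurableSpace S] (ν : Measure S) [IsProbabilityMeasure ν]

/-- relabelling by a permutation preserves the product measure -/
theorem mp_relabel {U W : Type*} (σ : U ≃ W) :
    MeasurePreserving (fun ω : W → S => fun u => ω (σ u)) (lab W ν) (lab U ν) := by
  have hm : Measurable (fun ω : W → S => fun u => ω (σ u)) :=
    measurable_pi_lambda _ (fun u => measurable_pi_apply (σ u))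
  refine ⟨hm, ?_⟩
  refine Measure.eq_infinitePi (μ := fun _ : U => ν) (fun s t ht => ?_)
  rw [Measure.map_apply hm (MeasurableSet.pi s.countable_toSet fun i _ => ht i)]
  classical
  have e : (fun ω : W → S => fun u => ω (σ u)) ⁻¹' (Set.pi s t) =
      Set.pi (↑(s.map σ.toEmbedding) : Set W) (fun w => t (σ.symm w)) := by
    ext ω
    simp only [mem_preimage, mem_pi, Finset.mem_coe, Finset.mem_map, Equiv.coe_toEmbedding]
    constructor
    · rintro h w ⟨u, hu, rfl⟩
      simpa using h u hu
    · intro h u hu
      simpa using h (σ u) ⟨u, hu, rfl⟩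
  rw [e, Measure.infinitePi_pi (μ := fun _ : W => ν) (fun i _ => ht _)]
  simp

/-- combining two independent families -/
theorem mp_sum : MeasurePreserving
    (MeasurableEquiv.sumPiEquivProdPi (fun _ : V ⊕ V => S)).symm
    ((lab V ν).prod (lab V ν)) (lab (V ⊕ V) ν) := by
  have hm := (MeasurableEquiv.sumPiEquivProdPi (fun _ : V ⊕ V => S)).symm.measurable
  refine ⟨hm, ?_⟩
  refine Measure.eq_infinitePi (μ := fun _ : V ⊕ V => ν) (fun s t ht => ?_)
  rw [Measure.map_apply hm (MeasurableSet.pi s.countable_toSet fun i _ => ht i)]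
  classical
  have e : (MeasurableEquiv.sumPiEquivProdPi (fun _ : V ⊕ V => S)).symm ⁻¹' (Set.pi s t) =
      (Set.pi (↑(s.toLeft) : Set V) (fun v => t (Sum.inl v))) ×ˢ
        (Set.pi (↑(s.toRight) : Set V) (fun v => t (Sum.inr v))) := by
    ext p
    simp only [mem_preimage, mem_pi, Finset.mem_coe, mem_prod, Finset.mem_toLeft,
      Finset.mem_toRight, Sum.forall]
    rfl
  rw [e, Measure.prod_prod, Measure.infinitePi_pi (μ := fun _ : V => ν) (fun i _ => ht _),
    Measure.infinitePi_pi (μ := fun _ : V => ν) (fun i _ => ht _)]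
  rw [← Finset.toLeft_disjSum_toRight (u := s), Finset.prod_disjSum]
  simp

open Classical in
/-- resample the labels in `A` -/
noncomputable def mix (A : Set V) (ω ω' : V → S) : V → S := fun v => if v ∈ A then ω' v else ω v

open Classical in
/-- swap the two copies over `A` -/
noncomputable def sw (A : Set V) : V ⊕ V ≃ V ⊕ V where
  toFun := fun x => match x with
    | Sum.inl v => if v ∈ A then Sum.inr v else Sum.inl v
    | Sum.inr v => if v ∈ A then Sum.inl v else Sum.inr v
  invFun := fun x => match x with
    | Sum.inl v => if v ∈ A then Sum.inr v else Sum.inl v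
    | Sum.inr v => if v ∈ A then Sum.inl v else Sum.inr v
  left_inv := by
    rintro (v | v) <;> by_cases h : v ∈ A <;> simp [h]
  right_inv := by
    rintro (v | v) <;> by_cases h : v ∈ A <;> simp [h]

theorem sw_inl_mem {A : Set V} {v : V} (h : v ∈ A) : sw A (Sum.inl v) = Sum.inr v := by
  classical
  change (if v ∈ A then Sum.inr v else Sum.inl v) = _
  simp [h]

theorem sw_inl_notMem {A : Set V} {v : V} (h : v ∉ A) : sw A (Sum.inl v) = Sum.inl v := by
  classical
  change (if v ∈ A then Sum.inr v else Sum.inl v) = _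
  simp [h]

theorem sw_inr_mem {A : Set V} {v : V} (h : v ∈ A) : sw A (Sum.inr v) = Sum.inl v := by
  classical
  change (if v ∈ A then Sum.inl v else Sum.inr v) = _
  simp [h]

theorem sw_inr_notMem {A : Set V} {v : V} (h : v ∉ A) : sw A (Sum.inr v) = Sum.inr v := by
  classical
  change (if v ∈ A then Sum.inl v else Sum.inr v) = _
  simp [h]

/-- exchanging the two copies on `A` preserves the product -/
theorem mp_mix (A : Set V) : MeasurePreserving
    (fun p : (V → S) × (V → S) => (mix A p.1 p.2, mix A p.2 p.1))
    ((lab V ν).prod (lab V ν)) ((lab V ν).prod (lab V ν)) := by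
  have h1 := mp_sum (V := V) ν
  have h2 := mp_relabel ν (sw A)
  have h3 := h1.symm
  have h4 := h3.comp (h2.comp h1)
  convert h4 using 1
  funext p
  have e1 : mix A p.1 p.2 = fun v => Sum.rec (motive := fun _ => S) p.1 p.2 (sw A (Sum.inl v)) := by
    funext v
    by_cases h : v ∈ A
    · rw [sw_inl_mem h]; simp [mix, h]
    · rw [sw_inl_notMem h]; simp [mix, h]
  have e2 : mix A p.2 p.1 = fun v => Sum.rec (motive := fun _ => S) p.1 p.2 (sw A (Sum.inr v)) := by
    funext v
    by_cases h : v ∈ A
    · rw [sw_inr_mem h]; simp [mix, h]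
    · rw [sw_inr_notMem h]; simp [mix, h]
  rw [e1, e2]
  rfl

omit [MeasurableSpace S] in
theorem mix_insert {A : Set V} {a : V} (ha : a ∉ A) (ω ω' : V → S) :
    mix {a} (mix A ω ω') (mix A ω' ω) = mix (insert a A) ω ω' := by
  funext v
  unfold mix
  by_cases h1 : v = a
  · subst h1; simp [ha]
  · by_cases h2 : v ∈ A <;> simp [h1, h2]

/-- zero-one law for events that are almost surely insensitive to finite resampling -/
theorem zero_one {E : Set (V → S)} (hE : MeasurableSet E)
    (h : ∀ A : Finset V, ∀ᵐ p ∂((lab V ν).prod (lab V ν)),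
      (p.1 ∈ E ↔ mix (↑A : Set V) p.1 p.2 ∈ E)) :
    lab V ν E = 0 ∨ lab V ν E = 1 := by
  set μ := lab V ν with hμ
  -- restricted measure equals scaled measure
  have key : μ.restrict E = (μ E) • μ := by
    refine ext_of_generate_finite (measurableCylinders (fun _ : V => S))
      generateFrom_measurableCylinders.symm isPiSystem_measurableCylinders ?_ ?_
    · intro C hC
      obtain ⟨A, T, hT, rfl⟩ := (mem_measurableCylinders C).1 hC
      set K : Set (V → S) := cylinder (α := fun _ : V => S) A T with hK
      have hCm : MeasurableSet K := MeasurableSet.cylinder (α := fun _ : V => S) A hT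
      rw [Measure.restrict_apply hCm, Measure.smul_apply, smul_eq_mul]
      -- E ∩ C computed on the product
      have h1 : μ (K ∩ E) = (μ.prod μ) ((E ∩ K) ×ˢ univ) := by
        rw [Measure.prod_prod, measure_univ, mul_one, inter_comm]
      have h2 : (μ.prod μ) ((E ∩ K) ×ˢ univ) =
          (μ.prod μ) ((fun p : (V → S) × (V → S) => (mix (↑A : Set V) p.1 p.2,
            mix (↑A : Set V) p.2 p.1)) ⁻¹' (E ×ˢ K)) := by
        apply measure_congr
        filter_upwards [h A] with p hp
        have hcyl : (mix (↑A : Set V) p.2 p.1 ∈ K ↔ p.1 ∈ K) := by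
          rw [hK, mem_cylinder, mem_cylinder]
          have : A.restrict (mix (↑A : Set V) p.2 p.1) = A.restrict p.1 := by
            funext i
            simp [mix, Finset.restrict]
          rw [this]
        apply propext
        change (p ∈ (E ∩ K) ×ˢ (univ : Set (V → S))) ↔
          ((mix (↑A : Set V) p.1 p.2, mix (↑A : Set V) p.2 p.1) ∈ E ×ˢ K)
        simp only [mem_prod, mem_inter_iff, mem_univ, and_true]
        rw [hcyl, hp]
      rw [h1, h2, (mp_mix ν (↑A : Set V)).measure_preimage
        (hE.prod hCm).nullMeasurableSet, Measure.prod_prod]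
    · simp
  have h3 := congrArg (fun m => m E) key
  simp only [Measure.restrict_apply hE, inter_self, Measure.smul_apply, smul_eq_mul] at h3
  have hne : μ E ≠ ∞ := measure_ne_top μ E
  rcases eq_or_ne (μ E) 0 with h0 | h0
  · left; exact h0
  · right
    have h4 : μ E * 1 = μ E * μ E := by rw [mul_one]; exact h3
    exact ((ENNReal.mul_right_inj h0 hne).1 h4).symm

end Pool.Agent.H97.RT
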