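import Mathlib
import Pool.Agent.H97.Tree1
import Pool.Agent.H97.Tree2

set_option autoImplicit false

open MeasureTheory Set
open scoped ENNReal

namespace Pool.Agent.H97.RT

variable {V : Type*} {S : Type*}

/-! ### combinatorics -/

theorem countable_of_regular {G : SimpleGraph V} [G.LocallyFinite] (hG : G.IsTree) :
    Countable V := by
  obtain ⟨r⟩ := hG.connected.nonempty
  have hfin : ∀ n : ℕ, {v : V | G.dist r v = n}.Finite := by
    intro n
    induction n with
    | zero =>
      refine (finite_singleton r).subset ?_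
      intro v hv
      exact ((hG.connected.dist_eq_zero_iff).1 hv).symm
    | succ n ih =>
      refine (ih.biUnion (fun a _ => children_finite (G := G) r a)).subset ?_
      intro v hv
      change G.dist r v = n + 1 at hv
      have hvr : v ≠ r := by
        rintro rfl
        rw [SimpleGraph.dist_self] at hv
        omega
      have h1 := par_dist hG hvr
      rw [mem_iUnion₂]
      exact ⟨par hG r v, by change G.dist r _ = n; omega, mem_children_par hG hvr⟩
  rw [← countable_univ_iff]
  have : (univ : Set V) = ⋃ n : ℕ, {v : V | G.dist r v = n} := by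
    ext v; simp
  rw [this]
  exact countable_iUnion fun n => (hfin n).countable

theorem pm_eq_of_finite {G : SimpleGraph V} (hG : G.IsTree) {η η' : G.edgeSet → Bool}
    (h : IsPM G η) (h' : IsPM G η')
    (hfin : {v : V | ∃ e : G.edgeSet, v ∈ (e : Sym2 V) ∧ η e ≠ η' e}.Finite) : η = η' := by
  classical
  set D := {v : V | ∃ e : G.edgeSet, v ∈ (e : Sym2 V) ∧ η e ≠ η' e} with hD
  have hempty : D = ∅ := by
    by_contra hne
    have hne' : D.Nonempty := nonempty_iff_ne_empty.2 hne
    obtain ⟨r⟩ := hG.connected.nonempty
    obtain ⟨v, hvD, hmax⟩ := hfin.exists_maximalFor (fun v => G.dist r v) D hne'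
    obtain ⟨e1, ⟨he1v, he1⟩, hu1⟩ := h v
    obtain ⟨e2, ⟨he2v, he2⟩, hu2⟩ := h' v
    have hne12 : e1 ≠ e2 := by
      rintro rfl
      obtain ⟨e, hev, hee⟩ := hvD
      apply hee
      by_cases hc : e = e1
      · rw [hc, he1, he2]
      · have h1 : η e = false := by
          by_contra h3
          exact hc (hu1 e ⟨hev, by simpa using h3⟩)
        have h2 : η' e = false := by
          by_contra h3
          exact hc (hu2 e ⟨hev, by simpa using h3⟩)
        rw [h1, h2]
    have h12 : η' e1 ≠ true := fun h3 => hne12 (hu2 e1 ⟨he1v, h3⟩)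
    have h21 : η e2 ≠ true := fun h3 => hne12 (hu1 e2 ⟨he2v, h3⟩).symm
    have hd1 : η e1 ≠ η' e1 := by rw [he1]; exact fun h3 => h12 h3.symm
    have hd2 : η e2 ≠ η' e2 := by rw [he2]; exact h21
    -- the other endpoints
    obtain ⟨a, ha⟩ := Sym2.mem_iff_exists.1 he1v
    obtain ⟨b, hb⟩ := Sym2.mem_iff_exists.1 he2v
    have hadja : G.Adj v a := by
      have := e1.2; rw [ha] at this; exact this
    have hadjb : G.Adj v b := by
      have := e2.2; rw [hb] at this; exact this
    have haD : a ∈ D := ⟨e1, by rw [ha]; simp, hd1⟩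
    have hbD : b ∈ D := ⟨e2, by rw [hb]; simp, hd2⟩
    have hab : a ≠ b := by
      rintro rfl
      apply hne12
      apply Subtype.ext
      rw [ha, hb]
    have hdist : ∀ c, G.Adj v c → c ∈ D → G.dist r c + 1 = G.dist r v := by
      intro c hc hcD
      rcases hG.dist_eq_dist_add_one_of_adj r hc with h3 | h3
      · exact h3.symm
      · exfalso
        have := hmax hcD (by change G.dist r v ≤ G.dist r c; omega)
        change G.dist r c ≤ G.dist r v at this
        omega
    exact hab (parent_unique hG r hadja hadjb (hdist a hadja haD) (hdist b hadjb hbD))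
  funext e
  by_contra hne
  have : (e : Sym2 V).out.1 ∈ D := ⟨e, Sym2.out_fst_mem _, hne⟩
  rw [hempty] at this
  exact this

end Pool.Agent.H97.RT
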