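import Mathlib
import Pool.Agent.H97.Tree3

set_option autoImplicit false

open MeasureTheory Set
open scoped ENNReal

namespace Pool.Agent.H97.RT

variable {V : Type*} {S : Type*} [MeasurableSpace S] (ν : Measure S) [IsProbabilityMeasure ν]
  {G : SimpleGraph V} {Φ : (V → S) → (G.edgeSet → Bool)}

/-- the output at `v` changes when the label of `w` is resampled -/
def Dset (Φ : (V → S) → (G.edgeSet → Bool)) (v w : V) : Set ((V → S) × (V → S)) :=
  {p | ∃ e : G.edgeSet, v ∈ (e : Sym2 V) ∧ Φ p.1 e ≠ Φ (mix {w} p.1 p.2) e}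

theorem measurable_mix (A : Set V) :
    Measurable (fun p : (V → S) × (V → S) => mix A p.1 p.2) := by
  classical
  apply measurable_pi_lambda
  intro v
  by_cases h : v ∈ A
  · simp only [mix, h, if_true]
    exact (measurable_pi_apply v).comp measurable_snd
  · simp only [mix, h, if_false]
    exact (measurable_pi_apply v).comp measurable_fst

theorem measurableSet_Dset [Countable V] (hΦ : Measurable Φ) (v w : V) :
    MeasurableSet (Dset Φ v w) := by
  have : Dset Φ v w = ⋃ (e : G.edgeSet) (_ : v ∈ (e : Sym2 V)),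
      {p | Φ p.1 e ≠ Φ (mix {w} p.1 p.2) e} := by
    ext p; simp [Dset]
  rw [this]
  have hc : Countable G.edgeSet := by
    have : Countable (Sym2 V) := by
      refine Function.Surjective.countable (f := fun p : V × V => s(p.1, p.2)) ?_
      intro e
      induction e using Sym2.ind with
      | _ x y => exact ⟨(x, y), rfl⟩
    infer_instance
  refine MeasurableSet.iUnion fun e => MeasurableSet.iUnion fun _ => ?_
  have h1 : Measurable (fun p : (V → S) × (V → S) => Φ p.1 e) :=
    (measurable_pi_apply e).comp (hΦ.comp measurable_fst)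
  have h2 : Measurable (fun p : (V → S) × (V → S) => Φ (mix {w} p.1 p.2) e) :=
    (measurable_pi_apply e).comp (hΦ.comp (measurable_mix {w}))
  exact (measurableSet_eq_fun h1 h2).compl

omit [MeasurableSpace S] in
theorem radius_ge {v w : V} {p : (V → S) × (V → S)} (hp : p ∈ Dset Φ v w) :
    (G.dist v w : ℕ∞) ≤ codingRadius G Φ v p.1 := by
  obtain ⟨e, hev, hne⟩ := hp
  refine le_iInf₂ fun r hr => ?_
  by_contra hcon
  have hlt : r < G.dist v w := by
    have := not_le.1 hcon
    exact_mod_cast this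
  apply hne
  refine (hr (mix {w} p.1 p.2) ?_ e hev).symm
  intro u hu
  have huw : u ≠ w := by
    rintro rfl
    omega
  simp [mix, huw]

/-- total influence is at most the expected coding volume -/
theorem sum_influence_le [Countable V] (hΦ : Measurable Φ) (v : V) :
    ∑' w, ((lab V ν).prod (lab V ν)) (Dset Φ v w) ≤ ∫⁻ ω, codingVolume G Φ v ω ∂(lab V ν) := by
  have h1 : ∀ w, ((lab V ν).prod (lab V ν)) (Dset Φ v w) =
      ∫⁻ ω, (lab V ν) (Prod.mk ω ⁻¹' (Dset Φ v w)) ∂(lab V ν) := fun w =>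
    Measure.prod_apply (measurableSet_Dset hΦ v w)
  simp_rw [h1]
  rw [← lintegral_tsum]
  · apply lintegral_mono
    intro ω
    change ∑' w, (lab V ν) (Prod.mk ω ⁻¹' (Dset Φ v w)) ≤ codingVolume G Φ v ω
    unfold codingVolume
    set B : Set V := {u : V | (G.dist v u : ℕ∞) ≤ codingRadius G Φ v ω} with hB
    rw [← ENNReal.tsum_set_one B, tsum_subtype B (fun _ => (1 : ℝ≥0∞))]
    refine ENNReal.tsum_le_tsum fun w => ?_
    by_cases hw : w ∈ B
    · rw [indicator_of_mem hw]
      exact prob_le_one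
    · rw [indicator_of_notMem hw]
      have : Prod.mk ω ⁻¹' (Dset Φ v w) = ∅ := by
        ext ω'
        simp only [mem_preimage, mem_empty_iff_false, iff_false]
        intro hp
        exact hw (radius_ge hp)
      rw [this]; simp
  · intro w
    exact (measurable_measure_prodMk_left (measurableSet_Dset hΦ v w)).aemeasurable

omit [MeasurableSpace S] in
theorem actLab_mix (γ : G ≃g G) (w : V) (ω ω' : V → S) :
    mix {γ w} (actLab γ ω) (actLab γ ω') = actLab γ (mix {w} ω ω') := by
  funext v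
  unfold mix actLab
  by_cases h : v = γ w
  · subst h; simp
  · have h2 : γ.symm v ≠ w := by
      rintro rfl
      exact h (by simp)
    simp [h, h2]

theorem mp_act (γ : G ≃g G) : MeasurePreserving (actLab (S := S) γ) (lab V ν) (lab V ν) :=
  mp_relabel ν γ.symm.toEquiv

/-- diagonal invariance of the influences -/
theorem influence_inv [Countable V] (hΦ : IsFactor G Φ) (γ : G ≃g G) (v w : V) :
    ((lab V ν).prod (lab V ν)) (Dset Φ (γ v) (γ w)) =
      ((lab V ν).prod (lab V ν)) (Dset Φ v w) := by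
  have hmp := (mp_act (V := V) (S := S) ν γ).prod (mp_act (V := V) (S := S) ν γ)
  rw [← hmp.measure_preimage (measurableSet_Dset hΦ.1 _ _).nullMeasurableSet]
  congr 1
  ext p
  simp only [mem_preimage, Prod.map, Dset, mem_ofPred_eq]
  rw [actLab_mix, hΦ.2, hΦ.2]
  constructor
  · rintro ⟨e, hev, hne⟩
    refine ⟨γ.symm.mapEdgeSet e, ?_, hne⟩
    have h1 : (γ.symm.mapEdgeSet e : Sym2 V) = Sym2.map γ.symm (e : Sym2 V) := rfl
    rw [h1, Sym2.mem_map]
    exact ⟨γ v, hev, by simp⟩
  · rintro ⟨e, hev, hne⟩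
    have h2 : γ.symm.mapEdgeSet (γ.mapEdgeSet e) = e := by
      apply Subtype.ext
      change Sym2.map γ.symm (Sym2.map γ (e : Sym2 V)) = e
      rw [Sym2.map_map]
      have hid : (⇑γ.symm ∘ ⇑γ) = id := by funext x; simp
      rw [hid, Sym2.map_id]
      rfl
    refine ⟨γ.mapEdgeSet e, ?_, ?_⟩
    · have h1 : (γ.mapEdgeSet e : Sym2 V) = Sym2.map γ (e : Sym2 V) := rfl
      rw [h1, Sym2.mem_map]
      exact ⟨v, hev, rfl⟩
    · unfold actEdge
      rw [h2]; exact hne


/-- resampling one label almost surely does not change the output -/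
theorem ae_insensitive [G.LocallyFinite] {d : ℕ} [Countable V] (hG : G.IsTree)
    (hd : G.IsRegularOfDegree d)
    (hΦ : IsFactor G Φ) (o : V) (hvol : ∫⁻ ω, codingVolume G Φ o ω ∂(lab V ν) < ∞)
    (hPM : ∀ᵐ ω ∂(lab V ν), IsPM G (Φ ω)) (w : V) :
    ∀ᵐ p ∂((lab V ν).prod (lab V ν)), Φ p.1 = Φ (mix {w} p.1 p.2) := by
  -- influences of `w`
  have hsum : ∑' v, ((lab V ν).prod (lab V ν)) (Dset Φ v w) ≠ ∞ := by
    have h1 : ∀ v, ((lab V ν).prod (lab V ν)) (Dset Φ v w) =
        ((lab V ν).prod (lab V ν)) (Dset Φ w v) := by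
      intro v
      obtain ⟨γ, hγ1, hγ2⟩ := homogeneous hG hd (r := w) (x := v) (r' := v) (x' := w)
        (SimpleGraph.dist_comm)
      have := influence_inv ν hΦ γ w v
      rw [hγ1, hγ2] at this
      exact this
    have h2 : ∑' v, ((lab V ν).prod (lab V ν)) (Dset Φ w v) =
        ∑' v, ((lab V ν).prod (lab V ν)) (Dset Φ o v) := by
      obtain ⟨γ, hγ1, _⟩ := homogeneous hG hd (r := o) (x := o) (r' := w) (x' := w)
        (by rw [SimpleGraph.dist_self, SimpleGraph.dist_self])
      rw [← γ.toEquiv.tsum_eq]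
      congr 1
      funext v
      have := influence_inv ν hΦ γ o v
      rw [hγ1] at this
      exact this
    simp_rw [h1]
    rw [h2]
    exact ((sum_influence_le ν hΦ.1 o).trans_lt hvol).ne
  have hfin := ae_finite_setOfPred_mem hsum
  have hPM1 : ∀ᵐ p ∂((lab V ν).prod (lab V ν)), IsPM G (Φ p.1) :=
    Measure.quasiMeasurePreserving_fst.ae hPM
  have hPM2 : ∀ᵐ p ∂((lab V ν).prod (lab V ν)), IsPM G (Φ (mix {w} p.1 p.2)) :=
    (mp_mix ν {w}).quasiMeasurePreserving.ae hPM1
  filter_upwards [hfin, hPM1, hPM2] with p h1 h2 h3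
  exact pm_eq_of_finite hG h2 h3 h1

/-- the same for finitely many labels -/
theorem ae_insensitive_finset [G.LocallyFinite] {d : ℕ} [Countable V] (hG : G.IsTree)
    (hd : G.IsRegularOfDegree d)
    (hΦ : IsFactor G Φ) (o : V) (hvol : ∫⁻ ω, codingVolume G Φ o ω ∂(lab V ν) < ∞)
    (hPM : ∀ᵐ ω ∂(lab V ν), IsPM G (Φ ω)) (A : Finset V) :
    ∀ᵐ p ∂((lab V ν).prod (lab V ν)), Φ p.1 = Φ (mix (↑A : Set V) p.1 p.2) := by
  classical
  induction A using Finset.induction_on with
  | empty =>
    refine Filter.Eventually.of_forall fun p => ?_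
    congr 1
    funext v
    simp [mix]
  | insert a A ha ih =>
    have h1 := ae_insensitive ν hG hd hΦ o hvol hPM a
    have h2 := (mp_mix ν (↑A : Set V)).quasiMeasurePreserving.ae h1
    filter_upwards [ih, h2] with p hp1 hp2
    rw [mix_insert (by simpa using ha)] at hp2
    rw [hp1, hp2]
    congr 1
    push_cast
    rfl

/-- main theorem for general regular trees -/
theorem no_finitary_matching [G.LocallyFinite] {d : ℕ} (hd2 : 2 ≤ d) (hG : G.IsTree)
    (hd : G.IsRegularOfDegree d)
    (hΦ : IsFactor G Φ) (o : V) (hvol : ∫⁻ ω, codingVolume G Φ o ω ∂(lab V ν) < ∞) :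
    ¬ ∀ᵐ ω ∂(lab V ν), IsPM G (Φ ω) := by
  intro hPM
  have : Countable V := countable_of_regular hG
  have hme : ∀ e : G.edgeSet, MeasurableSet {ω : V → S | Φ ω e = true} := by
    intro e
    exact measurableSet_eq_fun ((measurable_pi_apply e).comp hΦ.1) measurable_const
  have h01 : ∀ e : G.edgeSet, lab V ν {ω | Φ ω e = true} = 0 ∨
      lab V ν {ω | Φ ω e = true} = 1 := by
    intro e
    apply zero_one ν (hme e)
    intro A
    filter_upwards [ae_insensitive_finset ν hG hd hΦ o hvol hPM A] with p hp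
    change (Φ p.1 e = true ↔ Φ (mix (↑A : Set V) p.1 p.2) e = true)
    rw [← hp]
  have hcE : Countable G.edgeSet := by
    have : Countable (Sym2 V) := by
      refine Function.Surjective.countable (f := fun p : V × V => s(p.1, p.2)) ?_
      intro e
      induction e using Sym2.ind with
      | _ x y => exact ⟨(x, y), rfl⟩
    infer_instance
  -- some edge at `o` has probability one
  have hex : ∃ e : G.edgeSet, o ∈ (e : Sym2 V) ∧ lab V ν {ω | Φ ω e = true} = 1 := by
    by_contra hcon
    push Not at hcon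
    have hz : ∀ e : G.edgeSet, o ∈ (e : Sym2 V) → ∀ᵐ ω ∂(lab V ν), ¬ (Φ ω e = true) := by
      intro e he
      have := (h01 e).resolve_right (hcon e he)
      rw [ae_iff]
      simpa using this
    have hz' : ∀ᵐ ω ∂(lab V ν), ∀ e : G.edgeSet, o ∈ (e : Sym2 V) → ¬ (Φ ω e = true) := by
      rw [ae_all_iff]
      intro e
      by_cases he : o ∈ (e : Sym2 V)
      · filter_upwards [hz e he] with ω hω _
        exact hω
      · exact Filter.Eventually.of_forall fun ω h => absurd h he
    have hF : ∀ᵐ ω ∂(lab V ν), False := by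
      filter_upwards [hz', hPM] with ω h1 h2
      obtain ⟨e, ⟨h3, h4⟩, _⟩ := h2 o
      exact h1 e h3 h4
    exact IsProbabilityMeasure.ne_zero (lab V ν) (by simpa using hF)
  obtain ⟨e, heo, he1⟩ := hex
  obtain ⟨a, ha⟩ := Sym2.mem_iff_exists.1 heo
  have hadj : G.Adj o a := by
    have := e.2; rw [ha] at this; exact this
  -- another neighbour
  obtain ⟨b, hb, hba⟩ : ∃ b, G.Adj o b ∧ b ≠ a := by
    by_contra hcon
    push Not at hcon
    have hsub : G.neighborSet o ⊆ {a} := fun x hx => hcon x hx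
    have := ncard_le_ncard hsub (finite_singleton a)
    rw [neighborSet_ncard hd, ncard_singleton] at this
    omega
  obtain ⟨γ, hγ1, hγ2⟩ := homogeneous hG hd (r := o) (x := a) (r' := o) (x' := b)
    (by rw [SimpleGraph.dist_eq_one_iff_adj.2 hadj, SimpleGraph.dist_eq_one_iff_adj.2 hb])
  have he' : lab V ν {ω | Φ ω (γ.mapEdgeSet e) = true} = 1 := by
    rw [← he1, ← (mp_act (V := V) (S := S) ν γ).measure_preimage (hme _).nullMeasurableSet]
    congr 1
    ext ω
    simp only [mem_preimage, mem_ofPred_eq]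
    rw [hΦ.2]
    unfold actEdge
    have h2 : γ.symm.mapEdgeSet (γ.mapEdgeSet e) = e := by
      apply Subtype.ext
      change Sym2.map γ.symm (Sym2.map γ (e : Sym2 V)) = e
      rw [Sym2.map_map]
      have hid : (⇑γ.symm ∘ ⇑γ) = id := by funext x; simp
      rw [hid, Sym2.map_id]
      rfl
    rw [h2]
  have ae1 : ∀ᵐ ω ∂(lab V ν), Φ ω e = true :=
    (prob_compl_eq_zero_iff (hme e)).2 he1
  have ae2 : ∀ᵐ ω ∂(lab V ν), Φ ω (γ.mapEdgeSet e) = true :=
    (prob_compl_eq_zero_iff (hme _)).2 he'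
  have heq : ((γ.mapEdgeSet e : G.edgeSet) : Sym2 V) = s(o, b) := by
    change Sym2.map γ (e : Sym2 V) = s(o, b)
    rw [ha, Sym2.map_mk, hγ1, hγ2]
  have hne : γ.mapEdgeSet e ≠ e := by
    intro h
    rw [h, ha] at heq
    have h5 : a = b ∨ o = b ∧ a = o := by
      simpa using heq
    rcases h5 with h5 | ⟨h5, h6⟩
    · exact hba h5.symm
    · exact hba (h5.symm.trans h6.symm)
  have hF : ∀ᵐ ω ∂(lab V ν), False := by
    filter_upwards [ae1, ae2, hPM] with ω h1 h2 h3
    obtain ⟨e0, _, hu⟩ := h3 o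
    have h4 := hu e ⟨heo, h1⟩
    have h5 := hu (γ.mapEdgeSet e) ⟨by rw [heq]; simp, h2⟩
    exact hne (h5.trans h4.symm)
  exact IsProbabilityMeasure.ne_zero (lab V ν) (by simpa using hF)

end Pool.Agent.H97.RT
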